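import Pool.Agent.P.MP_ab3ecb_nt.Inv.G.Iface
import Pool.Agent.P.MP_ab3ecb_nt.Dense
import Pool.Agent.P.MP_ab3ecb_nt.Tower

/-! Step ARITH of the twist project. -/

namespace Pool.Agent.P.MP_ab3ecb_nt.Inv

open WithZero Polynomial Module TensorProduct NumberField
open Pool.Agent.P.MP_6f117a_ag (Place FF Model Reg)
open scoped IntermediateField Classical

lemma arith_mono {Q Q' : ℕ → Prop} (h : Dns Q) (h' : ∀ p, Q p → Q' p) : Dns Q' := by
  obtain ⟨δ, C, h1, h2⟩ := h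
  refine ⟨δ, C, h1, h2.mono fun X hX => hX.trans ?_⟩
  exact Finset.sum_le_sum_of_subset_of_nonneg (fun p hp => Finset.mem_filter.2
    ⟨(Finset.mem_filter.1 hp).1, h' p (Finset.mem_filter.1 hp).2⟩) fun _ _ _ => by positivity

lemma arith_lb {A κ : Type} [CommRing A] [Field κ] {p : ℕ} (hp : p.Prime) (ι : ZMod p →+* κ)
    (f : A →+* κ) (h : ∀ x, f x ^ p = f x) : ∃ g : A →+* ZMod p, ∀ x, ι (g x) = f x := by
  have : Fact p.Prime := ⟨hp⟩
  have : CharP κ p := (ι.charP_iff_charP p).1 inferInstance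
  have h1 : ∀ x, f x ∈ ι.fieldRange := fun x =>
    (bot_le : ⊥ ≤ ι.fieldRange) ((Subfield.mem_bot_iff_pow_eq_self κ p).2 (h x))
  exact ⟨ι.rangeRestrictFieldEquiv.symm.toRingHom.comp (f.codRestrict ι.fieldRange h1),
    fun x => ι.rangeRestrictFieldEquiv_apply_symm_apply _⟩

section roots

variable {O B Ω : Type} [CommRing O] [CommRing B] [Fintype Ω] {φ : O →+* B} {th : Ω → B}
  {P : ℤ[X]} {F0 F1 : O[X]} {M : ℕ}

lemma arith_map (hF : F0.map φ = ∏ c, (X - C (th c))) {κ : Type} [CommRing κ] (ν : B →+* κ) :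
    F0.map (ν.comp φ) = ∏ c, (X - C (ν (th c))) := by
  rw [← Polynomial.map_map, hF, Polynomial.map_prod]
  simp only [Polynomial.map_sub, map_X, map_C]

lemma arith_root [IsDomain B] (hF : F0.map φ = ∏ c, (X - C (th c))) (t : B) :
    F0.eval₂ φ t = 0 ↔ ∃ c, t = th c := by
  rw [← eval_map, hF, eval_prod, Finset.prod_eq_zero_iff]
  simp [sub_eq_zero]

lemma arith_inj [Module.Free ℤ O] [Module.Finite ℤ O] (h : Pol P F0 F1 M)
    (hF : F0.map φ = ∏ c, (X - C (th c))) {κ : Type} [Field κ] (hM : (M : κ) ≠ 0)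
    (ν : B →+* κ) : Function.Injective fun c => ν (th c) := by
  have h1 := tw_sep h.sep (k := κ) (by exact_mod_cast hM)
  rw [RingHom.ext_int (Int.castRingHom κ) ((ν.comp φ).comp (Int.castRingHom O)),
    ← Polynomial.map_map, ← h.mul, Polynomial.map_mul, arith_map hF] at h1
  exact h1.of_mul_left.injective_of_prod_X_sub_C

lemma arith_perm [IsDomain B] (hF : F0.map φ = ∏ c, (X - C (th c)))
    (hi : Function.Injective th) (s : B →+* B) (hs : Function.Injective s) (h : s.comp φ = φ) :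
    ∃ g : Equiv.Perm Ω, ∀ c, s (th c) = th (g c) := by
  have h1 : ∀ c, ∃ c', s (th c) = th c' := fun c => (arith_root hF _).1 (by
    have := (arith_root (arith_map hF s) (s (th c))).2 ⟨c, rfl⟩
    rwa [h] at this)
  choose g hg using h1
  have h2 : Function.Injective g := fun a b e => hi (hs (by rw [hg, hg, e]))
  exact ⟨Equiv.ofBijective g (Finite.injective_iff_bijective.1 h2), hg⟩

end roots

lemma arith_quad {K k Ω : Type} [Field K] [NumberField K] [Field k] [Algebra K k] [IsGalois K k]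
    [Fintype Ω] {θ0 : Ω → k} (hi : Function.Injective θ0) (hint : ∀ c, IsIntegral (𝓞 K) (θ0 c))
    {G : Set (Equiv.Perm Ω)} (h1 : 1 ∈ G)
    (hG : ∀ τ : k ≃ₐ[K] k, ∃ g ∈ G, ∀ c, τ (θ0 c) = θ0 (g c))
    (hG' : ∀ τ : k ≃ₐ[K] k, ∀ c, ∃ c', τ (θ0 c') = θ0 c)
    (hq : ∀ a, finrank K K⟮θ0 a⟯ ≤ 2 → ∃ b, θ0 a ∉ K⟮θ0 b⟯) {Λ : Finset Ω} {a : Ω} (ha : a ∈ Λ)
    (h2 : (orb G Λ).card ≤ 2) : ∃ (q : (𝓞 K)[X]) (b : Ω), q.Monic ∧ q.natDegree = 2 ∧
      (∀ c ∈ Λ, q.eval₂ ((algebraMap K k).comp (algebraMap (𝓞 K) K)) (θ0 c) = 0) ∧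
      ∀ α ∈ K⟮θ0 b⟯, q.eval₂ ((algebraMap K k).comp (algebraMap (𝓞 K) K)) α ≠ 0 := by
  have hK : IsIntegral K (θ0 a) := (hint a).tower_top
  have h3 : (minpoly K (θ0 a)).rootSet k ⊆ ((orb G Λ).image θ0 : Finset k) := fun y hy => by
    obtain ⟨τ, hτ⟩ := minpoly.exists_algEquiv_of_root hK.isAlgebraic (aeval_eq_zero_of_mem_rootSet hy)
    obtain ⟨c, hc⟩ := hG' τ a
    obtain ⟨g, hg, h4⟩ := hG τ
    refine Finset.mem_coe.2 (Finset.mem_image.2 ⟨c, Finset.mem_filter.2 ⟨Finset.mem_univ _, g, hg,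
      ?_⟩, τ.injective (hc.trans hτ.symm)⟩)
    rwa [hi ((h4 c).symm.trans hc)]
  have h4 : ((minpoly K (θ0 a)).rootSet k).ncard = (minpoly K (θ0 a)).natDegree := by
    rw [← card_rootSet_eq_natDegree (Algebra.IsSeparable.isSeparable K (θ0 a))
      (Normal.splits inferInstance (θ0 a)), ← Nat.card_eq_fintype_card, Nat.card_coe_set_eq]
  have h5 : (((orb G Λ).image θ0 : Finset k) : Set k).ncard ≤ 2 := by
    rw [Set.ncard_coe_finset]
    exact Finset.card_image_le.trans h2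
  have h6 : (minpoly K (θ0 a)).natDegree ≤ 2 :=
    h4 ▸ (Set.ncard_le_ncard h3 (Finset.finite_toSet _)).trans h5
  obtain ⟨b, hb⟩ := hq a (by rwa [IntermediateField.adjoin.finrank hK])
  have h7 : (minpoly K (θ0 a)).natDegree = 2 := by
    have h8 := minpoly.natDegree_pos hK
    have h9 : (minpoly K (θ0 a)).natDegree ≠ 1 := fun e => by
      obtain ⟨y, hy⟩ := minpoly.natDegree_eq_one_iff.1 e
      exact hb (hy ▸ IntermediateField.algebraMap_mem _ y)
    omega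
  have h8 := Set.eq_of_subset_of_ncard_le h3 (by omega) (Finset.finite_toSet _)
  have h9 := minpoly.isIntegrallyClosed_eq_field_fractions' K (hint a)
  have h10 : ∀ y, (minpoly (𝓞 K) (θ0 a)).eval₂ ((algebraMap K k).comp (algebraMap (𝓞 K) K)) y =
      aeval y (minpoly K (θ0 a)) := fun y => by rw [h9, aeval_def, eval₂_map]
  refine ⟨minpoly (𝓞 K) (θ0 a), b, minpoly.monic (hint a), ?_, fun c hc => ?_, fun α hα e => hb ?_⟩
  · rw [← h7, h9, (minpoly.monic (hint a)).natDegree_map]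
  · rw [h10]
    refine aeval_eq_zero_of_mem_rootSet (h8 ▸ Finset.mem_coe.2 (Finset.mem_image_of_mem _ ?_))
    exact Finset.mem_filter.2 ⟨Finset.mem_univ _, 1, h1, hc⟩
  · have h11 := minpoly.aeval K (θ0 a)
    have h12 : (minpoly K (θ0 a)).coeff 2 = 1 := h7 ▸ (minpoly.monic hK).coeff_natDegree
    rw [h10] at e
    rw [aeval_eq_sum_range, h7] at e h11
    simp only [Finset.sum_range_succ, Finset.sum_range_zero, h12, Algebra.smul_def, map_one] at e h11
    have h13 : (θ0 a - α) * (θ0 a - (-α - algebraMap K k ((minpoly K (θ0 a)).coeff 1))) = 0 := by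
      linear_combination h11 - e
    rcases mul_eq_zero.1 h13 with h | h <;> rw [sub_eq_zero.1 h]
    · exact hα
    · exact sub_mem (neg_mem hα) (IntermediateField.algebraMap_mem _ _)

section gal

variable {K L : Type} [Field K] [NumberField K] [Field L] [NumberField L] [Algebra K L]

/-- The action on the integers. -/
noncomputable def arith_gal (σ : L ≃ₐ[K] L) : 𝓞 L →+* 𝓞 L :=
  RingOfIntegers.mapRingHom (σ : L →+* L)

omit [NumberField K] [NumberField L] in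
lemma arith_gal_val (σ : L ≃ₐ[K] L) (x : 𝓞 L) : (arith_gal σ x : L) = σ x := rfl

omit [NumberField K] [NumberField L] in
lemma arith_gal_comp (σ : L ≃ₐ[K] L) :
    (arith_gal σ).comp (algebraMap (𝓞 K) (𝓞 L)) = algebraMap (𝓞 K) (𝓞 L) :=
  RingHom.ext fun x => RingOfIntegers.ext (σ.commutes x)

omit [NumberField K] [NumberField L] in
lemma arith_gal_inj (σ : L ≃ₐ[K] L) : Function.Injective (arith_gal σ) := fun _ _ h =>
  RingOfIntegers.ext (σ.injective (congrArg (fun z : 𝓞 L => (z : L)) h))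

/-- The invariant integers. -/
noncomputable def arith_A (σ : L ≃ₐ[K] L) : Subring (𝓞 L) := (arith_gal σ).eqLocus (RingHom.id _)

omit [NumberField K] [NumberField L] in
lemma arith_mem {σ : L ≃ₐ[K] L} {x : 𝓞 L} : x ∈ arith_A σ ↔ arith_gal σ x = x := Iff.rfl

omit [NumberField K] in
lemma arith_fin (σ : L ≃ₐ[K] L) : Module.Finite ℤ (arith_A σ) :=
  Module.Finite.of_injective (arith_A σ).subtype.toAddMonoidHom.toIntLinearMap
    Subtype.val_injective

omit [NumberField K] in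
lemma arith_free (σ : L ≃ₐ[K] L) : Module.Free ℤ (arith_A σ) :=
  have := arith_fin σ
  inferInstance

omit [NumberField K] [NumberField L] in
lemma arith_zp {σ : L ≃ₐ[K] L} {x : L} :
    x ∈ IntermediateField.fixedField (Subgroup.zpowers σ) ↔ σ x = x := by
  rw [IntermediateField.mem_fixedField_iff]
  exact ⟨fun h => h σ (Subgroup.mem_zpowers σ), fun h f hf =>
    (Subgroup.zpowers_le (H := MulAction.stabilizer (L ≃ₐ[K] L) x)).2 h hf⟩

lemma arith_sign {κ : Type} [Field κ] {z : GP K} {r : 𝓞 L →+* κ} {ι : ZMod z.1.1 →+* κ}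
    {σ : L ≃ₐ[K] L} (h : Frob z r ι σ) (h2 : z.1.1 ≠ 2) {n : 𝓞 L} {x : L} (hn : (n : L) = x * x)
    (hx : σ x = -x) {t : ZMod z.1.1} (ht : ι t = r n) : chi z.1.1 t ≠ 1 := by
  have : Fact z.1.1.Prime := ⟨z.1.2⟩
  intro e
  rw [chi_eq] at e
  have h0 : t ≠ 0 := fun a => by simp [a] at e
  obtain ⟨u, rfl⟩ := (quadraticChar_one_iff_isSquare h0).1 e
  have h3 : IsIntegral ℤ x := IsIntegral.of_pow two_pos (by rw [sq, ← hn]; exact n.isIntegral_coe)
  let y : 𝓞 L := ⟨x, h3⟩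
  have h4 : n = y * y := RingOfIntegers.ext hn
  have h5 := h.2 y (-y) hx.symm
  have h6 : ∃ v, r y = ι v := by
    rw [h4, map_mul, map_mul] at ht
    rcases mul_self_eq_mul_self_iff.1 ht.symm with a | a
    · exact ⟨u, a⟩
    · exact ⟨-u, by rw [a, map_neg]⟩
  obtain ⟨v, hv⟩ := h6
  rw [map_neg, hv, ← map_pow, ZMod.pow_card, ← map_neg] at h5
  have h7 : v = 0 := (Ring.eq_self_iff_eq_zero_of_char_ne_two (by
    rwa [ZMod.ringChar_zmod_n])).1 (ι.injective h5)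
  rw [h4, map_mul r, hv, h7, map_zero, mul_zero, map_eq_zero] at ht
  exact h0 ht

end gal

theorem p_ARITH (hFROB : S_FROB) (hQD : S_QD) :
    S_ARITH := by
  intro K k Ω _ _ _ _ _ _ _ L0 _ _ θ0 P F0 F1 M0 hP hθ hF hq
  have : NumberField L0 := NumberField.of_module_finite K L0
  have : CharZero k := charZero_of_injective_algebraMap (algebraMap K k).injective
  have hint : ∀ c, IsIntegral (𝓞 K) (θ0 c) := fun c =>
    ⟨F0, hP.m0, (arith_root hF _).2 ⟨c, rfl⟩⟩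
  have hi : Function.Injective θ0 :=
    arith_inj hP hF (Nat.cast_ne_zero.2 hP.M0) (RingHom.id k)
  have hZ : ∀ x : L0, IsIntegral ℤ (x : k) ↔ IsIntegral ℤ x := fun x =>
    isIntegral_algHom_iff (L0.val.toRingHom.toIntAlgHom) Subtype.val_injective
  let th : Ω → 𝓞 L0 := fun c => ⟨⟨θ0 c, hθ c⟩, (hZ _).1 (isIntegral_trans _ (hint c))⟩
  let v : 𝓞 L0 →+* k := L0.val.toRingHom.comp (algebraMap (𝓞 L0) L0)
  have hv : Function.Injective v := Subtype.val_injective.comp RingOfIntegers.coe_injective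
  have hF' : F0.map (algebraMap (𝓞 K) (𝓞 L0)) = ∏ c, (X - C (th c)) := by
    apply Polynomial.map_injective v hv
    rw [Polynomial.map_map, Polynomial.map_prod]
    simp only [Polynomial.map_sub, map_X, map_C]
    exact hF
  have hi' : Function.Injective th := fun a b e => hi (congrArg v e)
  have pm := fun σ : L0 ≃ₐ[K] L0 =>
    arith_perm hF' hi' (arith_gal σ) (arith_gal_inj σ) (arith_gal_comp σ)
  obtain ⟨hF1, N, hN, hF2⟩ := hFROB K L0
  choose κ fκ r ι fr hr using hF1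
  have hl := fun z : GP K => arith_lb z.1.2 (ι z) ((r z).comp (arith_A (fr z)).subtype) fun x =>
    ((hr z).2 x x (congrArg (fun y : 𝓞 L0 => (y : L0)) x.2).symm).symm
  choose lb hlb using hl
  choose s hs using AlgEquiv.restrictNormalHom_surjective (F := K) (K₁ := L0) k
  have hs' : ∀ σ (x : L0), s σ x = σ x := fun σ x => by
    rw [← AlgEquiv.restrictNormalHom_apply L0 (s σ) x, hs]
  let E : (L0 ≃ₐ[K] L0) → IntermediateField K k := fun σ =>
    IntermediateField.lift (IntermediateField.fixedField (Subgroup.zpowers σ))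
  have hE : ∀ σ (x : L0), (x : k) ∈ E σ ↔ σ x = x := fun σ x =>
    (IntermediateField.mem_lift x).trans arith_zp
  have hle : ∀ σ, E σ ≤ L0 := fun σ => IntermediateField.lift_le _
  have hA : ∀ σ (x : 𝓞 L0), x ∈ arith_A σ ↔ v x ∈ E σ := fun σ x =>
    (arith_mem.trans RingOfIntegers.ext_iff).trans (hE σ x).symm
  let i : ∀ σ : L0 ≃ₐ[K] L0, 𝓞 K →+* arith_A σ := fun σ =>
    (algebraMap (𝓞 K) (𝓞 L0)).codRestrict _ fun x => RingHom.congr_fun (arith_gal_comp σ) x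
  let θ : ∀ σ : L0 ≃ₐ[K] L0, Ω → arith_A σ := fun σ c =>
    if h : th c ∈ arith_A σ then ⟨th c, h⟩ else 0
  let fix : (L0 ≃ₐ[K] L0) → Finset Ω := fun σ => Finset.univ.filter fun c => th c ∈ arith_A σ
  have hfx : ∀ σ c, c ∈ fix σ ↔ th c ∈ arith_A σ := fun σ c => by simp [fix]
  have hval : ∀ σ, ∀ c ∈ fix σ, (θ σ c : 𝓞 L0) = th c := fun σ c hc => by
    simp only [θ, dif_pos ((hfx σ c).1 hc)]
  have hsp : ∀ M : ℕ, M ≠ 0 → Dns fun p => p.Prime ∧ ¬ p ∣ M ∧ ∃ z : GP K, z.1.1 = p ∧ fr z = 1 :=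
    fun M hM => arith_mono (dns_of_pair (𝓞 L0) (𝓞 L0) (mul_ne_zero hM hN) (fun _ => True)
      fun _ _ _ h => absurd trivial h) fun p ⟨h1, h2, ⟨ψ⟩, _⟩ =>
        ⟨h1, fun h => h2 (h.mul_right _), ⟨⟨p, h1⟩, ψ.comp (algebraMap _ _)⟩, rfl,
          hF2 _ (fun h => h2 (h.mul_left _)) ⟨ψ, rfl⟩ _ _ _ _ (hr _)⟩
  have hcomp : ∀ z, (lb z).comp (i (fr z)) = z.2 := fun z => RingHom.ext fun x =>
    haveI : Fact z.1.1.Prime := ⟨z.1.2⟩
    (ι z).injective ((hlb z _).trans (RingHom.congr_fun (hr z).1 x))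
  refine ⟨L0 ≃ₐ[K] L0, inferInstance, inferInstance, fun σ => arith_A σ, inferInstance,
    inferInstance, arith_free, arith_fin, E, s, fun σ => v.comp (arith_A σ).subtype, i, θ, fix, fr,
    lb, {g | ∃ τ : L0 ≃ₐ[K] L0, ∀ c, arith_gal τ (th c) = th (g c)},
    ⟨fun σ => ⟨hv.comp Subtype.val_injective, fun z => ⟨?_, fun h => ?_⟩, fun _ => rfl⟩, hle,
      fun σ => ?_, fun σ τ hτ => ?_, fun σ c => (hfx σ c).trans (hA σ _),
      fun σ c hc => congrArg v (hval σ c hc), fun z h2 n x hx hn hx' => ?_, fun M hM => ?_⟩,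
    fun M hM h0 => ?_⟩
  · rintro ⟨a, rfl⟩
    exact ⟨(hA σ a).1 a.2, (hZ _).2 a.1.isIntegral_coe⟩
  · exact ⟨⟨⟨⟨z, hle σ h.1⟩, (hZ _).1 h.2⟩, (hA σ _).2 h.1⟩, rfl⟩
  · refine (IntermediateField.mem_fixingSubgroup_iff _ _).2 fun x hx => ?_
    exact (hs' σ ⟨x, hle σ hx⟩).trans (congrArg Subtype.val ((hE σ ⟨x, hle σ hx⟩).1 hx))
  · have h1 : AlgEquiv.restrictNormalHom L0 τ ∈ Subgroup.zpowers σ := by
      rw [← IntermediateField.fixingSubgroup_fixedField (Subgroup.zpowers σ)]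
      refine (IntermediateField.mem_fixingSubgroup_iff _ _).2 fun x hx => Subtype.ext ?_
      rw [AlgEquiv.restrictNormalHom_apply]
      exact (IntermediateField.mem_fixingSubgroup_iff _ _).1 hτ x ((hE σ x).2 (arith_zp.1 hx))
    obtain ⟨n, hn⟩ := mem_powers_iff_mem_zpowers.2 h1
    refine ⟨n, ?_⟩
    rw [← IntermediateField.restrictNormalHom_ker, MonoidHom.mem_ker, map_mul, map_inv, map_pow,
      hs, ← hn, inv_mul_cancel]
  · exact arith_sign (hr z) h2 (n := n) (x := ⟨x, hx⟩) (Subtype.ext hn)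
      (Subtype.ext ((hs' _ ⟨x, hx⟩).symm.trans hx')) (hlb z n)
  · refine arith_mono (hsp M hM) fun p ⟨h1, h2, z, h3, h4⟩ => ⟨h1, h2, z, h3, ?_⟩
    rw [h4]
    exact le_antisymm (hle 1) fun x hx => (hE 1 ⟨x, hx⟩).2 rfl
  have hri : ∀ z : GP K, ¬ z.1.1 ∣ M → Function.Injective fun c => r z (th c) := fun z hz => by
    have : Fact z.1.1.Prime := ⟨z.1.2⟩
    refine arith_inj hP hF' ?_ (r z)
    rw [← map_natCast (ι z), _root_.map_ne_zero, Ne, ZMod.natCast_eq_zero_iff]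
    exact fun h => hz (h.trans h0)
  have hall : ∀ z : GP K, ¬ z.1.1 ∣ M → ∀ t, F0.eval₂ z.2 t = 0 →
      ∃ c ∈ fix (fr z), lb z (θ _ c) = t := fun z hz t ht => by
    have : Fact z.1.1.Prime := ⟨z.1.2⟩
    obtain ⟨c, hc⟩ := (arith_root (arith_map hF' (r z)) (ι z t)).1 (by
      rw [(hr z).1, ← hom_eval₂, ht, map_zero])
    obtain ⟨g, hg⟩ := pm (fr z)
    have h1 := (hr z).2 (th c) (arith_gal (fr z) (th c)) rfl
    rw [← hc, ← map_pow, ZMod.pow_card, hc, hg] at h1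
    have h2 : c ∈ fix (fr z) := (hfx _ c).2 (arith_mem.2 ((hg c).trans (congrArg th (hri z hz h1))))
    exact ⟨c, h2, (ι z).injective (((hlb z _).trans (congrArg (r z) (hval _ c h2))).trans hc.symm)⟩
  have hev : ∀ σ (q : (𝓞 K)[X]), ∀ c ∈ fix σ,
      q.eval₂ ((algebraMap K k).comp (algebraMap (𝓞 K) K)) (θ0 c) = 0 →
        q.eval₂ (i σ) (θ σ c) = 0 := fun σ q c hc h => by
    refine (hv.comp Subtype.val_injective) (?_ : (v.comp (arith_A σ).subtype) _ =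
      (v.comp (arith_A σ).subtype) 0)
    rw [hom_eval₂, map_zero, ← h]
    exact congrArg (fun y => q.eval₂ _ y) (congrArg v (hval σ c hc))
  refine ⟨hcomp, fun σ c hc => hev σ F0 c hc ((arith_root hF _).2 ⟨c, rfl⟩), hall, ⟨1, fun _ => rfl⟩,
    ?_, fun Λ h2 => ?_⟩
  · rintro g ⟨τ, hτ⟩ z hz σ
    refine ⟨κ z, fκ z, (r z).comp ((arith_gal τ).comp (arith_A σ).subtype), ι z, ?_,
      fun c hc c' hc' => ?_⟩
    · rw [← (hr z).1, ← arith_gal_comp τ]
      rfl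
    · have h1 : ι z (lb z (θ _ c')) = r z (th c') := (hlb z _).trans (congrArg _ (hval _ c' hc'))
      have h3 : ((r z).comp ((arith_gal τ).comp (arith_A σ).subtype)) (θ σ c) = r z (th (g c)) := by
        rw [← hτ, ← hval σ c hc]
        rfl
      rw [h1, h3]
      exact (hri z hz).eq_iff
  rcases Λ.eq_empty_or_nonempty with rfl | ⟨a, ha⟩
  · refine arith_mono (hsp M hM) fun p ⟨h1, h3, z, h4, h5⟩ =>
      ⟨h1, h3, z, h4, ⟨Classical.arbitrary Ω, ?_⟩, Finset.disjoint_empty_right _⟩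
    rw [h5]
    exact (hfx _ _).2 rfl
  have hG : ∀ τ : k ≃ₐ[K] k, ∃ g : Equiv.Perm Ω, (∃ τ : L0 ≃ₐ[K] L0,
      ∀ c, arith_gal τ (th c) = th (g c)) ∧ ∀ c, τ (θ0 c) = θ0 (g c) := fun τ => by
    obtain ⟨g, hg⟩ := pm (AlgEquiv.restrictNormalHom L0 τ)
    exact ⟨g, ⟨_, hg⟩, fun c =>
      (AlgEquiv.restrictNormalHom_apply L0 τ ⟨θ0 c, hθ c⟩).symm.trans (congrArg v (hg c))⟩
  obtain ⟨q, b, q1, q2, q3, q4⟩ := arith_quad hi hint (by exact ⟨1, fun _ => rfl⟩) hG (fun τ c => by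
    obtain ⟨g, -, hg⟩ := hG τ
    exact ⟨g.symm c, by rw [hg, g.apply_symm_apply]⟩) hq ha h2
  refine arith_mono (hQD K k F0 q (θ0 b) hP.m0 q1 q2 ((arith_root hF _).2 ⟨b, rfl⟩) q4 M hM)
    fun p ⟨h1, h3, z, h4, ⟨t, h5⟩, h6⟩ => ⟨h1, h3, z, h4, ?_, Finset.disjoint_left.2 fun c hc hc' =>
      h6 (lb z (θ _ c)) ?_⟩
  · obtain ⟨c, hc, -⟩ := hall z (h4 ▸ h3) t h5
    exact ⟨c, hc⟩
  · rw [← hcomp z, ← hom_eval₂, hev _ q c hc (q3 c hc'), map_zero]

end Pool.Agent.P.MP_ab3ecb_nt.Inv
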