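import Pool.Agent.P.MP_ab3ecb_nt.Inv.G.Iface

/-! Step BD of the twist project. -/

namespace Pool.Agent.P.MP_ab3ecb_nt.Inv

open WithZero Polynomial Module TensorProduct NumberField
open Pool.Agent.P.MP_6f117a_ag (Place FF Model Reg)
open scoped IntermediateField Classical

lemma bd_scale {k ι : Type} [Field k] (s : Finset ι) (r : ι → k) (a : k) :
    (∏ i ∈ s, (X - C (r i))).scaleRoots a = ∏ i ∈ s, (X - C (a * r i)) := by
  induction s using Finset.induction_on with
  | empty => simp
  | insert i s hi ih =>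
    rw [Finset.prod_insert hi, Finset.prod_insert hi, mul_scaleRoots_of_noZeroDivisors, ih,
      sub_eq_add_neg, ← C_neg, X_add_C_scaleRoots, neg_mul, C_neg, mul_comm a, sub_eq_add_neg]

theorem p_BD (hXSEP : S_XSEP) (hPOLY : S_POLY) :
    S_BD := by
  intro K F k Fb _ _ _ _ _ _ _ _ _ _ _ j act h f hf
  have fin : {P : Place k Fb | Odd (ord P (j f))}.Finite :=
    (finite_ord (j f)).subset fun P hP e => by simp [show ord P (j f) = 0 from e] at hP
  let Ω := fin.toFinset
  have hΩ : ∀ {P}, P ∈ Ω ↔ Odd (ord P (j f)) := fun {P} => fin.mem_toFinset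
  have st : ∀ τ P, P ∈ Ω ↔ (h.sa τ).pl P ∈ Ω := fun τ P => by rw [hΩ, hΩ, h.ord_pl]
  have evn : Even Ω.card := by
    have e := deg_dv (k := k) (j f)
    rw [deg_eq] at e
    have := (Finset.even_sum_iff_even_card_odd (s := (dv k (j f)).support)
      fun P => (dv k (j f) P).natAbs).1 (by
        rw [← Int.even_coe_nat, Nat.cast_sum, ← add_zero (Finset.sum _ _), ← e,
          ← Finset.sum_add_distrib]
        exact Finset.even_sum _ fun P _ => by rw [Int.even_add, Int.even_coe_nat, Int.natAbs_even])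
    convert this using 2
    ext P
    simp only [hΩ, Finset.mem_filter, Finsupp.mem_support_iff, dv_apply, Int.natAbs_odd]
    exact ⟨fun e => ⟨fun e' => by simp [e'] at e, e⟩, fun e => e.2⟩
  obtain ⟨x, h1, h2, h3⟩ := hXSEP K F k Fb j act h Ω fun τ P => (st τ P).1
  have mo : (∏ c ∈ Ω, (X - C (ev c (j x)))).Monic := monic_prod_X_sub_C _ _
  obtain ⟨P0, e0, d0, m0⟩ := lifts_and_natDegree_eq_and_monic (f := algebraMap K k)
    ((lifts_iff_coeff_lifts _).2 fun n => (InfiniteGalois.mem_range_algebraMap_iff_fixed _).2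
      fun τ => by
        rw [← RingHom.coe_coe, ← coeff_map, Polynomial.map_prod]
        congr 1
        refine Finset.prod_equiv (h.sa τ).pl (st τ) fun P _ => ?_
        simp [h.ev_pl]) mo
  obtain ⟨a, c, P, F0, F1, M, a0, hP, e1⟩ := hPOLY K P0 m0
    ((separable_map (algebraMap K k)).1 (e0 ▸ separable_prod_X_sub_C_iff'.2 h3))
    (by rwa [d0, natDegree_finsetProd_X_sub_C_eq_card])
  have a1 : algebraMap K k a ≠ 0 := (_root_.map_ne_zero _).2 a0
  have ex : j (algebraMap K F a * x + algebraMap K F c) =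
      algebraMap k Fb (algebraMap K k a) * j x + algebraMap k Fb (algebraMap K k c) := by
    rw [map_add, map_mul, h.comm, h.comm]
  have le : ∀ Q ∈ Ω, Q.v (algebraMap k Fb (algebraMap K k a) * j x) ≤ 1 := fun Q hQ => by
    rw [map_mul]
    exact mul_le_one' (Q.triv _) (h1 Q hQ)
  have ee : ∀ Q ∈ Ω, ev Q (j (algebraMap K F a * x + algebraMap K F c)) =
      algebraMap K k a * ev Q (j x) + algebraMap K k c := fun Q hQ => by
    rw [ex, ev_add (le Q hQ) (Q.triv _), ev_mul (Q.triv _) (h1 Q hQ), ev_const, ev_const]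
  have un : ∀ Q ∈ Ω, ord Q (j (algebraMap K F a * x + algebraMap K F c) -
      algebraMap k Fb (ev Q (j (algebraMap K F a * x + algebraMap K F c)))) = 1 := fun Q hQ => by
    rw [ee Q hQ, ex, map_add, map_mul, add_sub_add_right_eq_sub, ← mul_sub,
      ord_mul Q ((_root_.map_ne_zero _).2 a1) (ne_zero_of_ord (by rw [h2 Q hQ]; norm_num)), ord_const,
      h2 Q hQ, zero_add]
  refine ⟨algebraMap K F a * x + algebraMap K F c, Ω, P, F0, F1, M,
    ⟨⟨(map_ne_zero j).2 hf, fun P => hΩ.symm⟩, fun Q hQ => ?_, un, fun Q hQ Q' hQ' e => ?_, ?_⟩,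
    hP, evn, fun ⟨Q, hQ⟩ e => ?_⟩
  · rw [ex]
    exact Q.v.map_add_le (le Q hQ) (Q.triv _)
  · rw [ee Q hQ, ee Q' hQ'] at e
    exact h3 Q hQ Q' hQ' (mul_left_cancel₀ a1 (add_right_cancel e))
  · rw [e1, Polynomial.map_comp, map_scaleRoots _ _ _ (by simp [m0.leadingCoeff]), e0, bd_scale, prod_comp]
    refine Finset.prod_congr rfl fun Q hQ => ?_
    rw [ee Q hQ]
    simp
    ring
  · generalize algebraMap K F a * x + algebraMap K F c = y at e un
    obtain ⟨r, hr⟩ := (MP_6f117a_ag.const_or_trans (L := k) (j y)).resolve_right fun t =>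
      t ⟨P.map (algebraMap ℤ k), (hP.mF.map _).ne_zero, by
        rw [aeval_map_algebraMap, show j y = j.toIntAlgHom y from rfl, aeval_algHom_apply, e,
          map_zero]⟩
    have := un Q hQ
    rw [← hr, ← map_sub, ord_const] at this
    exact zero_ne_one this

end Pool.Agent.P.MP_ab3ecb_nt.Inv
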