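import Pool.Agent.P.MP_ab3ecb_nt.Inv.G.Iface
import Pool.Agent.P.MP_ab3ecb_nt.Model

/-! Step CERT of the twist project. -/

namespace Pool.Agent.P.MP_ab3ecb_nt.Inv

open WithZero Polynomial Module TensorProduct NumberField
open Pool.Agent.P.MP_6f117a_ag (Place FF Model Reg)
open scoped IntermediateField Classical

section near

variable {F : Type} [Field F] {W : ValuationSubring F} {Q Q' : ValuationSubring F → Prop}

/-- `Q` holds for all valuation rings near `W`. -/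
def cert_Ev (W : ValuationSubring F) (Q : ValuationSubring F → Prop) : Prop :=
  ∃ T : Set F, T.Finite ∧ T ⊆ W ∧ ∀ W' : ValuationSubring F, T ⊆ W' → Q W'

lemma cert_mono (h : cert_Ev W Q) (k : ∀ W', Q W' → Q' W') : cert_Ev W Q' :=
  let ⟨T, h1, h2, h3⟩ := h
  ⟨T, h1, h2, fun W' a => k W' (h3 W' a)⟩

lemma cert_and (h : cert_Ev W Q) (h' : cert_Ev W Q') : cert_Ev W fun W' => Q W' ∧ Q' W' :=
  let ⟨T, h1, h2, h3⟩ := h
  let ⟨T', k1, k2, k3⟩ := h'
  ⟨T ∪ T', h1.union k1, Set.union_subset h2 k2, fun W' a =>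
    ⟨h3 W' (Set.subset_union_left.trans a), k3 W' (Set.subset_union_right.trans a)⟩⟩

lemma cert_all {ι : Type} {V : Set ι} (hV : V.Finite) {Q : ι → ValuationSubring F → Prop}
    (h : ∀ z ∈ V, cert_Ev W (Q z)) : cert_Ev W fun W' => ∀ z ∈ V, Q z W' := by
  choose! T h1 h2 h3 using h
  exact ⟨⋃ z ∈ V, T z, hV.biUnion h1, Set.iUnion₂_subset h2, fun W' a z hz =>
    h3 z hz W' ((Set.subset_biUnion_of_mem (u := T) hz).trans a)⟩

lemma cert_mem {x : F} (hx : x ∈ W) : cert_Ev W fun W' => x ∈ W' :=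
  ⟨{x}, Set.finite_singleton x, Set.singleton_subset_iff.2 hx, fun _ a => a rfl⟩

lemma cert_unit {x : F} (hx : W.valuation x = 1) :
    cert_Ev W fun W' => x ∈ W' ∧ ∀ y : W', (y : F) = x → IsUnit y := by
  have h0 : x ≠ 0 := fun e => by simp [e] at hx
  refine cert_mono (cert_and (cert_mem (x := x) ((W.valuation_le_one_iff x).1 hx.le))
    (cert_mem (x := x⁻¹) ((W.valuation_le_one_iff _).1 (by simp [hx])))) fun W' a => ⟨a.1, ?_⟩
  exact fun y hy => IsUnit.of_mul_eq_one ⟨x⁻¹, a.2⟩ (Subtype.ext (by simp [hy, h0]))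

lemma cert_const {K : Type} [Field K] [NumberField K] [Algebra K F] [CharZero F]
    (h : ∀ q : ℚ, (q : F) ∈ W) (c : K) : algebraMap K F c ∈ W := by
  have h2 : IsIntegral W (algebraMap K F c) :=
    IsIntegral.map_of_comp_eq ((Rat.castHom F).codRestrict W h) (algebraMap K F)
      (RingHom.ext_rat _ _) (Algebra.IsIntegral.isIntegral (R := ℚ) c)
  obtain ⟨y, hy⟩ := IsIntegrallyClosed.isIntegral_iff.1 h2
  exact hy ▸ y.2

end near

lemma cert_pj {O B : Type} [CommRing O] [CommRing B] {a b : O →+* B} {e u u' : B}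
    (h : IsD a b e) (k : u * u' - 1 ∈ dI a b) : IsUnit (pj e u) :=
  IsUnit.of_mul_eq_one (pj e u') (by rw [← pj_mul h.1, h.pj_congr k, pj_one])

lemma cert_desc {O A F : Type} [CommRing O] [Module.Free ℤ O] [Module.Finite ℤ O] [Nontrivial O]
    [CommRing A] [Module.Free ℤ A] [Module.Finite ℤ A] [Field F] {r : ℤ} (hd : Dual O r)
    {ρ0 : O →+* F} (i : O →+* A) {W : ValuationSubring F} {ρ : O →+* W}
    (hρ : ∀ z, (ρ z : F) = ρ0 z) (hr : IsUnit (r : W))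
    (hi : Function.Injective (tm A W.subtype)) :
    ∃ e, IsD ((algebraMap W (W ⊗[ℤ] A)).comp ρ) ((inc A W).comp i) e ∧
      ∀ z, z ∈ dT ρ i ↔ tm A W.subtype z ∈ dT ρ0 i := by
  obtain ⟨e, he⟩ := exists_isD hd (by simpa using hr.map (algebraMap W (W ⊗[ℤ] A)))
    ((algebraMap W (W ⊗[ℤ] A)).comp ρ) ((inc A W).comp i)
  refine ⟨e, he, fun z => ?_⟩
  have h1 := he.map (tm A W.subtype)
  rw [← RingHom.comp_assoc _ (inc A W), tm_comp,
    show (tm A W.subtype).comp ((algebraMap W (W ⊗[ℤ] A)).comp ρ) =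
      (algebraMap F (F ⊗[ℤ] A)).comp ρ0 from RingHom.ext fun z => by
        rw [RingHom.comp_apply, RingHom.comp_apply, tm_alg, RingHom.comp_apply, ← hρ]; rfl] at h1
  rw [dT, dT, he.mem_iff, h1.mem_iff, ← map_mul, map_eq_zero_iff _ hi]

section th

variable {F k Fb A : Type} [Field F] [Field k] [Field Fb] [Algebra k Fb] [CommRing A]
  (j : F →+* Fb) (a0 : A →+* k)

lemma cert_inc (a : A) : th j a0 (inc A F a) = algebraMap k Fb (a0 a) := by
  have := th_tmul j a0 1 a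
  rwa [map_one, one_mul] at this

lemma cert_alg (x : F) : th j a0 (algebraMap F _ x) = j x := by
  have := th_tmul j a0 x 1
  rwa [map_one, map_one, mul_one] at this

lemma cert_evT [Module.Free ℤ A] [Module.Finite ℤ A] (G : A[X]) (x : F) :
    th j a0 (evT G x) = G.eval₂ ((algebraMap k Fb).comp a0) (j x) := by
  rw [hom_eval₂, cert_alg,
    show (th j a0).comp (inc A F) = (algebraMap k Fb).comp a0 from RingHom.ext (cert_inc j a0)]

end th

theorem p_CERT (hTRL : S_TRL) (hSPR : S_SPR) (hFC : S_FC) :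
    S_CERT := by
  intro K F k Fb _ _ _ _ _ _ _ _ _ _ _ j act hG f x F0 F1 E0 A _ _ _ a0 i G γ V hO hγ h0 hV hV0 hL
  have : CharZero F := charZero_of_injective_algebraMap (algebraMap K F).injective
  have : IsDomain A := hO.inj.isDomain a0
  obtain ⟨t1, -, t3⟩ := hTRL K F k Fb j act hG E0 A a0 i hO
  set ρ0 := (algebraMap K F).comp (algebraMap (𝓞 K) K) with hρ0
  have finv : ∀ z, Fx act E0 z → Fx act E0 z⁻¹ := fun z hz τ hτ => by rw [map_inv₀, hz τ hτ]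
  have top : ∀ z, Fx act E0 z → ∃ u, th j a0 u = z := fun z hz => by
    obtain ⟨u, hu⟩ := t3 ⊤ (fun _ => trivial) z hz fun P hP => by
      have : Submodule.span k (Set.range j) ≤ P.le 0 :=
        Submodule.span_le.2 (by rintro _ ⟨w, rfl⟩; exact (hP w).1 trivial)
      exact this (hG.top ▸ Submodule.mem_top)
    exact ⟨_, hu⟩
  have spr : ∀ W : ValuationSubring F, (∀ c, algebraMap K F c ∈ W) → ∀ z, Fx act E0 z →
      (∀ P : Place k Fb, Over j P W → P.v z ≤ 1) →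
      cert_Ev W fun W' => ∃ u : W' ⊗[ℤ] A, th j a0 (tm A W'.subtype u) = z := fun W hW z h1 h2 => by
    obtain ⟨u, hu⟩ := t3 W hW z h1 h2
    refine cert_mono ((hFC F A W).2 u) fun W' a => ?_
    obtain ⟨u', h3, -⟩ := a
    exact ⟨u', h3 ▸ hu⟩
  obtain ⟨r, hr0, hr⟩ := exists_dual (𝓞 K)
  replace hr := hr r dvd_rfl
  obtain ⟨γ0, g1, g2⟩ : ∃ γ0, IsUnit γ0 ∧ th j a0 γ0 = γ := by
    obtain ⟨e, he⟩ := exists_isD hr (by
      simpa using (Ne.isUnit (Int.cast_ne_zero.2 hr0 : (r : F) ≠ 0)).map (algebraMap F (F ⊗[ℤ] A)))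
      ((algebraMap F (F ⊗[ℤ] A)).comp ρ0) ((inc A F).comp i)
    obtain ⟨u, hu⟩ := top γ hγ
    obtain ⟨u', hu'⟩ := top γ⁻¹ (finv γ hγ)
    refine ⟨pj e u, cert_pj (u' := u') he ((t1 _).1 ?_), ?_⟩
    · rw [map_sub, map_mul, hu, hu', map_one, mul_inv_cancel₀ h0, sub_self]
    · rw [← hu, ← sub_eq_zero, ← map_sub]
      exact (t1 _).2 (he.pj_sub u)
  set N : ℤ := r * ∏ z ∈ hV.toFinset, Algebra.norm ℤ z.2 with hN
  have hN0 : N ≠ 0 := mul_ne_zero hr0 (Finset.prod_ne_zero_iff.2 fun z hz =>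
    Algebra.norm_ne_zero_iff.2 (hV0 z (hV.mem_toFinset.1 hz)))
  obtain ⟨M, hM, hQ⟩ := hSPR F (fun W => IsUnit (N : W) → ∀ ρ : 𝓞 K →+* W, (∀ z, (ρ z : F) = ρ0 z) →
    (∃ (w : W) (u : W ⊗[ℤ] A), IsUnit w ∧ IsSquare (f * w) ∧ IsUnit u ∧
      ∃ s, γ0 * tm A W.subtype u - s * s ∈ dT ρ0 i) ∨
    ∃ (a w : W) (u : W ⊗[ℤ] A), (a : F) = x ∧ IsUnit (F1.eval₂ ρ a) ∧ IsUnit w ∧
      IsSquare (f * w * F0.eval₂ ρ0 x) ∧ IsUnit u ∧
      (∃ s, γ0 * tm A W.subtype (u * evT G a) - s * s ∈ dT ρ0 i) ∧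
      ∀ z ∈ V, ∀ (k : Type) [Field k] (μ : W ⊗[ℤ] A →+* k), (∀ b ∈ dT ρ i, μ b = 0) →
        μ (algebraMap W _ a) = μ (inc A W z.1) →
        μ (inc A W z.2) ≠ 0 ∧ IsSquare (μ (u * evT G a * inc A W z.2))) fun W hW => by
    replace hW := cert_const (K := K) hW
    obtain ⟨w, u, s, w1, u1, s1, u0, u2, hc⟩ := hL W hW
    obtain ⟨s0, rfl⟩ := top s s1
    have E1 : cert_Ev W fun W' => (∃ w' : W', IsUnit w' ∧ (w' : F) = w) ∧ (IsUnit (N : W') →
        ∀ ρ : 𝓞 K →+* W', (∀ z, (ρ z : F) = ρ0 z) →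
        (∀ z, th j a0 (tm A W'.subtype z) = 0 → z ∈ dT ρ i) ∧
          ∃ U : W' ⊗[ℤ] A, IsUnit U ∧ th j a0 (tm A W'.subtype U) = u) := by
      refine cert_mono (cert_and (cert_unit ((W.valuation_eq_one_iff w).1 w1)) (cert_and
        (spr W hW u u1 fun P hP => (u2 P hP).le)
        (spr W hW u⁻¹ (finv u u1) fun P hP => by simp [u2 P hP]))) ?_
      rintro W' ⟨⟨a1, a2⟩, ⟨y, hy⟩, y', hy'⟩
      refine ⟨⟨⟨w, a1⟩, a2 _ rfl, rfl⟩, fun hu ρ hρ => ?_⟩
      obtain ⟨e, he, hd⟩ := cert_desc hr i hρ (isUnit_of_mul_isUnit_left (by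
        rwa [hN, Int.cast_mul] at hu)) (hFC F A W').1
      refine ⟨fun z hz => (hd z).2 ((t1 _).1 hz), pj e y,
        cert_pj (u' := y') he ((hd _).2 ((t1 _).1 ?_)), ?_⟩
      · simp only [map_sub, map_mul, hy, hy', map_one, mul_inv_cancel₀ u0, sub_self]
      · rw [← hy, ← sub_eq_zero, ← map_sub, ← map_sub]
        exact (t1 _).2 ((hd _).1 (he.pj_sub y))
    rcases hc with ⟨c1, c2⟩ | ⟨c1, c2, c3, c4, c5⟩
    · refine cert_mono E1 ?_
      rintro W' ⟨⟨w', a1, a2⟩, a3⟩ hu ρ hρ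
      obtain ⟨-, U, a4, a5⟩ := a3 hu ρ hρ
      refine Or.inl ⟨w', U, a1, a2 ▸ c1, a4, s0, (t1 _).1 ?_⟩
      rw [map_sub, map_mul, map_mul, g2, a5, c2, sub_self]
    · have E2 : cert_Ev W fun W' => ∀ z ∈ V, ∃ c y : W' ⊗[ℤ] A,
          u * G.eval₂ ((algebraMap k Fb).comp a0) (j x) * algebraMap k Fb (a0 z.2) =
            th j a0 (tm A W'.subtype c) * th j a0 (tm A W'.subtype c) +
              (j x - algebraMap k Fb (a0 z.1)) * th j a0 (tm A W'.subtype y) :=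
        cert_all hV fun z hz => by
          obtain ⟨c, d1, y, d2, d3, d4⟩ := c5 z hz
          refine cert_mono (cert_and (spr W hW (algebraMap k Fb c) (fun τ hτ => by
            rw [hG.semi]; exact congrArg _ (hτ ⟨c, d1⟩)) fun P _ => P.triv c)
            (spr W hW y d2 d3)) ?_
          rintro W' ⟨⟨c', e1⟩, y', e2⟩
          exact ⟨c', y', by rw [e1, e2, d4, map_mul]⟩
      refine cert_mono (cert_and (cert_and E1 E2) (cert_and (cert_mem c1) (cert_unit c2))) ?_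
      rintro W' ⟨⟨⟨⟨w', a1, a2⟩, a3⟩, b1⟩, b2, -, b3⟩ hu ρ hρ
      obtain ⟨a6, U, a4, a5⟩ := a3 hu ρ hρ
      have e1 : th j a0 (tm A W'.subtype (evT G (⟨x, b2⟩ : W'))) =
          G.eval₂ ((algebraMap k Fb).comp a0) (j x) := by
        rw [tm_eval]
        exact cert_evT j a0 G x
      refine Or.inr ⟨⟨x, b2⟩, w', U, rfl, b3 _ ?_, a1, a2 ▸ c3, a4, ⟨s0, (t1 _).1 ?_⟩,
        fun z hz κ _ μ m1 m2 => ⟨?_, ?_⟩⟩
      · have := hom_eval₂ F1 ρ W'.subtype ⟨x, b2⟩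
        rwa [show W'.subtype.comp ρ = ρ0 from RingHom.ext hρ] at this
      · rw [map_sub, map_mul, map_mul, map_mul, map_mul, g2, a5, e1, c4, sub_self]
      · refine ((isUnit_inc (isUnit_of_dvd_unit (Int.cast_dvd_cast _ _ ?_) hu)).map μ).ne_zero
        exact (Finset.dvd_prod_of_mem _ (hV.mem_toFinset.2 hz)).mul_left r
      · obtain ⟨c, y, e2⟩ := b1 z hz
        have e3 := m1 _ (a6 (U * evT G (⟨x, b2⟩ : W') * inc A W' z.2 - (c * c +
          (algebraMap W' _ (⟨x, b2⟩ : W') - inc A W' z.1) * y)) (by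
            simp only [map_sub, map_add, map_mul, a5, e1, tm_inc, tm_alg, cert_inc, cert_alg]
            exact sub_eq_zero.2 e2))
        rw [map_sub, map_add, map_mul μ _ y, map_sub, m2, sub_self, zero_mul, add_zero,
          sub_eq_zero, map_mul μ c] at e3
        exact ⟨_, e3⟩
  refine ⟨M * N.natAbs, γ0, mul_ne_zero hM (Int.natAbs_ne_zero.2 hN0), g1, fun W ρ hρ hu => ?_⟩
  rw [Nat.cast_mul, Int.cast_mul] at hu
  exact hQ W (isUnit_of_mul_isUnit_left hu) (isUnit_of_dvd_unit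
    (Int.cast_dvd_cast _ _ (Int.dvd_natAbs.2 dvd_rfl)) (isUnit_of_mul_isUnit_right hu)) ρ hρ

end Pool.Agent.P.MP_ab3ecb_nt.Inv
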