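import Pool.Agent.P.MP_ab3ecb_nt.Inv.G.Iface
import Pool.Agent.P.MP_ab3ecb_nt.Inv.W.Iface

/-! Step DICH of the twist project. -/

namespace Pool.Agent.P.MP_ab3ecb_nt.Inv

open WithZero Polynomial Module TensorProduct NumberField
open Pool.Agent.P.MP_6f117a_ag (Place FF Model Reg)
open scoped IntermediateField Classical

lemma dich_sq_div {E : Type} [Field E] {x w : E} (hw : w ≠ 0) (h : IsSquare (x * (w * w))) :
    IsSquare x := by
  obtain ⟨u, hu⟩ := h
  refine ⟨u / w, ?_⟩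
  rw [div_mul_div_comm, eq_div_iff (mul_ne_zero hw hw), hu]

lemma dich_sq_units {E : Type} [Field E] (x : Eˣ) : IsSquare x ↔ IsSquare (x : E) := by
  constructor
  · rintro ⟨u, rfl⟩
    exact ⟨u, Units.val_mul u u⟩
  · rintro ⟨u, hu⟩
    have h0 : u ≠ 0 := by
      rintro rfl
      exact x.ne_zero (by simpa using hu)
    exact ⟨Units.mk0 u h0, Units.ext (by simpa using hu)⟩

/-- Replacing a function by another one in the same class modulo squares. -/
lemma dich_swap {E : Type} [Field E] (σ : E ≃+* E) {d x r : E} (hx : x ≠ 0)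
    (h1 : IsSquare (d * (σ x * x))) (h2 : IsSquare (x * r)) : IsSquare (d * (σ r * r)) := by
  have h3 : IsSquare (σ x * σ r) := by
    obtain ⟨u, hu⟩ := h2
    exact ⟨σ u, by rw [← map_mul, hu, map_mul]⟩
  refine dich_sq_div (mul_ne_zero ((map_ne_zero σ).2 hx) hx) ?_
  have := (h1.mul h3).mul h2
  rwa [show d * (σ x * x) * (σ x * σ r) * (x * r) = d * (σ r * r) * (σ x * x * (σ x * x)) by
    ring] at this

section

variable {k E : Type} [Field k] [Field E] [Algebra k E]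

lemma dich_odd_mul {γ r : E} {S : Finset (Place k E)} (h : OddAt k γ S) (hr : Ev2 k r) :
    OddAt k (γ * r) S :=
  ⟨mul_ne_zero h.1 hr.1, fun P => by
    rw [ord_mul P h.1 hr.1, ← h.2 P, Int.odd_add]
    simp [hr.2 P]⟩

lemma dich_even (σ : SA k E) {a b : Place k E} {γ : E} (ha : σ.pl a = a) (hb : σ.pl b = b)
    (h : OddAt k γ {a, b}) : Ev2 k (σ.s γ * γ) := by
  have h0 : σ.s γ ≠ 0 := (map_ne_zero σ.s).2 h.1
  refine ⟨mul_ne_zero h0 h.1, σ.pl.surjective.forall.2 fun P => ?_⟩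
  rw [ord_mul _ h0 h.1, σ.ord_pl, Int.even_add', h.2, h.2]
  simp only [Finset.mem_insert, Finset.mem_singleton]
  conv_rhs => rw [← ha, ← hb]
  simp only [EmbeddingLike.apply_eq_iff_eq]

end

section

variable {K k Fb : Type} [Field K] [Field k] [Algebra K k] [Field Fb]
  {act : (k ≃ₐ[K] k) →* RingAut Fb}

lemma dich_pow (s : k ≃ₐ[K] k) {z : Fb} (hz : z ≠ 0) (h : IsSquare (act s z * z)) (n : ℕ) :
    IsSquare (act (s ^ n) z * z) := by
  induction n with
  | zero => exact ⟨z, by simp⟩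
  | succ n ih =>
    have h1 : IsSquare (act s (act (s ^ n) z) * act s z) := by
      obtain ⟨u, hu⟩ := ih
      exact ⟨act s u, by rw [← map_mul, hu, map_mul]⟩
    rw [pow_succ', map_mul, RingAut.mul_apply]
    refine dich_sq_div ((map_ne_zero (act s)).2 hz) ?_
    have := h1.mul h
    rwa [show act s (act (s ^ n) z) * act s z * (act s z * z) =
      act s (act (s ^ n) z) * z * (act s z * act s z) by ring] at this

lemma dich_all {L0 E0 : IntermediateField K k} {s : k ≃ₐ[K] k}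
    (hg : ∀ τ ∈ E0.fixingSubgroup, ∃ n : ℕ, (s ^ n)⁻¹ * τ ∈ L0.fixingSubgroup) {z : Fb}
    (hz : z ≠ 0) (hf : Fx act L0 z) (h : IsSquare (act s z * z)) :
    ∀ τ ∈ E0.fixingSubgroup, IsSquare (act τ z * z) := by
  intro τ hτ
  obtain ⟨n, hn⟩ := hg τ hτ
  have h1 : act τ z = act (s ^ n) z := by
    conv_lhs => rw [← mul_inv_cancel_left (s ^ n) τ, map_mul, RingAut.mul_apply, hf _ hn]
  rw [h1]
  exact dich_pow s hz h n

lemma dich_fx_mul {E0 : IntermediateField K k} {x y : Fb} (hx : Fx act E0 x) (hy : Fx act E0 y) :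
    Fx act E0 (x * y) := fun τ hτ => by rw [map_mul, hx τ hτ, hy τ hτ]

end

lemma dich_fix (hHN : S_HN) {K F k Fb : Type} [Field K] [Field F] [Algebra K F] [Field k]
    [IsAlgClosed k] [Algebra K k] [Field Fb] [Algebra k Fb] [FF k Fb] {j : F →+* Fb}
    {act : (k ≃ₐ[K] k) →* RingAut Fb} (h : CE j act) {E0 : IntermediateField K k}
    {a : Place k Fb} {π z : Fb} (ha : ∀ τ ∈ E0.fixingSubgroup, (h.sa τ).pl a = a)
    (hπ : ord a π = 1) (hf : Fx act E0 π) (hz : z ≠ 0)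
    (hs : ∀ τ ∈ E0.fixingSubgroup, IsSquare (act τ z * z)) :
    ∃ t : Fb, t ≠ 0 ∧ Fx act E0 (z * (t * t)) := by
  obtain ⟨t, h0, ht⟩ := hHN k Fb (h.sa '' E0.fixingSubgroup) a π z
    (by rintro _ ⟨τ, hτ, rfl⟩; exact ha τ hτ) hπ (by rintro _ ⟨τ, hτ, rfl⟩; exact hf τ hτ) hz
    (by rintro _ ⟨τ, hτ, rfl⟩; exact hs τ hτ)
  exact ⟨t, h0, fun τ hτ => ht _ ⟨τ, hτ, rfl⟩⟩

/-- The linear algebra step, in the language of functions. -/
lemma dich_la (hLA : S_LA) {k E : Type} [Field k] [IsAlgClosed k] [Field E] [Algebra k E]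
    [FF k E] {e : E → E → ℤˣ} (he : IsPair k e) (σ : SA k E) (R : Finset E)
    (hR : ∀ r ∈ R, Ev2 k r) (hR' : ∀ z, Ev2 k z → ∃ r ∈ R, IsSquare (z * r)) {d : E}
    (hd : Ev2 k d) : (∃ r ∈ R, IsSquare (d * (σ.s r * r))) ∨
      ∃ r ∈ R, IsSquare (σ.s r * r) ∧ e r d = -1 := by
  let N : Subgroup Eˣ :=
    { carrier := {x | Ev2 k (x : E)}
      mul_mem' := fun {x y} hx hy => by
        rw [Set.mem_ofPred_eq, Units.val_mul]
        exact Ev2.mul hx hy
      one_mem' := ⟨one_ne_zero, fun P => by simp⟩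
      inv_mem' := fun {x} hx => by
        rw [Set.mem_ofPred_eq, Units.val_inv_eq_inv_val]
        exact Ev2.inv hx }
  have hN : ∀ x : Eˣ, x ∈ N ↔ Ev2 k (x : E) := fun _ => Iff.rfl
  have hσ : ∀ x : Eˣ, ((Units.mapEquiv σ.s.toMulEquiv x : Eˣ) : E) = σ.s x := fun _ => rfl
  have key := hLA Eˣ N (R.preimage Units.val Units.val_injective.injOn) (fun x y => e x y)
    (Units.mapEquiv σ.s.toMulEquiv) (fun x => ev2_sq x.ne_zero)
    (fun r hr => hR _ (Finset.mem_preimage.1 hr))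
    (fun x hx => by
      obtain ⟨r, hr, h1⟩ := hR' x hx
      exact ⟨Units.mk0 r (hR r hr).1, Finset.mem_preimage.2 hr, (dich_sq_units _).2 h1⟩)
    (fun x hx x' hx' y hy => he.mul x x' y hx hx' hy) (fun x hx y hy => he.symm x y hx hy)
    (fun x y hy => he.sq x y x.ne_zero hy)
    (fun x hx h1 => (dich_sq_units _).2 (he.ndg x hx fun g hg => h1 (Units.mk0 g hg.1) hg))
    (fun x => by
      rw [hN, hN, hσ]
      exact ⟨fun h1 => by simpa [SA.symm] using h1.s σ.symm, fun h1 => h1.s σ⟩)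
    (fun x hx y hy => he.inv σ x y hx hy) (Units.mk0 d hd.1) hd
  rcases key with ⟨x, hx, h1⟩ | ⟨x, hx, h1, h2⟩
  · obtain ⟨r, hr, h3⟩ := hR' x hx
    exact Or.inl ⟨r, hr, dich_swap σ.s x.ne_zero ((dich_sq_units _).1 h1) h3⟩
  · obtain ⟨r, hr, h3⟩ := hR' x hx
    refine Or.inr ⟨r, hr, ?_, ?_⟩
    · have := dich_swap σ.s (d := 1) x.ne_zero
        (by rw [one_mul]; exact (dich_sq_units _).1 h1) h3
      rwa [one_mul] at this
    · obtain ⟨u, hu⟩ := h3
      have h0 : u ≠ 0 := by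
        rintro rfl
        exact mul_ne_zero x.ne_zero (hR r hr).1 (by simpa using hu)
      have h4 := he.mul x r d hx (hR r hr) hd
      have h5 : e x d = -1 := (he.symm x d hx hd).trans h2
      rw [hu, he.sq u d h0 hd, h5, neg_one_mul] at h4
      exact neg_eq_iff_eq_neg.1 h4.symm

theorem p_DICH (hPAIR : S_PAIR) (hLA : S_LA) (hKEY : S_KEY) (hHN : S_HN) (hINVAPP : S_INVAPP) :
    S_DICH := by
  intro K F k Fb _ _ _ _ _ _ _ _ _ _ _ j act h L0 E0 s R S a b γ π hR hR' hEL hs hg hS ha hb hab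
    hfix hγ hγL hπ hπE
  have : CharZero k := charZero_of_injective_algebraMap (algebraMap K k).injective
  obtain ⟨e, he⟩ := hPAIR k Fb (h.tr.elim fun t ht => ⟨_, ht⟩)
  have hd := dich_even (h.sa s) (hfix s hs).1 (hfix s hs).2 hγ
  rcases dich_la hLA he (h.sa s) R (fun r hr => (hR r hr).1) hR' hd with
    ⟨r, hr, h1⟩ | ⟨r, hr, h1, h2⟩
  · have hz := dich_odd_mul hγ (hR r hr).1
    obtain ⟨t, h0, ht⟩ := dich_fix hHN h.toCE (fun τ hτ => (hfix τ hτ).1) hπ hπE hz.1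
      (dich_all hg hz.1 (dich_fx_mul hγL (hR r hr).2) (by
        rw [map_mul, mul_mul_mul_comm]
        exact h1))
    exact Or.inl ⟨_, ht, dich_odd_mul hz (ev2_sq h0)⟩
  have hr2 := (hR r hr).1
  obtain ⟨t, h0, ht⟩ := dich_fix hHN h.toCE (fun τ hτ => (hfix τ hτ).1) hπ hπE hr2.1
    (dich_all hg hr2.1 (hR r hr).2 h1)
  have hg1 : Ev2 k (r * (t * t)) := hr2.mul (ev2_sq h0)
  obtain ⟨w, w0, hw, hw1⟩ := hINVAPP K F k Fb j act h E0 S (fun P => -(ord P (r * (t * t)) / 2))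
    fun τ hτ P hP => ⟨hS τ P hP, by
      have := (h.sa τ).ord_pl P (r * (t * t))
      rw [h.sa_s, ht τ hτ] at this
      simp only [this]⟩
  have hg2 : Ev2 k (r * (t * t) * (w * w)) := hg1.mul (ev2_sq w0)
  have hfx : Fx act E0 (r * (t * t) * (w * w)) := dich_fx_mul ht (dich_fx_mul hw hw)
  have hv : ∀ c ∈ S, c.v (r * (t * t) * (w * w)) = 1 := fun c hc => by
    rw [eq_one_iff hg2.1, ord_mul c hg1.1 (mul_ne_zero w0 w0), ord_mul c w0 w0, hw1 c hc]
    obtain ⟨m, hm⟩ := hg1.2 c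
    omega
  have hE : e (act s γ * γ) (r * (t * t) * (w * w)) = -1 := by
    have hd' : Ev2 k (act s γ * γ) := hd
    rw [he.symm _ _ hd' hg2, he.mul _ _ _ hg1 (ev2_sq w0) hd', he.mul _ _ _ hr2 (ev2_sq h0) hd',
      he.sq _ _ h0 hd', he.sq _ _ w0 hd', mul_one, mul_one]
    exact h2
  obtain ⟨r0, hr0⟩ := IsAlgClosed.exists_eq_mul_self
    (ev a (r * (t * t) * (w * w)) * ev b (r * (t * t) * (w * w)))
  have key : ∀ τ ∈ E0.fixingSubgroup,
      τ r0 = ((e (act τ γ * γ) (r * (t * t) * (w * w)) : ℤ) : k) * r0 := fun τ hτ =>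
    hKEY k Fb e he (h.sa τ) a b γ _ r0 hab (hfix τ hτ).1 (hfix τ hτ).2 hγ hg2 (hfx τ hτ)
      (hv a ha) (hv b hb) hr0.symm
  refine Or.inr ⟨_, r0, hfx, hg2, hv, ?_, hr0.symm, ?_⟩
  · rw [← InfiniteGalois.fixedField_fixingSubgroup L0, IntermediateField.mem_fixedField_iff]
    intro τ hτ
    have hτ' : τ ∈ E0.fixingSubgroup := by
      rw [IntermediateField.mem_fixingSubgroup_iff] at hτ ⊢
      exact fun x hx => hτ x (hEL hx)
    rw [key τ hτ', hγL τ hτ, he.sq _ _ hγ.1 hg2]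
    simp
  · rw [key s hs, hE]
    simp

end Pool.Agent.P.MP_ab3ecb_nt.Inv
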