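import Pool.Agent.P.MP_ab3ecb_nt.Inv.G.Iface

/-! Step FC of the twist project. -/

namespace Pool.Agent.P.MP_ab3ecb_nt.Inv

open WithZero Polynomial Module TensorProduct NumberField
open Pool.Agent.P.MP_6f117a_ag (Place FF Model Reg)
open scoped IntermediateField Classical

lemma fc_inj {F A : Type} [Field F] [CommRing A] [Module.Free ℤ A] (W : ValuationSubring F) :
    Function.Injective (tm A W.subtype) :=
  Module.Flat.rTensor_preserves_injective_linearMap (M := A)
    W.subtype.toIntAlgHom.toLinearMap Subtype.val_injective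

lemma fc_fin {F A : Type} [Field F] [CommRing A] (W : ValuationSubring F) (u : W ⊗[ℤ] A) :
    ∃ T : Set F, T.Finite ∧ T ⊆ W ∧ ∀ W' : ValuationSubring F, T ⊆ W' →
      ∃ u' : W' ⊗[ℤ] A, tm A W'.subtype u' = tm A W.subtype u := by
  induction u using TensorProduct.induction_on with
  | zero => exact ⟨∅, Set.finite_empty, Set.empty_subset _, fun _ _ => ⟨0, by simp⟩⟩
  | tmul w a =>
    exact ⟨{w.1}, Set.finite_singleton _, Set.singleton_subset_iff.2 w.2, fun W' h =>
      ⟨(⟨w.1, h rfl⟩ : W') ⊗ₜ a, rfl⟩⟩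
  | add x y hx hy =>
    obtain ⟨S, s1, s2, s3⟩ := hx
    obtain ⟨T, t1, t2, t3⟩ := hy
    refine ⟨S ∪ T, s1.union t1, Set.union_subset s2 t2, fun W' h => ?_⟩
    obtain ⟨x', hx⟩ := s3 W' (Set.subset_union_left.trans h)
    obtain ⟨y', hy⟩ := t3 W' (Set.subset_union_right.trans h)
    exact ⟨x' + y', by rw [map_add, map_add, hx, hy]⟩

theorem p_FC :
    S_FC := by
  intro F A _ _ _ _ W
  refine ⟨fc_inj W, fun u => ?_⟩
  obtain ⟨S, s1, s2, s3⟩ := fc_fin W u
  by_cases hu : IsUnit u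
  · obtain ⟨v, hv⟩ := hu.exists_right_inv
    obtain ⟨T, t1, t2, t3⟩ := fc_fin W v
    refine ⟨S ∪ T, s1.union t1, Set.union_subset s2 t2, fun W' h => ?_⟩
    obtain ⟨x, hx⟩ := s3 W' (Set.subset_union_left.trans h)
    obtain ⟨y, hy⟩ := t3 W' (Set.subset_union_right.trans h)
    exact ⟨x, hx, fun _ => IsUnit.of_mul_eq_one y (fc_inj W' (by
      rw [map_mul, hx, hy, ← map_mul, hv, map_one, map_one]))⟩
  · exact ⟨S, s1, s2, fun W' h => (s3 W' h).imp fun _ e => ⟨e, fun h => absurd h hu⟩⟩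

end Pool.Agent.P.MP_ab3ecb_nt.Inv
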