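import Pool.Agent.P.MP_ab3ecb_nt.Inv.G.Iface

/-! Step FROB of the twist project. -/

namespace Pool.Agent.P.MP_ab3ecb_nt.Inv

open WithZero Polynomial Module TensorProduct NumberField
open Pool.Agent.P.MP_6f117a_ag (Place FF Model Reg)
open scoped IntermediateField Classical

section

variable {K L : Type} [Field K] [NumberField K] [Field L] [NumberField L] [Algebra K L]
  [IsGalois K L]

lemma frob_ex (z : GP K) : ∃ (κ : Type) (_ : Field κ) (r : 𝓞 L →+* κ)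
    (ι : ZMod z.1.1 →+* κ) (σ : L ≃ₐ[K] L), Frob z r ι σ := by
  have : Fact z.1.1.Prime := ⟨z.1.2⟩
  have hs := ZMod.ringHom_surjective z.2
  have h1 : (RingHom.ker z.2).IsMaximal := RingHom.ker_isMaximal_of_surjective _ hs
  obtain ⟨Q, h2, h3⟩ := Ideal.exists_maximal_ideal_liesOver_of_isIntegral (S := 𝓞 L)
    (RingHom.ker z.2)
  have h4 : Q ≠ ⊥ := Ideal.ne_bot_of_liesOver_of_ne_bot (p := RingHom.ker z.2) z.pl.ne_bot Q
  have := Ideal.finiteQuotientOfFreeOfNeBot Q h4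
  have := Algebra.isInvariant_of_isGalois' (𝓞 K) K L (𝓞 L)
  have : Finite (𝓞 L ≃ₐ[𝓞 K] 𝓞 L) := .of_equiv _ (galRestrict (𝓞 K) K L (𝓞 L)).toEquiv
  obtain ⟨g, hg⟩ := IsArithFrobAt.exists_of_isInvariant (𝓞 K) (𝓞 L ≃ₐ[𝓞 K] 𝓞 L) Q
  have h5 : Nat.card (𝓞 K ⧸ Q.under (𝓞 K)) = z.1.1 := by
    rw [← h3.over, Nat.card_congr (RingHom.quotientKerEquivOfSurjective hs).toEquiv, Nat.card_zmod]
  refine ⟨𝓞 L ⧸ Q, Ideal.Quotient.field Q, Ideal.Quotient.mk Q,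
    z.2.liftOfSurjective hs ⟨(Ideal.Quotient.mk Q).comp (algebraMap (𝓞 K) (𝓞 L)), fun a ha =>
      Ideal.Quotient.eq_zero_iff_mem.2 (by rwa [h3.over] at ha)⟩,
    (galRestrict (𝓞 K) K L (𝓞 L)).symm g, (RingHom.liftOfSurjective_comp z.2 hs ⟨_, _⟩).symm,
    fun x y e => ?_⟩
  have h6 := algebraMap_galRestrict_apply (𝓞 K) ((galRestrict (𝓞 K) K L (𝓞 L)).symm g) x
  rw [MulEquiv.apply_symm_apply] at h6
  have h7 := hg x
  rw [h5] at h7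
  rw [show y = g x from RingOfIntegers.ext (e.trans h6.symm), ← map_pow]
  exact Ideal.Quotient.eq.2 h7

open scoped Pointwise in
lemma frob_fix (z : GP K) {ψ : 𝓞 L →+* ZMod z.1.1} (hψ : ψ.comp (algebraMap (𝓞 K) (𝓞 L)) = z.2)
    {κ : Type} [Field κ] {r : 𝓞 L →+* κ} {ι : ZMod z.1.1 →+* κ}
    (h : r.comp (algebraMap (𝓞 K) (𝓞 L)) = ι.comp z.2) (x : 𝓞 L) : r x ^ z.1.1 = r x := by
  have : Fact z.1.1.Prime := ⟨z.1.2⟩
  have := Algebra.isInvariant_of_isGalois' (𝓞 K) K L (𝓞 L)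
  have : Finite (𝓞 L ≃ₐ[𝓞 K] 𝓞 L) := .of_equiv _ (galRestrict (𝓞 K) K L (𝓞 L)).toEquiv
  have := RingHom.ker_isPrime ψ
  have := RingHom.ker_isPrime r
  obtain ⟨g, hg⟩ := Algebra.IsInvariant.exists_smul_of_under_eq (𝓞 K) (𝓞 L) (𝓞 L ≃ₐ[𝓞 K] 𝓞 L)
    (RingHom.ker ψ) (RingHom.ker r) (Ideal.ext fun a => by
      have h1 := RingHom.congr_fun hψ a
      have h2 := RingHom.congr_fun h a
      simp only [RingHom.comp_apply] at h1 h2
      rw [Ideal.mem_comap, Ideal.mem_comap, RingHom.mem_ker, RingHom.mem_ker, h1, h2,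
        map_eq_zero ι])
  rw [← sub_eq_zero, ← map_pow, ← map_sub, ← RingHom.mem_ker, hg,
    Ideal.mem_pointwise_smul_iff_inv_smul_mem, smul_sub, smul_pow', RingHom.mem_ker, map_sub,
    map_pow, ZMod.pow_card, sub_self]

end

theorem p_FROB :
    S_FROB := by
  intro K L _ _ _ _ _ _
  refine ⟨frob_ex, ?_⟩
  have h1 : ∀ σ : L ≃ₐ[K] L, ∃ N : ℕ, N ≠ 0 ∧ (σ ≠ 1 → ∃ x y : 𝓞 L, (y : L) = σ x ∧
      y - x ∣ (N : 𝓞 L)) := fun σ => by
    by_cases e : σ = 1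
    · exact ⟨1, one_ne_zero, fun a => absurd e a⟩
    have h2 : galRestrict (𝓞 K) K L (𝓞 L) σ ≠ 1 := by simpa using e
    obtain ⟨x, hx⟩ := not_forall.1 (mt AlgEquiv.ext h2)
    refine ⟨Ideal.absNorm (Ideal.span {galRestrict (𝓞 K) K L (𝓞 L) σ x - x}), ?_, fun _ =>
      ⟨x, _, algebraMap_galRestrict_apply (𝓞 K) σ x,
        Ideal.mem_span_singleton.1 (Ideal.absNorm_mem _)⟩⟩
    rw [Ne, Ideal.absNorm_eq_zero_iff, Ideal.span_singleton_eq_bot, sub_eq_zero]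
    exact hx
  choose N h1 h2 using h1
  refine ⟨∏ σ, N σ, Finset.prod_ne_zero_iff.2 fun σ _ => h1 σ,
    fun z hz ⟨ψ, hψ⟩ κ _ r ι σ h => by_contra fun e => hz ?_⟩
  obtain ⟨x, y, h3, c, h4⟩ := h2 σ e
  have : Fact z.1.1.Prime := ⟨z.1.2⟩
  have h5 := congrArg r h4
  rw [map_mul, map_sub, h.2 x y h3, frob_fix z hψ h.1, sub_self, zero_mul, map_natCast,
    ← map_natCast ι, map_eq_zero, ZMod.natCast_eq_zero_iff] at h5
  exact h5.trans (Finset.dvd_prod_of_mem _ (Finset.mem_univ σ))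

end Pool.Agent.P.MP_ab3ecb_nt.Inv
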