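import Pool.Agent.P.MP_ab3ecb_nt.Inv.G.Iface
import Pool.Agent.P.MP_ab3ecb_nt.Inv.J.Iface

/-! Step GEO of the twist project. -/

namespace Pool.Agent.P.MP_ab3ecb_nt.Inv

open WithZero Polynomial Module TensorProduct NumberField
open Pool.Agent.P.MP_6f117a_ag (Place FF Model Reg)
open scoped IntermediateField Classical

lemma geo_dns {Q Q' : ℕ → Prop} (h : Dns Q) (k : ∀ p, Q p → Q' p) : Dns Q' := by
  obtain ⟨δ, C, h1, h2⟩ := h
  refine ⟨δ, C, h1, h2.mono fun X hX => hX.trans ?_⟩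
  exact Finset.sum_le_sum_of_subset_of_nonneg
    (fun p hp => Finset.mem_filter.2 ⟨(Finset.mem_filter.1 hp).1, k p (Finset.mem_filter.1 hp).2⟩)
    fun _ _ _ => by positivity

section

variable {K F k Fb : Type} [Field K] [Field F] [Algebra K F] [Field k] [Algebra K k] [Field Fb]
  [Algebra k Fb] {j : F →+* Fb} {act : (k ≃ₐ[K] k) →* RingAut Fb} {f x : F}
  {Ω : Finset (Place k Fb)} {P0 : K[X]} {E0 : IntermediateField K k}

lemma geo_stab (h : CE j act) (b : BD j f x Ω P0) (τ : k ≃ₐ[K] k) :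
    ∀ P ∈ Ω, (h.sa τ).pl P ∈ Ω := fun P hP =>
  (b.odd.2 _).1 (by rw [h.ord_pl]; exact (b.odd.2 P).2 hP)

lemma geo_fix (h : CE j act) (b : BD j f x Ω P0) {c : Place k Fb} (hc : c ∈ Ω)
    (hE : ev c (j x) ∈ E0) : ∀ τ ∈ E0.fixingSubgroup, (h.sa τ).pl c = c := fun τ hτ =>
  b.inj _ (geo_stab h b τ c hc) c hc (by
    rw [h.ev_pl]; exact (IntermediateField.mem_fixingSubgroup_iff _ _).1 hτ _ hE)

omit [Algebra k Fb] in
lemma geo_mul {y z : Fb} (hy : Fx act E0 y) (hz : Fx act E0 z) : Fx act E0 (y * z) :=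
  fun τ hτ => by rw [map_mul, hy τ hτ, hz τ hτ]

lemma geo_pi (h : CE j act) {e : k} (hE : e ∈ E0) : Fx act E0 (j x - algebraMap k Fb e) :=
  fun τ hτ => by
    rw [map_sub, h.fixF, h.semi, (IntermediateField.mem_fixingSubgroup_iff _ _).1 hτ _ hE]

lemma geo_ev [IsGalois K k] (h : CE j act) {c : Place k Fb}
    (hc : ∀ τ ∈ E0.fixingSubgroup, (h.sa τ).pl c = c) {g : Fb} (hg : Fx act E0 g) :
    ev c g ∈ E0 := by
  rw [← InfiniteGalois.fixedField_fixingSubgroup E0, IntermediateField.mem_fixedField_iff]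
  intro τ hτ
  have := (h.sa τ).ev_pl c g
  rwa [hc τ hτ, h.sa_s, hg τ hτ, h.sa_s0, eq_comm] at this

lemma geo_int [NumberField K] [IsGalois K k] {A : Type} [CommRing A] {a0 : A →+* k}
    {i : 𝓞 K →+* A} (h : Ord E0 a0 i) {e : k} (he : e ∈ E0) :
    ∃ n : A, ∃ t ∈ E0, t ≠ 0 ∧ a0 n = t * t * e := by
  have : CharZero k := charZero_of_injective_algebraMap (algebraMap K k).injective
  have h1 : Algebra.IsAlgebraic ℤ K :=
    (IsFractionRing.comap_isAlgebraic_iff (K := ℚ)).2 inferInstance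
  have h2 : Algebra.IsAlgebraic ℤ k := Algebra.IsAlgebraic.trans ℤ K k
  obtain ⟨m, h3, h4⟩ := (h2.isAlgebraic e).exists_integral_multiple
  obtain ⟨n, hn⟩ := (h.rng ((m : k) * m * e)).2
    ⟨mul_mem (mul_mem (intCast_mem _ m) (intCast_mem _ m)) he, by
      simpa [mul_assoc] using h4.smul m⟩
  exact ⟨n, m, intCast_mem _ m, Int.cast_ne_zero.2 h3, hn⟩

end

section

variable {K F k Fb : Type} [Field K] [NumberField K] [Field F] [Algebra K F]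
  [Field k] [IsAlgClosed k] [Algebra K k] [IsGalois K k] [Field Fb] [Algebra k Fb] [FF k Fb]
  {j : F →+* Fb} {act : (k ≃ₐ[K] k) →* RingAut Fb} {f x : F} {Ω : Finset (Place k Fb)}
  {P : ℤ[X]} {F0 F1 : (𝓞 K)[X]} {M0 : ℕ} {E0 : IntermediateField K k} {A : Type} [CommRing A]
  [Module.Free ℤ A] [Module.Finite ℤ A] {a0 : A →+* k} {i : 𝓞 K →+* A}

lemma geo_unr (hLOCC : S_LOCC) (hCERT : S_CERT) (h : GS j act)
    (b : BD j f x Ω (F0.map (algebraMap (𝓞 K) K))) (hP : Pol P F0 F1 M0) (ho : Ord E0 a0 i)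
    {g : Fb} (g1 : Fx act E0 g) (g2 : Ev2 k g) (g3 : ∀ c ∈ Ω, c.v g = 1) (fix : Finset Ω)
    (θ n : Ω → A) (h1 : ∀ c ∈ fix, a0 (θ c) = ev c.1 (j x))
    (h2 : ∀ c ∈ fix, ∃ t ∈ E0, t ≠ 0 ∧ a0 (n c) = t * t * ev c.1 g) :
    ∃ (M : ℕ) (γ0 : F ⊗[ℤ] A), M ≠ 0 ∧ Cert ((algebraMap K F).comp (algebraMap (𝓞 K) K)) f x F0 F1
      M i 1 γ0 {w | ∃ c ∈ fix, w = (θ c, n c)} := by
  refine hCERT K F k Fb j act h f x F0 F1 E0 A a0 i 1 g _ ho g1 g2.1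
    ((Set.finite_range fun c => (θ c, n c)).subset fun w ⟨c, _, e⟩ => ⟨c, e.symm⟩) ?_
    (hLOCC K F k Fb j act h f x Ω ∅ P F0 F1 M0 b hP (Finset.empty_subset _) E0 A a0 1 g _
      (fun a => ((ho.rng _).1 ⟨a, rfl⟩).1) (by simp) g1 ⟨g2.1, fun Q => by simpa using g2.2 Q⟩ ?_)
  · rintro _ ⟨c, hc, rfl⟩ e
    obtain ⟨t, -, t0, ht⟩ := h2 c hc
    rw [show n c = 0 from e, map_zero] at ht
    exact mul_ne_zero (mul_ne_zero t0 t0) (ev_ne_zero (g3 c c.2)) ht.symm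
  · rintro _ ⟨c, hc, rfl⟩
    obtain ⟨t, t1, -, ht⟩ := h2 c hc
    exact ⟨c, c.2, by simp, h1 c hc, g3 c c.2, t, t1, ht⟩

lemma geo_pair (hINV : S_INVAPP) (hLOCC : S_LOCC) (hCERT : S_CERT) (h : GS j act)
    (hb : BD j f x Ω (F0.map (algebraMap (𝓞 K) K))) (hP : Pol P F0 F1 M0) (ho : Ord E0 a0 i)
    {a b : Place k Fb} (ha : a ∈ Ω) (hb' : b ∈ Ω) (hab : a ≠ b) {θa θb : A}
    (h1 : a0 θa = ev a (j x)) (h2 : a0 θb = ev b (j x)) {γ' : Fb} (g1 : Fx act E0 γ')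
    (g2 : OddAt k γ' {a, b}) :
    ∃ (M : ℕ) (G : A[X]) (g : F ⊗[ℤ] A) (m : A), M ≠ 0 ∧
      G * ((X - C θa) * (X - C θb)) = F0.map i ∧
      Cert ((algebraMap K F).comp (algebraMap (𝓞 K) K)) f x F0 F1 M i G g {(θa, m)} := by
  have hE : ∀ a, a0 a ∈ E0 := fun a => ((ho.rng _).1 ⟨a, rfl⟩).1
  have hfa := geo_fix (E0 := E0) h.toCE hb ha (h1 ▸ hE θa)
  have f0 := hb.odd.1
  obtain ⟨e, he⟩ : Even (ord a (j f) + ord a γ') :=
    ((hb.odd.2 a).2 ha).add_odd ((g2.2 a).2 (by simp))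
  obtain ⟨t, t0, t1, t2⟩ := hINV K F k Fb j act h E0 {a} (fun _ => -e) fun τ hτ Q hQ => by
    rw [Finset.mem_singleton.1 hQ, hfa τ hτ]
    simp
  have k0 : j f * γ' * (t * t) ≠ 0 := mul_ne_zero (mul_ne_zero f0 g2.1) (mul_ne_zero t0 t0)
  have k1 : ∀ Q : Place k Fb, ord Q (j f * γ' * (t * t)) =
      ord Q (j f) + ord Q γ' + (ord Q t + ord Q t) := fun Q => by
    rw [ord_mul Q (mul_ne_zero f0 g2.1) (mul_ne_zero t0 t0), ord_mul Q f0 g2.1, ord_mul Q t0 t0]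
  have k2 : Fx act E0 (j f * γ' * (t * t)) :=
    geo_mul (geo_mul (fun τ _ => h.fixF τ f) g1) (geo_mul t1 t1)
  have k3 : a.v (j f * γ' * (t * t)) = 1 :=
    (eq_one_iff k0).2 (by rw [k1, he, t2 a (by simp)]; ring)
  have k4 : OddAt k (j f * γ' * (t * t)) ((Ω.erase a).erase b) := ⟨k0, fun Q => by
    have l1 := hb.odd.2 Q
    have l2 := g2.2 Q
    rw [k1, Int.odd_add, Int.odd_add, ← Int.not_odd_iff_even (n := ord Q γ'), l1, l2]
    simp only [Finset.mem_insert, Finset.mem_singleton, Finset.mem_erase, Even.add_self, iff_true]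
    by_cases q1 : Q = a
    · simp [q1, ha]
    by_cases q2 : Q = b
    · simp [q2, hb']
    simp [q1, q2]⟩
  generalize j f * γ' * (t * t) = γ at k0 k2 k3 k4
  have p1 : (F0.map i).map a0 = ((X - C θa) * (X - C θb)).map a0 *
      ∏ c ∈ (Ω.erase a).erase b, (X - C (ev c (j x))) := by
    have := hb.pol
    rw [← Finset.mul_prod_erase _ _ ha,
      ← Finset.mul_prod_erase _ _ (Finset.mem_erase.2 ⟨hab.symm, hb'⟩), Polynomial.map_map] at this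
    rw [Polynomial.map_map, show a0.comp i = (algebraMap K k).comp (algebraMap (𝓞 K) K) from
      RingHom.ext ho.comp]
    simpa [h1, h2, mul_assoc] using this
  have p2 : ((X - C θa) * (X - C θb)).Monic := (monic_X_sub_C _).mul (monic_X_sub_C _)
  obtain ⟨G, hG⟩ := (Polynomial.map_dvd_map a0 ho.inj p2).1 ⟨_, p1⟩
  rw [hG, Polynomial.map_mul] at p1
  obtain ⟨m, u, u1, u0, hu⟩ := geo_int ho (geo_ev h.toCE hfa k2)
  obtain ⟨M, g, q1, q2⟩ := hCERT K F k Fb j act h f x F0 F1 E0 A a0 i G γ {(θa, m)} ho k2 k0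
    (Set.finite_singleton _) (by
      rintro _ rfl e
      rw [show m = 0 from e, map_zero] at hu
      exact mul_ne_zero (mul_ne_zero u0 u0) (ev_ne_zero k3) hu.symm)
    (hLOCC K F k Fb j act h f x Ω _ P F0 F1 M0 hb hP
      ((Finset.erase_subset _ _).trans (Finset.erase_subset _ _)) E0 A a0 G γ _ hE
      (mul_left_cancel₀ (p2.map a0).ne_zero p1) k2 k4 (by
        rintro _ rfl
        exact ⟨a, ha, by simp, h1, k3, u, u1, hu⟩))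
  exact ⟨M, G, g, m, q1, by rw [hG, mul_comm], q2⟩

end

theorem p_GEO (hJDIV : S_JDIV) (hJFIN : S_JFIN) (hLZ : S_LZ) (hARITH : S_ARITH) (hDICH : S_DICH) (hINVAPP : S_INVAPP) (hLOCC : S_LOCC) (hCERT : S_CERT) :
    S_GEO := by
  intro K F k Fb _ _ _ _ _ _ _ _ _ _ _ j act h f x Ω P F0 F1 M0 hb hP hne hq
  have : CharZero k := charZero_of_injective_algebraMap (algebraMap K k).injective
  have htr : ∃ t : Fb, Transcendental k t := h.tr.elim fun t ht => ⟨_, ht⟩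
  have : Nonempty Ω := hne.to_subtype
  obtain ⟨R, R1, R2⟩ := hJFIN k Fb htr
  have h0 : ∀ s : Ω × Ω, ∃ z : Fb, s.1 ≠ s.2 → OddAt k z {s.1.1, s.2.1} := fun s => by
    by_cases e : s.1 = s.2
    · exact ⟨1, fun e' => absurd e e'⟩
    · exact (hJDIV k Fb htr {s.1.1, s.2.1} (by
        rw [Finset.card_pair fun e' => e (Subtype.ext e')]; exact even_two)).imp fun _ a _ => a
  choose γ0 hγ0 using h0
  obtain ⟨L0, l1, l2, l3, l4⟩ := hLZ K F k Fb j act h (Set.range fun c : Ω => ev c.1 (j x))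
    (R ∪ Set.range γ0) (Set.finite_range _) (R.finite_toSet.union (Set.finite_range _))
  obtain ⟨Γ, _, _, A, _, _, _, _, E, s, a0, i, θ, fix, fr, lb, G, ar, tw⟩ :=
    hARITH K k Ω L0 (fun c => ev c.1 (j x)) P F0 F1 M0 hP (fun c => l3 _ ⟨c, rfl⟩)
      (by rw [← Polynomial.map_map, hb.pol, Finset.prod_coe_sort Ω fun c => X - C (ev c (j x))])
      fun a ha => (hq a a.2 ha).elim fun b hb => ⟨⟨b, hb.1⟩, hb.2⟩
  have hs : ∀ σ, ∀ t ∈ E σ, s σ t = t := fun σ =>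
    (IntermediateField.mem_fixingSubgroup_iff _ _).1 (ar.mem σ)
  have hfx : ∀ σ, ∀ c ∈ fix σ, ∀ τ ∈ (E σ).fixingSubgroup, (h.sa τ).pl c.1 = c.1 :=
    fun σ c hc => geo_fix h.toCE hb c.2 ((ar.fix_iff σ c).1 hc)
  have h1 : ∀ σ (p : Ω × Ω), ∃ g : Fb, Fx act (E σ) g ∧ Ev2 k g ∧ (∀ c ∈ Ω, c.v g = 1) ∧
      (E σ = L0 → g = 1) ∧ (p.1 ∈ fix σ → p.2 ∈ fix σ → p.1 ≠ p.2 →
        (∃ γ', Fx act (E σ) γ' ∧ OddAt k γ' {p.1.1, p.2.1}) ∨
          ∃ r ∈ L0, r * r = ev p.1.1 g * ev p.2.1 g ∧ s σ r = -r) := fun σ p => by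
    have one : Fx act (E σ) 1 ∧ Ev2 k (1 : Fb) ∧ ∀ c ∈ Ω, c.v (1 : Fb) = 1 :=
      ⟨fun _ _ => map_one _, ⟨one_ne_zero, fun _ => by simp⟩, fun _ _ => map_one _⟩
    by_cases e : p.1 ∈ fix σ ∧ p.2 ∈ fix σ ∧ p.1 ≠ p.2
    · rcases hDICH K F k Fb j act h L0 (E σ) (s σ) R Ω p.1 p.2 (γ0 p) _
        (fun r hr => ⟨R1 r hr, l4 r (.inl hr)⟩) R2 (ar.le σ) (ar.mem σ) (ar.gen σ)
        (geo_stab h.toCE hb) p.1.2 p.2.2 (fun e' => e.2.2 (Subtype.ext e'))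
        (fun τ hτ => ⟨hfx σ _ e.1 τ hτ, hfx σ _ e.2.1 τ hτ⟩) (hγ0 p e.2.2) (l4 _ (.inr ⟨p, rfl⟩))
        (hb.unif _ p.1.2) (geo_pi h.toCE ((ar.fix_iff σ _).1 e.1)) with
        d | ⟨g, r, g1, g2, g3, r1, r2, r3⟩
      · exact ⟨1, one.1, one.2.1, one.2.2, fun _ => rfl, fun _ _ _ => .inl d⟩
      · refine ⟨g, g1, g2, g3, fun e' => ?_, fun _ _ _ => .inr ⟨r, r1, r2, r3⟩⟩
        rw [hs σ r (e' ▸ r1), self_eq_neg] at r3
        rw [r3, mul_zero] at r2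
        exact absurd r2.symm (mul_ne_zero (ev_ne_zero (g3 _ p.1.2)) (ev_ne_zero (g3 _ p.2.2)))
    · exact ⟨1, one.1, one.2.1, one.2.2, fun _ => rfl, fun a b c => absurd ⟨a, b, c⟩ e⟩
  choose g g1 g2 g3 g4 g5 using h1
  have h2 : ∀ σ p (c : Ω), ∃ n : A σ, (g σ p = 1 → n = 1) ∧
      (c ∈ fix σ → ∃ t ∈ E σ, t ≠ 0 ∧ a0 σ n = t * t * ev c.1 (g σ p)) := fun σ p c => by
    by_cases e : g σ p = 1
    · exact ⟨1, fun _ => rfl, fun _ => ⟨1, one_mem _, one_ne_zero, by simp [e]⟩⟩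
    by_cases e' : c ∈ fix σ
    · exact (geo_int (ar.ord σ) (geo_ev h.toCE (hfx σ c e') (g1 σ p))).imp fun _ a =>
        ⟨fun b => absurd b e, fun _ => a⟩
    · exact ⟨1, fun _ => rfl, fun a => absurd a e'⟩
  choose n n1 n2 using h2
  choose Mu γ u1 u2 using fun σ p => geo_unr hLOCC hCERT h hb hP (ar.ord σ) (g1 σ p) (g2 σ p)
    (g3 σ p) (fix σ) (θ σ) (n σ p) (ar.val σ) (n2 σ p)
  have h3 : ∀ σ (p : Ω × Ω), ∃ M : ℕ, M ≠ 0 ∧ (p.1 ∈ fix σ → p.2 ∈ fix σ → p.1 ≠ p.2 →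
      (∃ γ', Fx act (E σ) γ' ∧ OddAt k γ' {p.1.1, p.2.1}) →
      ∃ (G : (A σ)[X]) (g : F ⊗[ℤ] A σ) (m : A σ),
        G * ((X - C (θ σ p.1)) * (X - C (θ σ p.2))) = F0.map (i σ) ∧
        Cert ((algebraMap K F).comp (algebraMap (𝓞 K) K)) f x F0 F1 M (i σ) G g {(θ σ p.1, m)}) :=
    fun σ p => by
      by_cases e : p.1 ∈ fix σ ∧ p.2 ∈ fix σ ∧ p.1 ≠ p.2 ∧
        ∃ γ', Fx act (E σ) γ' ∧ OddAt k γ' {p.1.1, p.2.1}
      · obtain ⟨e1, e2, e3, γ', e4, e5⟩ := e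
        obtain ⟨M, G, g, m, q1, q2⟩ := geo_pair hINVAPP hLOCC hCERT h hb hP (ar.ord σ) p.1.2 p.2.2
          (fun e' => e3 (Subtype.ext e')) (ar.val σ _ e1) (ar.val σ _ e2) e4 e5
        exact ⟨M, q1, fun _ _ _ _ => ⟨G, g, m, q2⟩⟩
      · exact ⟨1, one_ne_zero, fun a b c d => absurd ⟨a, b, c, d⟩ e⟩
  choose Mp p1 p2 using h3
  refine ⟨Γ, Ω × Ω, inferInstance, inferInstance, A, inferInstance, inferInstance, inferInstance,
    inferInstance, i, θ, fix, fr, lb, G, γ, n, M0 * ∏ σ, ∏ p, (Mu σ p * Mp σ p),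
    mul_ne_zero hP.M0 (Finset.prod_ne_zero_iff.2 fun σ _ => Finset.prod_ne_zero_iff.2 fun p _ =>
      mul_ne_zero (u1 σ p) (p1 σ p)), fun M m0 hM => ?_⟩
  have d0 : M0 ∣ M := (dvd_mul_right _ _).trans hM
  have d1 : ∀ σ p, Mu σ p * Mp σ p ∣ M := fun σ p =>
    ((Finset.dvd_prod_of_mem (fun p => Mu σ p * Mp σ p) (Finset.mem_univ p)).trans
      (Finset.dvd_prod_of_mem (fun σ => ∏ p, (Mu σ p * Mp σ p)) (Finset.mem_univ σ))).trans
      ((dvd_mul_left _ _).trans hM)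
  have un := fun σ p => (u2 σ p).mono ((dvd_mul_right _ _).trans (d1 σ p))
  refine ⟨tw M m0 d0, ⟨un, fun z hz a ha b hb' hab hs' => ?_,
    geo_dns (ar.split M m0) fun p ⟨q1, q2, z, q3, q4⟩ => ⟨q1, q2, z, q3,
      Finset.eq_univ_of_forall fun c => (ar.fix_iff _ c).2 (q4 ▸ l3 _ ⟨c, rfl⟩),
      fun p c => n1 _ p c (g4 _ p q4)⟩⟩, (un (Classical.arbitrary _) (Classical.arbitrary _)).cert0⟩
  rcases g5 _ (a, b) ha hb' hab with d | ⟨r, r1, r2, r3⟩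
  · obtain ⟨G, g, m, q1, q2⟩ := p2 _ (a, b) ha hb' hab d
    exact ⟨G, g, m, q1, q2.mono ((dvd_mul_left _ _).trans (d1 _ _))⟩
  · obtain ⟨ta, a1, -, a2⟩ := n2 _ (a, b) a ha
    obtain ⟨tb, b1, -, b2⟩ := n2 _ (a, b) b hb'
    have : Fact z.1.1.Prime := ⟨z.1.2⟩
    refine absurd ?_ (ar.sign z (fun e => hz (e ▸ hP.two.trans d0))
      (n _ (a, b) a * n _ (a, b) b) (ta * tb * r)
      (mul_mem (mul_mem (ar.le _ a1) (ar.le _ b1)) r1) ?_ ?_)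
    · rw [← hs' (a, b), chi_eq, chi_eq, chi_eq, map_mul, map_mul]
    · rw [map_mul, a2, b2]
      linear_combination (-ta * ta * tb * tb) * r2
    · rw [map_mul, map_mul, hs _ _ a1, hs _ _ b1, r3, mul_neg]

end Pool.Agent.P.MP_ab3ecb_nt.Inv
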