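import Pool.Agent.P.MP_ab3ecb_nt.Inv.G.Iface
import Pool.Agent.P.MP_ab3ecb_nt.Inv.J.Iface

/-! Step INVAPP of the twist project. -/

namespace Pool.Agent.P.MP_ab3ecb_nt.Inv

open WithZero Polynomial Module TensorProduct NumberField
open Pool.Agent.P.MP_6f117a_ag (Place FF Model Reg)
open scoped IntermediateField Classical

lemma invapp_avoid {k E ι : Type} [Field k] [CharZero k] [AddCommGroup E] [Module k E]
    (A : AddSubmonoid E) (W : ι → Submodule k E) (T : Finset ι)
    (h : ∀ i ∈ T, ∃ s ∈ A, s ∉ W i) : ∃ t ∈ A, ∀ i ∈ T, t ∉ W i := by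
  induction T using Finset.induction_on with
  | empty => exact ⟨0, A.zero_mem, by simp⟩
  | insert a T _ ih =>
    obtain ⟨t, ht, h1⟩ := ih fun i hi => h i (Finset.mem_insert_of_mem hi)
    obtain ⟨s, hs, h2⟩ := h a (Finset.mem_insert_self _ _)
    have h3 : ∀ i ∈ insert a T, {m : ℕ | t + m • s ∈ W i}.Subsingleton := by
      intro i hi m hm m' hm'
      by_contra e
      have h4 : ((m : k) - m') • s ∈ W i := by
        have := (W i).sub_mem hm hm'
        rwa [add_sub_add_left_eq_sub, ← Nat.cast_smul_eq_nsmul k, ← Nat.cast_smul_eq_nsmul k,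
          ← sub_smul] at this
      have h5 : s ∈ W i := ((W i).smul_mem_iff (sub_ne_zero.2 (Nat.cast_injective.ne e))).1 h4
      rcases Finset.mem_insert.1 hi with rfl | hi
      · exact h2 h5
      · exact h1 i hi (by simpa using (W i).sub_mem hm (nsmul_mem h5 m))
    obtain ⟨m, -, hm⟩ := Set.infinite_univ.exists_notMem_finite
      ((insert a T).finite_toSet.biUnion fun i hi => (h3 i hi).finite)
    exact ⟨_, A.add_mem ht (nsmul_mem hs m), fun i hi e => hm (Set.mem_biUnion hi e)⟩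

theorem p_INVAPP (hDESC : S_DESC) (hWA : S_WA) :
    S_INVAPP := by
  intro K F k Fb _ _ _ _ _ _ _ _ _ _ _ j act h E0 S n hS
  have : CharZero k := charZero_of_injective_algebraMap (algebraMap K k).injective
  obtain ⟨x, hx⟩ := h.tr
  obtain ⟨z, z0, hz⟩ := (hWA k Fb ⟨_, hx⟩).2 S n
  let V : Submodule k Fb := ⨅ P ∈ S, P.le (-n P)
  have hV : ∀ y, y ∈ V ↔ ∀ P ∈ S, P.v y ≤ exp (-n P) := fun y => by
    simp only [V, Submodule.mem_iInf]
    rfl
  have h1 := (hDESC K F k Fb j act h.toCE E0.fixingSubgroup V (h.top ▸ le_top) fun τ hτ y hy =>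
    (hV _).2 fun P hP => by
      obtain ⟨a, b⟩ := hS τ⁻¹ (inv_mem hτ) P hP
      have := (hV y).1 hy _ a
      rwa [b, SA.pl_v', h.sa_s, map_inv] at this).1
  let A : AddSubmonoid Fb :=
    { carrier := {y | y ∈ V ∧ Fx act E0 y}
      zero_mem' := ⟨V.zero_mem, fun τ _ => map_zero _⟩
      add_mem' := fun a b => ⟨V.add_mem a.1 b.1, fun τ hτ => by rw [map_add, a.2 τ hτ, b.2 τ hτ]⟩ }
  have h2 : ∀ y ∈ Sp j (IntermediateField.fixedField E0.fixingSubgroup), Fx act E0 y := by
    intro y hy τ hτ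
    induction hy using AddSubmonoid.closure_induction with
    | mem y hy =>
      obtain ⟨c, hc, w, rfl⟩ := hy
      rw [map_mul, h.semi, h.fixF, (IntermediateField.mem_fixedField_iff _ _).1 hc τ hτ]
    | zero => exact map_zero _
    | add a b _ _ ha hb => rw [map_add, ha, hb]
  obtain ⟨t, ht, h3⟩ := invapp_avoid A (fun P : Place k Fb => P.le (-n P - 1)) S fun P hP => by
    by_contra! e
    have h4 : z ∈ P.le (-n P - 1) := (h1.trans (Submodule.span_le.2 fun y hy =>
      e y ⟨hy.1, h2 y hy.2⟩)) ((hV z).2 fun Q hQ => (le_exp_iff z0).2 (by rw [hz Q hQ, neg_neg]))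
    have := (le_exp_iff z0).1 h4
    rw [hz P hP] at this
    omega
  rcases S.eq_empty_or_nonempty with rfl | ⟨P, hP⟩
  · exact ⟨1, one_ne_zero, fun τ _ => map_one _, by simp⟩
  have t0 : t ≠ 0 := fun e => h3 P hP (e ▸ Submodule.zero_mem _)
  refine ⟨t, t0, ht.2, fun Q hQ => ?_⟩
  have h4 := (le_exp_iff t0).1 ((hV t).1 ht.1 Q hQ)
  have h5 := mt (le_exp_iff t0).2 (h3 Q hQ)
  omega

end Pool.Agent.P.MP_ab3ecb_nt.Inv
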