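import Pool.Agent.P.MP_ab3ecb_nt.Inv.G.Iface
import Pool.Agent.P.MP_ab3ecb_nt.Inv.J.Iface

/-! Step KPT of the twist project. -/

namespace Pool.Agent.P.MP_ab3ecb_nt.Inv

open WithZero Polynomial Module TensorProduct NumberField
open Pool.Agent.P.MP_6f117a_ag (Place FF Model Reg)
open scoped IntermediateField Classical

section

variable {K F k Fb : Type} [Field K] [Field F] [Algebra K F] [Field k] [IsAlgClosed k]
  [Algebra K k] [Field Fb] [Algebra k Fb] [FF k Fb] {j : F →+* Fb}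
  {act : (k ≃ₐ[K] k) →* RingAut Fb}

omit [IsAlgClosed k] [FF k Fb] in
lemma kpt_unit {P : Place k Fb} {W : ValuationSubring F} (h : Over j P W) (u : W) :
    IsUnit u ↔ P.v (j u) = 1 := by
  constructor
  · intro hu
    obtain ⟨w, hw⟩ := hu.exists_right_inv
    have h1 : P.v (j u) * P.v (j w) = 1 := by
      rw [← map_mul, ← map_mul, ← W.coe_mul, hw]
      simp
    refine le_antisymm ((h _).1 u.2) ?_
    rw [← h1]
    exact mul_le_of_le_one_right' ((h _).1 w.2)
  · intro hu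
    have h0 : (u : F) ≠ 0 := fun e => by simp [e] at hu
    exact IsUnit.of_mul_eq_one ⟨(u : F)⁻¹, (h _).2 (by simp [hu])⟩
      (Subtype.ext (mul_inv_cancel₀ h0))

/-- the point attached to a place over a valuation ring -/
noncomputable def kpt_pt (h : CE j act) (P : Place k Fb) (W : ValuationSubring F)
    (hW : Over j P W) : KPt (algebraMap K F) (algebraMap K k) where
  O := W
  φ := evHom P (j.comp W.subtype) fun w => (hW _).1 w.2
  loc := ⟨fun w hw => (kpt_unit hW w).2 (le_antisymm ((hW _).1 w.2) (not_lt.1 fun e =>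
    hw.ne_zero (ev_of_lt e)))⟩
  mem c := (hW _).2 (by rw [h.comm]; exact P.triv _)
  comm c := by
    change ev P (j (algebraMap K F c)) = _
    rw [h.comm, ev_const]

omit [IsAlgClosed k] [FF k Fb] in
lemma kpt_over (j : F →+* Fb) (P : Place k Fb) : Over j P (P.v.comap j).valuationSubring :=
  fun _ => Iff.rfl

omit [IsAlgClosed k] [FF k Fb] in
lemma kpt_over_pl (h : CE j act) {P : Place k Fb} {W : ValuationSubring F} (hW : Over j P W)
    (τ : k ≃ₐ[K] k) : Over j ((h.sa τ).pl P) W := fun w => by rw [h.v_pl]; exact hW w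

omit [IsAlgClosed k] [FF k Fb] in
lemma kpt_branch {P : Place k Fb} {W : ValuationSubring F} (hW : Over j P W) {t f : F}
    (ht : ord P (j t) = 1) (hf : j f ≠ 0) : Branch f W ↔ Odd (ord P (j f)) := by
  have ht0 : j t ≠ 0 := ne_zero_of_ord (by rw [ht]; exact one_ne_zero)
  rw [← Int.not_even_iff_odd, Branch, not_iff_not]
  constructor
  · rintro ⟨u, hu, r, hr⟩
    have h1 := (kpt_unit hW u).1 hu
    have h2 := ne_zero_of_v_one h1
    have h3 : j f * j u = j r * j r := by rw [← map_mul, hr, map_mul]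
    have h4 : j r ≠ 0 := fun e => mul_ne_zero hf h2 (by rw [h3, e, mul_zero])
    have h5 := congrArg (ord P) h3
    rw [ord_mul P hf h2, ord_mul P h4 h4, (eq_one_iff h2).1 h1, add_zero] at h5
    exact ⟨_, h5⟩
  · rintro ⟨m, hm⟩
    have hf0 : f ≠ 0 := fun e => hf (by rw [e, map_zero])
    have h1 : P.v (j (t ^ m * t ^ m / f)) = 1 := by
      have h2 := zpow_ne_zero m ht0
      rw [map_div₀, map_mul, map_zpow₀, eq_one_iff (div_ne_zero (mul_ne_zero h2 h2) hf),
        ord_div P (mul_ne_zero h2 h2) hf, ord_mul P h2 h2, ord_zpow, ht, hm]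
      ring
    exact ⟨⟨_, (hW _).2 h1.le⟩, (kpt_unit hW _).2 h1, t ^ m, mul_div_cancel₀ _ hf0⟩

variable [IsGalois K k]

omit [IsAlgClosed k] [FF k Fb] in
lemma kpt_ne_top (h : GS j act) (Q : KPt (algebraMap K F) (algebraMap K k)) : Q.O ≠ ⊤ := by
  intro e
  obtain ⟨t, ht⟩ := h.tr
  let Φ : F →ₐ[K] k :=
    { Q.φ.comp ((RingHom.id F).codRestrict Q.O fun x => by rw [e]; trivial) with
      commutes' := Q.comm }
  obtain ⟨p, hp, h1⟩ := (isAlgebraic_algHom_iff Φ Φ.injective).1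
    (Algebra.IsAlgebraic.isAlgebraic (Φ t))
  refine ht ⟨p.map (algebraMap K k), Polynomial.map_ne_zero hp, ?_⟩
  rw [← map_aeval_eq_aeval_map (φ := algebraMap K k) (ψ := j) (RingHom.ext fun c =>
    (h.comm c).symm), h1, map_zero]

/-- two points with the same local ring are conjugate -/
lemma kpt_conj (W : ValuationSubring F) (hW : ∀ c, algebraMap K F c ∈ W) (φ ψ : W →+* k)
    (_ : IsLocalHom φ) (_ : IsLocalHom ψ) (h1 : ∀ c, φ ⟨_, hW c⟩ = algebraMap K k c)
    (h2 : ∀ c, ψ ⟨_, hW c⟩ = algebraMap K k c) : ∃ τ : k ≃ₐ[K] k, ∀ w, τ (φ w) = ψ w := by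
  let _ : Algebra K (IsLocalRing.ResidueField W) :=
    ((IsLocalRing.residue W).comp ((algebraMap K F).codRestrict W hW)).toAlgebra
  let _ : Algebra (IsLocalRing.ResidueField W) k := (IsLocalRing.ResidueField.lift φ).toAlgebra
  have : IsScalarTower K (IsLocalRing.ResidueField W) k :=
    .of_algebraMap_eq fun c => (h1 c).symm
  have : Algebra.IsAlgebraic (IsLocalRing.ResidueField W) k := .tower_top (K := K) _
  obtain ⟨τ, hτ⟩ := IsAlgClosed.surjective_domRestrict_of_isAlgebraic (K := K)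
    (L := IsLocalRing.ResidueField W) (M := k) (E := k)
    { IsLocalRing.ResidueField.lift ψ with commutes' := h2 }
  exact ⟨AlgEquiv.ofBijective τ (Algebra.IsAlgebraic.algHom_bijective τ),
    fun w => DFunLike.congr_fun hτ (IsLocalRing.residue W w)⟩

lemma kpt_range (h : CE j act) {f x : F} {Ω : Finset (Place k Fb)} {P0 : K[X]}
    (hb : BD j f x Ω P0) {c : Place k Fb} (hc : c ∈ Ω) {W : ValuationSubring F}
    (hW : Over j c W) : Set.range (kpt_pt h c W hW).φ = K⟮ev c (j x)⟯ := by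
  refine Set.Subset.antisymm ?_ fun z hz => ?_
  · rintro _ ⟨w, rfl⟩
    rw [← InfiniteGalois.fixedField_fixingSubgroup K⟮ev c (j x)⟯]
    rintro ⟨τ, hτ⟩
    have h1 : (h.sa τ).pl c ∈ Ω := (hb.odd.2 _).1 (by rw [h.ord_pl]; exact (hb.odd.2 c).2 hc)
    have h2 := hb.inj _ h1 c hc (by
      rw [h.ev_pl]
      exact hτ ⟨_, IntermediateField.mem_adjoin_simple_self K _⟩)
    change τ (ev c (j w)) = ev c (j w)
    rw [← h.ev_pl, h2]
  · have h1 : z ∈ K⟮ev c (j x)⟯.toSubalgebra := hz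
    rw [IntermediateField.adjoin_simple_toSubalgebra_of_isAlgebraic
      (Algebra.IsAlgebraic.isAlgebraic _)] at h1
    let S : Subalgebra K k :=
      { (kpt_pt h c W hW).φ.range.toSubsemiring with
        algebraMap_mem' := fun a => ⟨_, (kpt_pt h c W hW).comm a⟩ }
    exact Algebra.adjoin_le (S := S)
      (Set.singleton_subset_iff.2 ⟨⟨x, (hW x).2 (hb.reg c hc)⟩, rfl⟩) h1

end

theorem p_KPT (hOVER : S_OVER) (hINVAPP : S_INVAPP) (hFIXE : S_FIXE) :
    S_KPT := by
  intro K F k Fb _ _ _ _ _ _ _ _ _ _ _ j act h f x Ω P0 hb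
  have hbr : ∀ (P : Place k Fb) (W : ValuationSubring F), Over j P W → (Branch f W ↔ P ∈ Ω) := by
    intro P W hW
    obtain ⟨t, -, h1, h2⟩ := hINVAPP K F k Fb j act h ⊥
      (hOVER K F k Fb j act h W (kpt_pt h.toCE P W hW).mem).1.toFinset (fun _ => 1)
      fun τ _ P' hP' => ⟨(Set.Finite.mem_toFinset _).2
        (kpt_over_pl h.toCE ((Set.Finite.mem_toFinset _).1 hP') τ), rfl⟩
    obtain ⟨t, rfl⟩ := hFIXE K F k Fb j act h.toCE
      (fun c hc => (InfiniteGalois.mem_range_algebraMap_iff_fixed c).2 hc) t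
      fun τ => h1 τ (by simp)
    rw [kpt_branch hW (h2 P ((Set.Finite.mem_toFinset _).2 hW)) hb.odd.1, hb.odd.2]
  have hall : ∀ Q : KPt (algebraMap K F) (algebraMap K k),
      ∃ (P : Place k Fb) (hW : Over j P Q.O), Q = kpt_pt h.toCE P Q.O hW := by
    intro Q
    obtain ⟨P, hP⟩ := (hOVER K F k Fb j act h Q.O Q.mem).2.1.1 (kpt_ne_top h Q)
    obtain ⟨τ, hτ⟩ := kpt_conj Q.O Q.mem (kpt_pt h.toCE P Q.O hP).φ Q.φ
      (kpt_pt h.toCE P Q.O hP).loc Q.loc (kpt_pt h.toCE P Q.O hP).comm Q.comm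
    refine ⟨_, kpt_over_pl h.toCE hP τ, ?_⟩
    obtain ⟨⟨O, φ, l⟩, m, c⟩ := Q
    change Over j P O at hP
    have e : φ = (kpt_pt h.toCE _ O (kpt_over_pl h.toCE hP τ)).φ :=
      RingHom.ext fun w => (hτ w).symm.trans (h.toCE.ev_pl τ P w).symm
    subst e
    rfl
  refine ⟨?_, fun c hc => ⟨kpt_pt h.toCE c _ (kpt_over j c), (hbr c _ (kpt_over j c)).2 hc,
    kpt_range h.toCE hb hc _⟩, fun Q hQ => ?_, fun L _ ρ t ht => ?_⟩
  · rw [← Set.ncard_coe_finset]
    refine le_trans (Set.ncard_le_ncard (fun Q hQ => ?_) (Ω.finite_toSet.image _))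
      (Set.ncard_image_le (f := fun c => kpt_pt h.toCE c _ (kpt_over j c)) Ω.finite_toSet)
    obtain ⟨P, hP, e⟩ := hall Q
    refine ⟨P, (hbr P _ hP).1 hQ, ?_⟩
    have e1 : (P.v.comap j).valuationSubring = Q.O := ValuationSubring.ext _ _ fun w => (hP w).symm
    refine Eq.trans ?_ e.symm
    generalize Q.O = W at hP e1
    subst e1
    rfl
  · obtain ⟨P, hP, e⟩ := hall Q
    exact ⟨P, (hbr P _ hP).1 hQ, e ▸ kpt_range h.toCE hb ((hbr P _ hP).1 hQ) hP⟩
  · let _ : Algebra K L := ρ.toAlgebra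
    have h0 : P0 ≠ 0 := fun e => (monic_prod_X_sub_C (fun c => ev c (j x)) Ω).ne_zero
      (by rw [← hb.pol, e, Polynomial.map_zero])
    have h1 : IsIntegral K t := IsAlgebraic.isIntegral ⟨P0, h0, ht⟩
    obtain ⟨θ, hθ⟩ := IsAlgClosed.exists_aeval_eq_zero k (minpoly K t) (minpoly.degree_pos h1).ne'
    have h2 : aeval θ P0 = 0 := aeval_eq_zero_of_dvd_aeval_eq_zero (minpoly.dvd K t ht) hθ
    rw [← eval_map_algebraMap, hb.pol, eval_prod, Finset.prod_eq_zero_iff] at h2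
    obtain ⟨c, hc, h2⟩ := h2
    obtain rfl : θ = ev c (j x) := by simpa [sub_eq_zero] using h2
    have h3 : IsIntegral K (ev c (j x)) := Algebra.IsIntegral.isIntegral _
    have h4 := minpoly.eq_of_irreducible_of_monic (minpoly.irreducible h1) hθ (minpoly.monic h1)
    let σ : K⟮ev c (j x)⟯ →ₐ[K] L := (IntermediateField.adjoin.powerBasis h3).lift t (by
      rw [IntermediateField.adjoin.powerBasis_gen, IntermediateField.minpoly_gen, ← h4]
      exact minpoly.aeval K t)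
    let Q := kpt_pt h.toCE c _ (kpt_over j c)
    have h5 : ∀ w, Q.φ w ∈ K⟮ev c (j x)⟯ := fun w =>
      (kpt_range h.toCE hb hc (kpt_over j c)).subset ⟨w, rfl⟩
    refine ⟨⟨⟨Q.O, (σ : K⟮ev c (j x)⟯ →+* L).comp (Q.φ.codRestrict _ h5), ⟨fun w hw => ?_⟩⟩,
      Q.mem, fun a => ?_⟩, (hbr c _ (kpt_over j c)).2 hc⟩
    · refine Q.loc.1 w (Ne.isUnit fun e => hw.ne_zero ?_)
      exact (congrArg σ (Subtype.ext e)).trans (map_zero σ)
    · exact (congrArg σ (Subtype.ext (Q.comm a))).trans (σ.commutes a)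

end Pool.Agent.P.MP_ab3ecb_nt.Inv
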