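import Pool.Agent.P.MP_ab3ecb_nt.Inv.G.Iface
import Pool.Agent.P.MP_ab3ecb_nt.Inv.J.Iface

/-! Step LOCC of the twist project. -/

namespace Pool.Agent.P.MP_ab3ecb_nt.Inv

open WithZero Polynomial Module TensorProduct NumberField
open Pool.Agent.P.MP_6f117a_ag (Place FF Model Reg)
open scoped IntermediateField Classical

set_option linter.unusedSectionVars false

section aux

variable {K F k Fb : Type} [Field K] [Field F] [Algebra K F] [Field k] [IsAlgClosed k]
  [Algebra K k] [Field Fb] [Algebra k Fb] [FF k Fb] {j : F →+* Fb}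
  {act : (k ≃ₐ[K] k) →* RingAut Fb}

lemma locc_unit {W : ValuationSubring F} (hW : W ≠ ⊤ ↔ ∃ P : Place k Fb, Over j P W) {w : F}
    (h0 : w ≠ 0) (h : ∀ P : Place k Fb, Over j P W → P.v (j w) = 1) : W.valuation w = 1 := by
  have key : w ∈ W ∧ w⁻¹ ∈ W := by
    by_cases ht : W = ⊤
    · rw [ht]
      exact ⟨ValuationSubring.mem_top _, ValuationSubring.mem_top _⟩
    · obtain ⟨P, hP⟩ := hW.1 ht
      exact ⟨(hP w).2 (h P hP).le, (hP _).2 (by rw [map_inv₀, map_inv₀, h P hP, inv_one])⟩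
  have h1 := (W.valuation_le_one_iff _).2 key.1
  have h2 := (W.valuation_le_one_iff _).2 key.2
  rw [map_inv₀] at h2
  exact le_antisymm h1 ((inv_le_one₀ (zero_lt_iff.2 ((_root_.map_ne_zero _).2 h0))).1 h2)

lemma locc_poly (P : Place k Fb) {y : Fb} (hy : P.v y ≤ 1) (q : k[X]) :
    P.v (q.eval₂ (algebraMap k Fb) y) ≤ 1 ∧
      ev P (q.eval₂ (algebraMap k Fb) y) = q.eval (ev P y) := by
  induction q using Polynomial.induction_on' with
  | add p q hp hq =>
    rw [eval₂_add, eval_add, ev_add hp.1 hq.1, hp.2, hq.2]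
    exact ⟨P.v.map_add_le hp.1 hq.1, rfl⟩
  | monomial n a =>
    have h1 : P.v (y ^ n) ≤ 1 := by
      rw [map_pow]
      exact pow_le_one' hy n
    rw [eval₂_monomial, eval_monomial, ev_mul (P.triv a) h1, ev_const, ev_pow hy]
    refine ⟨?_, rfl⟩
    rw [map_mul]
    exact mul_le_one' (P.triv a) h1

variable {f x : F} {Ω : Finset (Place k Fb)} {P0 : K[X]}

lemma locc_ne (hB : BD j f x Ω P0) {c : Place k Fb} (hc : c ∈ Ω) :
    j x - algebraMap k Fb (ev c (j x)) ≠ 0 :=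
  ne_zero_of_ord (P := c) (by rw [hB.unif c hc]; exact one_ne_zero)

lemma locc_one (hB : BD j f x Ω P0) {c P : Place k Fb} (hc : c ∈ Ω) (hP : P ∈ Ω) (hne : c ≠ P) :
    P.v (j x - algebraMap k Fb (ev c (j x))) = 1 := by
  have h1 : P.v (j x - algebraMap k Fb (ev c (j x))) ≤ 1 :=
    P.v.map_sub_le (hB.reg P hP) (P.triv _)
  refine le_antisymm h1 (not_lt.1 fun h => hne ?_)
  exact hB.inj c hc P hP (ev_eq h).symm

lemma locc_prod (hB : BD j f x Ω P0) {T : Finset (Place k Fb)} (hT : T ⊆ Ω) :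
    (∏ c ∈ T, (j x - algebraMap k Fb (ev c (j x)))) ≠ 0 ∧ ∀ P ∈ Ω,
      ord P (∏ c ∈ T, (j x - algebraMap k Fb (ev c (j x)))) = if P ∈ T then 1 else 0 := by
  refine ⟨Finset.prod_ne_zero_iff.2 fun c hc => locc_ne hB (hT hc), fun P hP => ?_⟩
  rw [ord_prod P T fun c hc => locc_ne hB (hT hc), ← Finset.sum_ite_eq' T P fun _ => (1 : ℤ)]
  refine Finset.sum_congr rfl fun c hc => ?_
  split_ifs with h
  · rw [← h]
    exact hB.unif c (hT hc)
  · exact (eq_one_iff (locc_ne hB (hT hc))).1 (locc_one hB (hT hc) hP h)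

lemma locc_eval (T : Finset (Place k Fb)) (θ : Place k Fb → k) (y : Fb) :
    (∏ c ∈ T, (X - C (θ c))).eval₂ (algebraMap k Fb) y = ∏ c ∈ T, (y - algebraMap k Fb (θ c)) := by
  rw [eval₂_finsetProd]
  simp

lemma locc_over (h : GS j act) {W : ValuationSubring F} (τ : k ≃ₐ[K] k) {P : Place k Fb}
    (hP : Over j P W) : Over j ((h.sa τ).pl P) W := fun w => by
  rw [h.v_pl]
  exact hP w

variable [CharZero K] [IsGalois K k]

lemma locc_half (hI : S_INVAPP) (h : GS j act) (E0 : IntermediateField K k)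
    {W : ValuationSubring F} (hfin : {P : Place k Fb | Over j P W}.Finite) {g : Fb} (h0 : g ≠ 0)
    (hg : Fx act E0 g) (he : ∀ P : Place k Fb, Over j P W → Even (ord P g)) :
    ∃ s, s ≠ 0 ∧ Fx act E0 s ∧ ∀ P : Place k Fb, Over j P W → P.v (s * s / g) = 1 := by
  obtain ⟨s, s0, hs, ho⟩ := hI K F k Fb j act h E0 hfin.toFinset (fun P => ord P g / 2)
    fun τ hτ P hP => ⟨hfin.mem_toFinset.2 (locc_over h τ (hfin.mem_toFinset.1 hP)), by
      have := (h.sa τ).ord_pl P g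
      rw [h.sa_s, hg τ hτ] at this
      simp only [this]⟩
  refine ⟨s, s0, hs, fun P hP => ?_⟩
  rw [eq_one_iff (div_ne_zero (mul_ne_zero s0 s0) h0), ord_div P (mul_ne_zero s0 s0) h0,
    ord_mul P s0 s0, ho P (hfin.mem_toFinset.2 hP)]
  obtain ⟨n, hn⟩ := he P hP
  omega

lemma locc_halfF (hI : S_INVAPP) (hX : S_FIXE) (h : GS j act) {W : ValuationSubring F}
    (hfin : {P : Place k Fb | Over j P W}.Finite)
    (hW : W ≠ ⊤ ↔ ∃ P : Place k Fb, Over j P W) {g : F} (h0 : g ≠ 0)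
    (he : ∀ P : Place k Fb, Over j P W → Even (ord P (j g))) :
    ∃ w : W, IsUnit w ∧ IsSquare (g * w) := by
  obtain ⟨s, s0, hs, ho⟩ := locc_half hI h ⊥ hfin ((map_ne_zero j).2 h0)
    (fun τ _ => h.fixF τ g) he
  obtain ⟨t, rfl⟩ := hX K F k Fb j act h.toCE
    (fun c hc => (InfiniteGalois.mem_range_algebraMap_iff_fixed c).2 hc) s
    fun τ => hs τ (by simp)
  have t0 : t ≠ 0 := (map_ne_zero j).1 s0
  have h1 : W.valuation (t * t / g) = 1 :=
    locc_unit hW (div_ne_zero (mul_ne_zero t0 t0) h0) fun P hP => by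
      rw [map_div₀, map_mul]
      exact ho P hP
  refine ⟨⟨t * t / g, (W.valuation_le_one_iff _).1 h1.le⟩,
    (W.valuation_eq_one_iff _).2 h1, t, ?_⟩
  exact mul_div_cancel₀ _ h0

end aux

theorem p_LOCC (hOVER : S_OVER) (hINVAPP : S_INVAPP) (hFIXE : S_FIXE) :
    S_LOCC := by
  intro K F k Fb _ _ _ _ _ _ _ _ _ _ _ j act h f x Ω I Pz F0 F1 M hB hPol hI E0 A _ a0 G γ V ha0
    hG hγ hodd hV W hK
  obtain ⟨hfin, hW, horb⟩ := hOVER K F k Fb j act h W hK
  have f0 : f ≠ 0 := (map_ne_zero j).1 hB.odd.1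
  have γ0 : γ ≠ 0 := hodd.1
  by_cases hc : ∃ P ∈ Ω, Over j P W
  swap
  · have hn : ∀ P : Place k Fb, Over j P W → P ∉ Ω := fun P hP hm => hc ⟨P, hm, hP⟩
    obtain ⟨w, hw, hsq⟩ := locc_halfF hINVAPP hFIXE h hfin hW f0 fun P hP =>
      Int.not_odd_iff_even.1 fun ho => hn P hP ((hB.odd.2 P).1 ho)
    obtain ⟨s, s0, hs, ho⟩ := locc_half hINVAPP h E0 hfin γ0 hγ fun P hP =>
      Int.not_odd_iff_even.1 fun ho => hn P hP (hI ((hodd.2 P).1 ho))
    refine ⟨w, s * s / γ, s, hw, fun τ hτ => ?_, hs, div_ne_zero (mul_ne_zero s0 s0) γ0, ho,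
      Or.inl ⟨hsq, mul_div_cancel₀ _ γ0⟩⟩
    rw [map_div₀, map_mul, hs τ hτ, hγ τ hτ]
  obtain ⟨Q, hQ, hQW⟩ := hc
  have hS : ∀ P : Place k Fb, Over j P W → P ∈ Ω := fun P hP => by
    obtain ⟨τ, rfl⟩ := (horb Q P hQW).1 hP
    rw [← hB.odd.2, h.ord_pl, hB.odd.2]
    exact hQ
  have hj : ∀ q : (𝓞 K)[X], j (q.eval₂ ((algebraMap K F).comp (algebraMap (𝓞 K) K)) x) =
      ((q.map (algebraMap (𝓞 K) K)).map (algebraMap K k)).eval₂ (algebraMap k Fb) (j x) := by
    intro q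
    rw [hom_eval₂, eval₂_map, eval₂_map]
    congr 1
    ext c
    exact h.comm _
  have hF0 : j (F0.eval₂ ((algebraMap K F).comp (algebraMap (𝓞 K) K)) x) =
      ∏ c ∈ Ω, (j x - algebraMap k Fb (ev c (j x))) := by rw [hj, hB.pol, locc_eval]
  obtain ⟨p0, po⟩ := locc_prod hB (Finset.Subset.refl Ω)
  have F00 : F0.eval₂ ((algebraMap K F).comp (algebraMap (𝓞 K) K)) x ≠ 0 :=
    (map_ne_zero j).1 (hF0 ▸ p0)
  have hF1 : ∀ P : Place k Fb, Over j P W →
      P.v (j (F1.eval₂ ((algebraMap K F).comp (algebraMap (𝓞 K) K)) x)) = 1 := by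
    intro P hP
    have : CharZero k := charZero_of_injective_algebraMap (algebraMap K k).injective
    obtain ⟨h1, h2⟩ := locc_poly P (hB.reg P (hS P hP))
      ((F1.map (algebraMap (𝓞 K) K)).map (algebraMap K k))
    rw [hj]
    refine le_antisymm h1 (not_lt.1 fun hlt => ?_)
    rw [← ev_eq_zero_iff h1, h2] at hlt
    have h3 : ((F0.map (algebraMap (𝓞 K) K)).map (algebraMap K k)).eval (ev P (j x)) = 0 := by
      rw [hB.pol, eval_prod]
      exact Finset.prod_eq_zero (hS P hP) (by simp)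
    have h4 : (F0.map (algebraMap (𝓞 K) K)).map (algebraMap K k) *
        (F1.map (algebraMap (𝓞 K) K)).map (algebraMap K k) = Pz.map (Int.castRingHom k) := by
      rw [← Polynomial.map_mul, ← Polynomial.map_mul, hPol.mul, Polynomial.map_map,
        Polynomial.map_map]
      congr 1
      exact RingHom.ext_int _ _
    obtain ⟨u, v, huv⟩ := hPol.sep
    have h5 := congrArg (fun q : ℤ[X] => (q.map (Int.castRingHom k)).eval (ev P (j x))) huv
    simp only [Polynomial.map_add, Polynomial.map_mul, ← derivative_map, ← h4, derivative_mul,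
      eval_add, eval_mul, h3, hlt, map_C, eval_C] at h5
    have h6 : ((M : ℤ) : k) = 0 := by simpa using h5.symm
    exact hPol.M0 (by exact_mod_cast h6)
  have F10 : F1.eval₂ ((algebraMap K F).comp (algebraMap (𝓞 K) K)) x ≠ 0 :=
    (map_ne_zero j).1 (ne_zero_of_v_one (hF1 Q hQW))
  obtain ⟨w, hw, hsq⟩ := locc_halfF hINVAPP hFIXE h hfin hW (mul_ne_zero f0 F00) fun P hP => by
    rw [map_mul, ord_mul P hB.odd.1 ((map_ne_zero j).2 F00), hF0, po P (hS P hP), if_pos (hS P hP)]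
    exact ((hB.odd.2 P).2 (hS P hP)).add_one
  have hGe : G.eval₂ ((algebraMap k Fb).comp a0) (j x) =
      ∏ c ∈ I, (j x - algebraMap k Fb (ev c (j x))) := by rw [← eval₂_map, hG, locc_eval]
  have ha : ∀ τ ∈ E0.fixingSubgroup, ∀ c ∈ E0, act τ (algebraMap k Fb c) = algebraMap k Fb c :=
    fun τ hτ c hc => by rw [h.semi, (IntermediateField.mem_fixingSubgroup_iff _ _).1 hτ c hc]
  have hGx : Fx act E0 (G.eval₂ ((algebraMap k Fb).comp a0) (j x)) := fun τ hτ => by
    have e := hom_eval₂ G ((algebraMap k Fb).comp a0) (act τ : Fb ≃+* Fb).toRingHom (j x)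
    have e1 : (act τ : Fb ≃+* Fb).toRingHom.comp ((algebraMap k Fb).comp a0) =
        (algebraMap k Fb).comp a0 := RingHom.ext fun a => ha τ hτ _ (ha0 a)
    have e2 : (act τ : Fb ≃+* Fb).toRingHom (j x) = j x := h.fixF τ x
    rw [e1, e2] at e
    exact e
  obtain ⟨g0, go⟩ := locc_prod hB hI
  rw [← hGe] at g0 go
  unfold LocC
  generalize G.eval₂ ((algebraMap k Fb).comp a0) (j x) = g at hGx g0 go ⊢
  obtain ⟨s, s0, hs, ho⟩ := locc_half hINVAPP h E0 hfin (mul_ne_zero γ0 g0)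
    (fun τ hτ => by rw [map_mul, hγ τ hτ, hGx τ hτ]) fun P hP => by
      rw [ord_mul P γ0 g0, go P (hS P hP)]
      split_ifs with hm
      · exact ((hodd.2 P).2 hm).add_one
      · rw [add_zero]
        exact Int.not_odd_iff_even.1 fun ho => hm ((hodd.2 P).1 ho)
  have hu : Fx act E0 (s * s / (γ * g)) := fun τ hτ => by
    rw [map_div₀, map_mul, map_mul, hs τ hτ, hγ τ hτ, hGx τ hτ]
  have hg1 : ∀ P : Place k Fb, Over j P W → P.v g ≤ 1 := fun P hP => by
    rw [le_one_iff g0, go P (hS P hP)]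
    split_ifs <;> simp
  refine ⟨w, s * s / (γ * g), s, hw, hu, hs, div_ne_zero (mul_ne_zero s0 s0) (mul_ne_zero γ0 g0),
    ho, Or.inr ⟨(hQW x).2 (hB.reg Q hQ), locc_unit hW F10 hF1, by rwa [mul_right_comm], by
      field_simp, fun z hz => ?_⟩⟩
  obtain ⟨c, hcΩ, hcI, hz1, hcγ, t, ht, hz2⟩ := hV z hz
  have hN : ∀ P : Place k Fb, Over j P W →
      P.v (s * s / (γ * g) * g * algebraMap k Fb (a0 z.2)) ≤ 1 := fun P hP => by
    rw [map_mul, map_mul, ho P hP, one_mul]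
    exact mul_le_one' (hg1 P hP) (P.triv _)
  obtain ⟨c0, hc0, hlt⟩ : ∃ c0 ∈ E0, Over j c W →
      c.v (s * s / (γ * g) * g * algebraMap k Fb (a0 z.2) - algebraMap k Fb (c0 * c0)) < 1 := by
    by_cases hcW : Over j c W
    swap
    · exact ⟨0, zero_mem _, fun h => absurd h hcW⟩
    have hs1 : c.v s = 1 := by
      have e := (eq_one_iff (div_ne_zero (mul_ne_zero s0 s0) (mul_ne_zero γ0 g0))).1 (ho c hcW)
      rw [ord_div c (mul_ne_zero s0 s0) (mul_ne_zero γ0 g0), ord_mul c s0 s0, ord_mul c γ0 g0,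
        go c hcΩ, if_neg hcI, (eq_one_iff γ0).1 hcγ] at e
      rw [eq_one_iff s0]
      omega
    have hsE : ev c s ∈ E0 := by
      rw [← InfiniteGalois.fixedField_fixingSubgroup E0, IntermediateField.mem_fixedField_iff]
      intro τ hτ
      have e1 : (h.sa τ).pl c = c := hB.inj _ (hS _ (locc_over h τ hcW)) c hcΩ (by
        rw [h.ev_pl, ← hz1]
        exact (IntermediateField.mem_fixingSubgroup_iff _ _).1 hτ _ (ha0 _))
      have e2 := (h.sa τ).ev_pl c s
      rw [e1, h.sa_s, hs τ hτ, h.sa_s0] at e2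
      exact e2.symm
    refine ⟨ev c s * t, mul_mem hsE ht, fun _ => ?_⟩
    have e := ev_spec (hN c hcW)
    have e1 : s * s / (γ * g) * g = s * s / γ := by field_simp
    have e2 : c.v (s * s) = 1 := by rw [map_mul, hs1, one_mul]
    have e3 : ev c (s * s / (γ * g) * g * algebraMap k Fb (a0 z.2)) = ev c s * t * (ev c s * t) := by
      rw [e1, ev_mul (by rw [map_div₀, e2, hcγ, div_one]) (c.triv _), ev_div e2.le hcγ,
        ev_mul hs1.le hs1.le, ev_const, hz2]
      have := ev_ne_zero hcγ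
      field_simp
    rwa [e3] at e
  have d0 := locc_ne hB hcΩ
  rw [hz1]
  refine ⟨c0, hc0, (s * s / (γ * g) * g * algebraMap k Fb (a0 z.2) - algebraMap k Fb (c0 * c0)) /
    (j x - algebraMap k Fb (ev c (j x))), fun τ hτ => ?_, fun P hP => ?_, ?_⟩
  · rw [map_div₀, map_sub, map_sub, map_mul (act τ), map_mul (act τ), hu τ hτ, hGx τ hτ, h.fixF,
      ha τ hτ _ (ha0 _), ha τ hτ _ (mul_mem hc0 hc0), ha τ hτ _ (hz1 ▸ ha0 _)]
  · by_cases hP' : c = P
    · subst hP'
      have e := hlt hP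
      generalize s * s / (γ * g) * g * algebraMap k Fb (a0 z.2) - algebraMap k Fb (c0 * c0) = N
        at e ⊢
      rcases eq_or_ne N 0 with rfl | N0
      · simp
      · rw [le_one_iff (div_ne_zero N0 d0), ord_div c N0 d0, hB.unif c hcΩ]
        have := (lt_one_iff N0).1 e
        omega
    · rw [map_div₀, locc_one hB hcΩ (hS P hP) hP', div_one]
      exact P.v.map_sub_le (hN P hP) (P.triv _)
  · rw [mul_div_cancel₀ _ d0]
    ring

end Pool.Agent.P.MP_ab3ecb_nt.Inv
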