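import Pool.Agent.P.MP_ab3ecb_nt.Inv.G.Iface

/-! Step LZ of the twist project. -/

namespace Pool.Agent.P.MP_ab3ecb_nt.Inv

open WithZero Polynomial Module TensorProduct NumberField
open Pool.Agent.P.MP_6f117a_ag (Place FF Model Reg)
open scoped IntermediateField Classical

lemma lz_one {K F k Fb : Type} [Field K] [Field F] [Algebra K F] [Field k] [Algebra K k]
    [Field Fb] [Algebra k Fb] {j : F →+* Fb} {act : (k ≃ₐ[K] k) →* RingAut Fb} (h : GS j act)
    (z : Fb) : ∃ C : Set k, C.Finite ∧ ∀ τ : k ≃ₐ[K] k, (∀ c ∈ C, τ c = c) → act τ z = z := by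
  have hz : z ∈ Submodule.span k (Set.range j) := by rw [h.top]; trivial
  induction hz using Submodule.span_induction with
  | mem x hx =>
    obtain ⟨w, rfl⟩ := hx
    exact ⟨∅, Set.finite_empty, fun τ _ => h.fixF τ w⟩
  | zero => exact ⟨∅, Set.finite_empty, fun τ _ => map_zero _⟩
  | add x y _ _ hx hy =>
    obtain ⟨C, hC, h1⟩ := hx
    obtain ⟨D, hD, h2⟩ := hy
    exact ⟨C ∪ D, hC.union hD, fun τ hτ => by
      rw [map_add, h1 τ fun c hc => hτ c (Or.inl hc), h2 τ fun c hc => hτ c (Or.inr hc)]⟩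
  | smul a x _ hx =>
    obtain ⟨C, hC, h1⟩ := hx
    exact ⟨insert a C, hC.insert a, fun τ hτ => by
      rw [Algebra.smul_def, map_mul, h.semi, hτ a (Set.mem_insert _ _),
        h1 τ fun c hc => hτ c (Set.mem_insert_of_mem _ hc)]⟩

theorem p_LZ :
    S_LZ := by
  intro K F k Fb _ _ _ _ _ _ _ _ j act h Y Z hY hZ
  choose C hC hτ using lz_one h
  have hfin : (Y ∪ ⋃ z ∈ Z, C z).Finite := hY.union (hZ.biUnion fun z _ => hC z)
  have := hfin.to_subtype
  let L := FiniteGaloisIntermediateField.adjoin K (Y ∪ ⋃ z ∈ Z, C z)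
  have hL : (Y ∪ ⋃ z ∈ Z, C z) ⊆ L.toIntermediateField :=
    FiniteGaloisIntermediateField.subset_adjoin K _
  refine ⟨L.toIntermediateField, inferInstance, inferInstance, fun y hy => hL (Or.inl hy),
    fun z hz τ hτ' => hτ z τ fun c hc => ?_⟩
  exact (IntermediateField.mem_fixingSubgroup_iff _ _).1 hτ' c
    (hL (Or.inr (Set.mem_biUnion hz hc)))

end Pool.Agent.P.MP_ab3ecb_nt.Inv
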