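import Pool.Agent.P.MP_ab3ecb_nt.Inv.G.Iface
import Pool.Agent.P.MP_ab3ecb_nt.Inv.J.Iface

/-! Step OVER of the twist project. -/

namespace Pool.Agent.P.MP_ab3ecb_nt.Inv

open WithZero Polynomial Module TensorProduct NumberField
open Pool.Agent.P.MP_6f117a_ag (Place FF Model Reg)
open scoped IntermediateField Classical

section

variable {K F k Fb : Type} [Field K] [Field F] [Algebra K F] [Field k] [Algebra K k] [Field Fb]
  [Algebra k Fb] {j : F →+* Fb} {act : (k ≃ₐ[K] k) →* RingAut Fb} {W : ValuationSubring F}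

lemma over_w (h : W ≠ ⊤) : ∃ w, w ≠ 0 ∧ w ∈ W ∧ w⁻¹ ∉ W := by
  obtain ⟨x, hx⟩ : ∃ x, x ∉ W := by
    by_contra! e
    exact h (eq_top_iff.2 fun x _ => e x)
  exact ⟨x⁻¹, fun e => hx (inv_eq_zero.1 e ▸ W.zero_mem), (W.mem_or_inv_mem x).resolve_left hx,
    by rwa [inv_inv]⟩

lemma over_ne (h : GS j act) {P : Place k Fb} (hP : Over j P W) : W ≠ ⊤ := by
  rintro rfl
  have : ∀ z ∈ Submodule.span k (Set.range j), P.v z ≤ 1 := fun z hz => by
    induction hz using Submodule.span_induction with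
    | mem x hx =>
      obtain ⟨w, rfl⟩ := hx
      exact (hP w).1 trivial
    | zero => simp
    | add x y _ _ a b => exact P.v.map_add_le a b
    | smul c x _ a =>
      rw [Algebra.smul_def, map_mul]
      exact mul_le_one' (P.triv c) a
  have := (le_one_iff (inv_ne_zero P.π_ne)).1 (this P.π⁻¹ (h.top ▸ trivial))
  simp at this

lemma over_orb [Algebra.IsAlgebraic K k] (h : GS j act) (z : Fb) :
    (Set.range fun τ => act τ z).Finite := by
  have hz : z ∈ Submodule.span k (Set.range j) := h.top ▸ trivial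
  induction hz using Submodule.span_induction with
  | mem x hx =>
    obtain ⟨w, rfl⟩ := hx
    exact (Set.finite_singleton (j w)).subset (Set.range_subset_iff.2 fun τ => h.fixF τ w)
  | zero => exact (Set.finite_singleton 0).subset (Set.range_subset_iff.2 fun τ => map_zero _)
  | add x y _ _ a b =>
    exact (a.image2 (· + ·) b).subset (Set.range_subset_iff.2 fun τ =>
      ⟨_, ⟨τ, rfl⟩, _, ⟨τ, rfl⟩, (map_add _ x y).symm⟩)
  | smul c x _ a =>
    refine ((rootSet_finite (minpoly K c) k).image2 (fun a b => algebraMap k Fb a * b) a).subset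
      (Set.range_subset_iff.2 fun τ => ⟨τ c, ?_, _, ⟨τ, rfl⟩, ?_⟩)
    · rw [mem_rootSet, aeval_algEquiv]
      exact ⟨minpoly.ne_zero (Algebra.IsIntegral.isIntegral c), by simp⟩
    · simp only [Algebra.smul_def, map_mul, h.semi]

lemma over_ex [Algebra.IsAlgebraic K k] [IsAlgClosed k] [FF k Fb] (h : CE j act)
    (hW : ∀ c, algebraMap K F c ∈ W) (ht : W ≠ ⊤) : ∃ P : Place k Fb, Over j P W := by
  obtain ⟨w, w0, w1, w2⟩ := over_w ht
  obtain ⟨O, h1, h2⟩ := IsLocalRing.exists_factor_valuationRing (j.comp W.subtype)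
  have h1' : ∀ x ∈ W, j x ∈ O := fun x hx => h1 ⟨x, hx⟩
  have h3 : ∀ x ∈ W, x⁻¹ ∉ W → O.valuation (j x) < 1 := fun x hx hx' =>
    (O.valuation_lt_one_iff ⟨j x, h1' x hx⟩).1 fun e => by
      obtain ⟨y, hy⟩ := (h2.map_nonunit ⟨x, hx⟩ e).exists_right_inv
      exact hx' (eq_inv_of_mul_eq_one_right (congrArg Subtype.val hy) ▸ y.2)
  have h4 : ∀ c, algebraMap k Fb c ∈ O := fun c => by
    let ψ : K →+* O := (j.comp (algebraMap K F)).codRestrict O fun a => h1' _ (hW a)
    obtain ⟨p, p1, p2⟩ := Algebra.IsIntegral.isIntegral (R := K) c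
    obtain ⟨y, hy⟩ := (IsIntegrallyClosed.isIntegral_iff (R := O) (K := Fb)).1
      ⟨p.map ψ, p1.map ψ, by
        rw [eval₂_map, show (algebraMap O Fb).comp ψ = (algebraMap k Fb).comp (algebraMap K k) from
          RingHom.ext h.comm, ← hom_eval₂, p2, map_zero]⟩
    exact hy ▸ y.2
  have j0 : j w ≠ 0 := (map_ne_zero j).2 w0
  have h5 : Transcendental k (j w) := fun e => by
    obtain ⟨c, hc⟩ := minpoly.mem_range_of_degree_eq_one k _
      (IsAlgClosed.degree_eq_one_of_irreducible k (minpoly.irreducible e.isIntegral))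
    have := mul_lt_one_of_nonneg_of_lt_one_right ((O.valuation_le_one_iff _).2 (h4 c⁻¹)) zero_le
      (h3 w w1 w2)
    rw [← map_mul, map_inv₀, hc, inv_mul_cancel₀ j0, map_one] at this
    exact this.false
  have := FF.fin _ h5
  obtain ⟨P, hP⟩ := (PL.setup h5).2.2 O 0 h4 (h1' w w1) (by simpa using h3 w w1 w2)
  refine ⟨P, fun x => ⟨fun hx => by_contra fun e => ?_, fun hx => by_contra fun e => ?_⟩⟩
  · have x0 : j x ≠ 0 := fun e' => e (by simp [e'])
    have a := (lt_one_iff j0).1 (hP _ (h3 w w1 w2))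
    have b := hP (j x ^ (ord P (j w)).toNat * j w) (by
      rw [map_mul]
      exact mul_lt_one_of_nonneg_of_lt_one_right
        ((O.valuation_le_one_iff _).2 (pow_mem (h1' x hx) _)) zero_le (h3 w w1 w2))
    rw [lt_one_iff (mul_ne_zero (pow_ne_zero _ x0) j0), ord_mul P (pow_ne_zero _ x0) j0, ord_pow,
      Int.toNat_of_nonneg a.le] at b
    rw [le_one_iff x0] at e
    nlinarith
  · have x0 : j x ≠ 0 := (map_ne_zero j).2 fun e' => e (e' ▸ W.zero_mem)
    have := hP _ (h3 x⁻¹ ((W.mem_or_inv_mem x).resolve_left e) (by rwa [inv_inv]))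
    rw [map_inv₀, lt_one_iff (inv_ne_zero x0), ord_inv] at this
    rw [le_one_iff x0] at hx
    omega

end

theorem p_OVER (hWA : S_WA) (hFIXE : S_FIXE) :
    S_OVER := by
  intro K F k Fb _ _ _ _ _ _ _ _ _ _ _ j act h W hW
  have fin : {P : Place k Fb | Over j P W}.Finite := by
    by_cases e : W = ⊤
    · exact Set.finite_empty.subset fun P hP => over_ne h hP e
    obtain ⟨w, w0, -, w2⟩ := over_w e
    exact (PL.finite_supp ((map_ne_zero j).2 w0)).subset fun P hP e' =>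
      w2 ((hP _).2 (by simp [e']))
  refine ⟨fin, ⟨over_ex h.toCE hW, fun ⟨P, hP⟩ => over_ne h hP⟩, fun P P' hP =>
    ⟨fun hP' => by_contra fun e => ?_, fun ⟨τ, e⟩ w => by rw [← e, h.v_pl]; exact hP w⟩⟩
  obtain ⟨z, z0, hz⟩ := (hWA k Fb ⟨_, h.tr.choose_spec⟩).2 fin.toFinset
    fun Q => if ∃ τ, (h.sa τ).pl P = Q then 0 else 1
  have inv : ∀ τ x, act τ (act τ⁻¹ x) = x := fun τ x => by
    rw [← RingAut.mul_apply, ← map_mul, mul_inv_cancel, map_one, RingAut.one_apply]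
  have key : ∀ (Q : Place k Fb) τ, Over j Q W → ord Q (act τ z) =
      if ∃ σ, (h.sa σ).pl P = (h.sa τ).pl.symm Q then 0 else 1 := fun Q τ hQ => by
    rw [← hz _ (fin.mem_toFinset.2 fun w => by
      rw [SA.pl_symm_v, h.sa_s, h.fixF]; exact hQ w)]
    rfl
  let T := (over_orb h z).toFinset
  have hT : ∀ {y}, y ∈ T ↔ ∃ τ, act τ z = y := fun {y} => (over_orb h z).mem_toFinset
  have T0 : ∀ y ∈ T, y ≠ 0 := fun y hy => by
    obtain ⟨τ, rfl⟩ := hT.1 hy
    exact (map_ne_zero (act τ)).2 z0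
  obtain ⟨w, hw⟩ := hFIXE K F k Fb j act h.toCE
    (fun c hc => (InfiniteGalois.mem_range_algebraMap_iff_fixed c).2 hc) (∏ y ∈ T, y) fun τ => by
      rw [map_prod]
      refine Finset.prod_equiv (act τ).toEquiv (fun y => ?_) fun y _ => rfl
      rw [hT, hT]
      exact ⟨fun ⟨σ, e⟩ => ⟨τ * σ, by rw [map_mul, ← e]; rfl⟩, fun ⟨σ, e⟩ =>
        ⟨τ⁻¹ * σ, (act τ).injective (by rw [map_mul, RingAut.mul_apply, inv]; exact e)⟩⟩
  have w0 : j w ≠ 0 := hw ▸ Finset.prod_ne_zero_iff.2 T0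
  have a : ord P (j w) = 0 := by
    rw [hw, ord_prod P T T0]
    refine Finset.sum_eq_zero fun y hy => ?_
    obtain ⟨τ, rfl⟩ := hT.1 hy
    rw [key P τ hP, if_pos ⟨τ⁻¹, (SA.pl_eq_iff _).2 fun x => congrArg P.v (inv τ x)⟩]
  have b : 0 < ord P' (j w) := by
    rw [hw, ord_prod P' T T0]
    refine Finset.sum_pos' (fun y hy => ?_) ⟨act 1 z, hT.2 ⟨1, rfl⟩, ?_⟩
    · obtain ⟨τ, rfl⟩ := hT.1 hy
      rw [key P' τ hP']
      split_ifs <;> norm_num
    · rw [key P' 1 hP', if_neg]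
      · norm_num
      · rintro ⟨σ, e'⟩
        refine e ⟨σ, e'.trans (MP_6f117a_ag.Place.ext' (Valuation.ext fun x => ?_))⟩
        rw [SA.pl_symm_v, h.sa_s, map_one, RingAut.one_apply]
  have := (hP' w⁻¹).1 ((hP w⁻¹).2 (by rw [map_inv₀, le_one_iff (inv_ne_zero w0), ord_inv, a]; rfl))
  rw [map_inv₀, le_one_iff (inv_ne_zero w0), ord_inv] at this
  omega

end Pool.Agent.P.MP_ab3ecb_nt.Inv
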