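import Pool.Agent.P.MP_ab3ecb_nt.Inv.G.Iface

/-! Step POLY of the twist project. -/

namespace Pool.Agent.P.MP_ab3ecb_nt.Inv

open WithZero Polynomial Module TensorProduct NumberField
open Pool.Agent.P.MP_6f117a_ag (Place FF Model Reg)
open scoped IntermediateField Classical

/-- An integer of `K` that separates the complex embeddings. -/
lemma poly_sep (K : Type) [Field K] [NumberField K] :
    ∃ β : 𝓞 K, ∀ σ τ : K →+* ℂ, σ β = τ β → σ = τ := by
  obtain ⟨α, hα⟩ := Field.exists_primitive_element ℚ K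
  obtain ⟨⟨x, y⟩, h⟩ := IsLocalization.surj (nonZeroDivisors (𝓞 K)) α
  obtain ⟨d, hd, w, hw⟩ := (Algebra.IsIntegral.isIntegral (R := ℤ) (y : 𝓞 K)).isAlgebraic.exists_nonzero_dvd y.2
  refine ⟨x * w, fun σ τ hst => ?_⟩
  have h1 : ((x * w : 𝓞 K) : K) = α * (d : K) := by
    have h2 := congrArg (algebraMap (𝓞 K) K) hw
    simp only [map_mul, algebraMap_int_eq, eq_intCast, map_intCast] at h2
    rw [h2, ← mul_assoc]
    simp only at h
    rw [h]
    simp
  rw [h1, map_mul, map_mul, map_intCast, map_intCast] at hst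
  have h3 : σ α = τ α := mul_right_cancel₀ (Int.cast_ne_zero.mpr hd) hst
  have h4 := (Field.primitive_element_iff_algHom_eq_of_eval ℚ ℂ
    (fun z => IsAlgClosed.splits _) α σ.toRatAlgHom).mp hα τ.toRatAlgHom h3
  exact RingHom.ext fun z => AlgHom.congr_fun h4 z

/-- After a suitable shift the conjugate polynomials have no common roots. -/
lemma poly_pts {K : Type} [Field K] [NumberField K] {P0 : K[X]} (hs : P0.Separable) {a β : K}
    (ha : a ≠ 0) (hβ : ∀ σ τ : K →+* ℂ, σ β = τ β → σ = τ) :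
    ∃ (m : ℕ) (Z : Finset ℂ), Z.card = finrank ℚ K * P0.natDegree ∧ ∀ z ∈ Z, ∃ σ : K →+* ℂ,
      ((P0.scaleRoots a).comp (X - C (m * β))).eval₂ σ z = 0 := by
  set S : Finset (Σ _ : K →+* ℂ, ℂ) :=
    Finset.univ.sigma fun σ => (P0.map σ).roots.toFinset with hS
  obtain ⟨m, hm⟩ := Infinite.exists_notMem_finset (α := ℕ)
    (((S ×ˢ S).image fun q => (q.2.1 a * q.2.2 - q.1.1 a * q.1.2) / (q.1.1 β - q.2.1 β)).preimage
      (Nat.cast : ℕ → ℂ) Nat.cast_injective.injOn)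
  refine ⟨m, S.image fun p => p.1 a * p.2 + m * p.1 β, ?_, fun z hz => ?_⟩
  · rw [Finset.card_image_of_injOn, hS, Finset.card_sigma]
    · rw [Finset.sum_congr rfl fun σ _ => (Multiset.toFinset_card_of_nodup
        (nodup_roots (hs.map (f := σ)))).trans
        (IsAlgClosed.card_roots_map_eq_natDegree_of_injective P0 σ.injective)]
      simp [Embeddings.card K ℂ]
    · rintro ⟨σ, ρ⟩ hp ⟨τ, ρ'⟩ hq h
      simp only at h
      by_cases hst : σ = τ
      · subst hst
        rw [mul_left_cancel₀ ((map_ne_zero σ).mpr ha) (add_right_cancel h)]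
      · refine absurd ?_ hm
        rw [Finset.mem_preimage, Finset.mem_image]
        refine ⟨(⟨σ, ρ⟩, ⟨τ, ρ'⟩), Finset.mem_product.mpr ⟨hp, hq⟩, ?_⟩
        rw [div_eq_iff (sub_ne_zero.mpr (mt (hβ σ τ) hst))]
        linear_combination -h
  · obtain ⟨⟨σ, ρ⟩, hp, rfl⟩ := Finset.mem_image.mp hz
    refine ⟨σ, ?_⟩
    rw [hS, Finset.mem_sigma, Multiset.mem_toFinset] at hp
    have h1 : P0.eval₂ σ ρ = 0 := by
      rw [← eval_map]
      exact isRoot_of_mem_roots hp.2
    rw [eval₂_comp, eval₂_sub, eval₂_X, eval₂_C, map_mul, map_natCast, add_sub_cancel_right]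
    exact scaleRoots_eval₂_eq_zero σ h1

/-- The norm of `F0`, when its conjugates have no common roots. -/
lemma poly_norm {K : Type} [Field K] [NumberField K] {F0 : (𝓞 K)[X]} (hm : F0.Monic)
    (he : Even F0.natDegree) (Z : Finset ℂ) (hZ : Z.card = finrank ℚ K * F0.natDegree)
    (hr : ∀ z ∈ Z, ∃ σ : 𝓞 K →+* ℂ, F0.eval₂ σ z = 0) :
    ∃ (P : ℤ[X]) (F1 : (𝓞 K)[X]) (M : ℕ), Pol P F0 F1 M := by
  have := hm.free_adjoinRoot
  have := hm.finite_adjoinRoot
  have : Module.Free ℤ (AdjoinRoot F0) := Module.Free.trans (S := 𝓞 K)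
  have : Module.Finite ℤ (AdjoinRoot F0) := Module.Finite.trans (𝓞 K) _
  have hN : finrank ℤ (AdjoinRoot F0) = Z.card := by
    rw [← Module.finrank_mul_finrank ℤ (𝓞 K), RingOfIntegers.rank, hZ,
      (AdjoinRoot.powerBasis' hm).finrank, AdjoinRoot.powerBasis'_dim]
  have hd : ∀ (R : ℤ[X]) (z : 𝓞 K), aeval (AdjoinRoot.root F0) R = algebraMap (𝓞 K) _ z →
      F0 ∣ R.map (Int.castRingHom (𝓞 K)) - C z := fun R z h => by
    rw [← AdjoinRoot.mk_eq_zero, map_sub, AdjoinRoot.mk_C, ← AdjoinRoot.aeval_eq,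
      ← algebraMap_int_eq, aeval_map_algebraMap, h]
    exact sub_self _
  have hz : ∀ R : ℤ[X], aeval (AdjoinRoot.root F0) R = 0 → ∀ z ∈ Z,
      (R.map (Int.castRingHom ℂ)).eval z = 0 := fun R h z hz => by
    obtain ⟨σ, hσ⟩ := hr z hz
    obtain ⟨q, hq⟩ := hd R 0 (by rw [h, map_zero])
    have h1 := congrArg (eval₂ σ z) hq
    rw [eval₂_mul, hσ, zero_mul, map_zero, sub_zero, eval₂_map] at h1
    rw [eval_map, ← h1]
    congr 1
    exact RingHom.ext_int _ _
  set P := (Algebra.lmul ℤ (AdjoinRoot F0) (AdjoinRoot.root F0)).charpoly with hP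
  have mP : P.Monic := LinearMap.charpoly_monic _
  have dP : P.natDegree = Z.card := (LinearMap.charpoly_natDegree _).trans hN
  have aP : aeval (AdjoinRoot.root F0) P = 0 := by
    apply Algebra.lmul_injective (R := ℤ)
    rw [← aeval_algHom_apply, map_zero]
    exact LinearMap.aeval_self_charpoly _
  obtain ⟨F1, hF1⟩ := hd P 0 (by rw [aP, map_zero])
  rw [map_zero, sub_zero] at hF1
  have sP : (P.map (algebraMap ℤ ℚ)).Separable := by
    have h0 : P.map (Int.castRingHom ℂ) ≠ 0 := (mP.map _).ne_zero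
    have h1 : Z.val ≤ (P.map (Int.castRingHom ℂ)).roots :=
      (Multiset.le_iff_subset Z.nodup).mpr fun z h => (mem_roots h0).mpr (hz P aP z h)
    have h2 := Multiset.eq_of_le_of_card_le h1
      ((card_roots' _).trans ((mP.natDegree_map _).trans dP).le)
    have h3 := (nodup_roots_iff_of_splits h0 (IsAlgClosed.splits _)).mp (h2 ▸ Z.nodup)
    rw [← separable_map (algebraMap ℚ ℂ), Polynomial.map_map]
    rwa [RingHom.ext_int ((algebraMap ℚ ℂ).comp (algebraMap ℤ ℚ)) (Int.castRingHom ℂ)]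
  obtain ⟨D, hD, u, v, huv⟩ := bezout_int (a := P) (b := derivative P) (by
    rw [← derivative_map]
    exact sP)
  obtain ⟨r, hr0, hdu⟩ := exists_dual (𝓞 K)
  let ψ : degreeLT ℤ Z.card →ₗ[ℤ] AdjoinRoot F0 :=
    (aeval (AdjoinRoot.root F0)).toLinearMap ∘ₗ (degreeLT ℤ Z.card).subtype
  have hψ : Function.Injective ψ := by
    refine (injective_iff_map_eq_zero ψ).mpr fun R h => Subtype.ext ?_
    have h1 := eq_zero_of_degree_lt_of_eval_finset_eq_zero Z
      ((degree_map_le (f := Int.castRingHom ℂ)).trans_lt (mem_degreeLT.mp R.2)) (hz R h)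
    exact map_injective _ (Int.castRingHom ℂ).injective_int (h1.trans (Polynomial.map_zero _).symm)
  have : Finite (AdjoinRoot F0 ⧸ LinearMap.range ψ) :=
    Submodule.finiteQuotientOfFreeOfRankEq _ (by
      rw [LinearMap.finrank_range_of_inj hψ, hN, finrank_eq_card_basis (degreeLT.basis ℤ _),
        Fintype.card_fin])
  set E := Nat.card (AdjoinRoot F0 ⧸ LinearMap.range ψ) with hE
  have hE0 : E ≠ 0 := Nat.card_pos.ne'
  refine ⟨P, F1, 2 * (D.natAbs * r.natAbs) * E, ?_, (dvd_mul_right _ _).mul_right _, mP, hm,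
    hm.of_mul_monic_left (hF1 ▸ mP.map _), hF1.symm, ?_, ?_, fun z => ?_, hdu _ ?_⟩
  · simp [hD, hr0, hE0]
  · rw [dP, hZ]
    exact he.mul_left _
  · obtain ⟨e, h⟩ : D ∣ ((2 * (D.natAbs * r.natAbs) * E : ℕ) : ℤ) :=
      Int.dvd_natAbs.mpr dvd_rfl |>.trans (Int.natCast_dvd_natCast.mpr
        (((dvd_mul_right _ _).mul_left _).mul_right _))
    exact ⟨u * C e, v * C e, by rw [h, map_mul, ← huv]; ring⟩
  · obtain ⟨R, h⟩ : E • algebraMap (𝓞 K) (AdjoinRoot F0)
        (((2 * (D.natAbs * r.natAbs) : ℕ) : 𝓞 K) * z) ∈ LinearMap.range ψ := by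
      rw [← Submodule.Quotient.mk_eq_zero, ← Submodule.mkQ_apply, map_nsmul]
      exact card_nsmul_eq_zero'
    refine ⟨R, hd R _ (h.trans ?_)⟩
    rw [← map_nsmul, nsmul_eq_mul, Nat.cast_mul _ E]
    congr 1
    ring
  · exact Int.dvd_natAbs.mpr dvd_rfl |>.trans (Int.natCast_dvd_natCast.mpr
      (((dvd_mul_left _ _).mul_left _).mul_right _))

theorem p_POLY :
    S_POLY := by
  intro K _ _ P0 hm hs he
  obtain ⟨β, hβ⟩ := poly_sep K
  set a := IsLocalization.commonDenom (nonZeroDivisors (𝓞 K)) P0.support P0.coeff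
  have ha : algebraMap (𝓞 K) K a ≠ 0 :=
    (map_ne_zero_iff _ (IsFractionRing.injective (𝓞 K) K)).mpr (nonZeroDivisors.ne_zero a.2)
  obtain ⟨G, hG, dG, mG⟩ := lifts_and_natDegree_eq_and_monic
    (IsLocalization.scaleRoots_commonDenom_mem_lifts (nonZeroDivisors (𝓞 K)) P0
      ⟨1, by rw [map_one, hm.leadingCoeff]⟩) ((monic_scaleRoots_iff _).mpr hm)
  obtain ⟨m, Z, hZ, hr⟩ := poly_pts hs ha hβ
  have h1 : (G.comp (X - C (m * β))).map (algebraMap (𝓞 K) K) =
      (P0.scaleRoots (algebraMap (𝓞 K) K a)).comp (X - C ((m : K) * β)) := by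
    rw [Polynomial.map_comp, hG, Polynomial.map_sub, map_X, map_C, map_mul, map_natCast]
  have h2 : (G.comp (X - C (m * β))).natDegree = P0.natDegree := by
    rw [natDegree_comp, natDegree_X_sub_C, mul_one, dG, natDegree_scaleRoots]
  obtain ⟨P, F1, M, h⟩ := poly_norm (mG.comp_X_sub_C (m * β)) (h2 ▸ he) Z (h2 ▸ hZ) fun z hz => by
    obtain ⟨σ, hσ⟩ := hr z hz
    exact ⟨σ.comp (algebraMap (𝓞 K) K), by rw [← eval₂_map, h1, hσ]⟩
  exact ⟨_, _, P, _, F1, M, ha, h, h1⟩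

end Pool.Agent.P.MP_ab3ecb_nt.Inv
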