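import Pool.Agent.P.MP_ab3ecb_nt.Inv.G.Iface
import Pool.Agent.P.MP_ab3ecb_nt.Dense
import Pool.Agent.P.MP_ab3ecb_nt.Tower

/-! Step QD of the twist project. -/

namespace Pool.Agent.P.MP_ab3ecb_nt.Inv

open WithZero Polynomial Module TensorProduct NumberField
open Pool.Agent.P.MP_6f117a_ag (Place FF Model Reg)
open scoped IntermediateField Classical

theorem qd_mono {P Q : ℕ → Prop} (h : ∀ p, P p → Q p) (hP : Dns P) : Dns Q := by
  obtain ⟨δ, C, hδ, hP⟩ := hP
  refine ⟨δ, C, hδ, hP.mono fun X hX => hX.trans ?_⟩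
  refine Finset.sum_le_sum_of_subset_of_nonneg (fun p hp => ?_) fun _ _ _ => by positivity
  rw [Finset.mem_filter] at hp ⊢
  exact ⟨hp.1, h p hp.2⟩

theorem qd_dom {B k : Type} [CommRing B] [Field k] (e : B →+* k) (he : Function.Injective e)
    (a b : B) (h : ∀ x y : B, (e x / e y) * (e x / e y) ≠ e a + e b * (e x / e y)) :
    ∃ l : QuadraticAlgebra B a b →+* AlgebraicClosure k, Function.Injective l := by
  let j := algebraMap k (AlgebraicClosure k)
  obtain ⟨α, hα⟩ := IsAlgClosed.exists_root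
    (C 1 * X ^ 2 + C (-j (e b)) * X + C (-j (e a)) : (AlgebraicClosure k)[X])
    (by rw [degree_quadratic one_ne_zero]; norm_num)
  have h0 : α * α = (j.comp e) a + (j.comp e) b * α := by
    simp only [IsRoot.def, eval_add, eval_mul, eval_C, eval_pow, eval_X] at hα
    simp only [RingHom.comp_apply]
    linear_combination hα
  refine ⟨twLift (j.comp e) α h0, (injective_iff_map_eq_zero _).2 fun z hz => ?_⟩
  have h1 : j (e z.re) + j (e z.im) * α = 0 := hz
  have h2 : j (e z.im) = 0 := by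
    by_contra h2
    refine h (-z.re) z.im (j.injective ?_)
    have h3 : j (e (-z.re) / e z.im) = α := by
      rw [map_div₀, map_neg, map_neg, div_eq_iff h2]
      linear_combination -h1
    rw [map_mul, map_add, map_mul, h3]
    exact h0
  rw [h2, zero_mul, add_zero] at h1
  have hi : Function.Injective (j.comp e) := j.injective.comp he
  exact QuadraticAlgebra.ext ((map_eq_zero_iff _ hi).1 h1) ((map_eq_zero_iff _ hi).1 h2)

theorem qd_card {B : Type} [CommRing B] [Module.Finite ℤ B] (a b : B) (p : ℕ) [Fact p.Prime]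
    (h : ∀ ψ : B →+* ZMod p, ψ (b * b + 4 * a) ≠ 0 ∧ ∃ t, t * t = ψ a + ψ b * t) :
    2 * Nat.card (B →+* ZMod p) ≤ Nat.card (QuadraticAlgebra B a b →+* ZMod p) := by
  have hf : Module.Finite ℤ (QuadraticAlgebra B a b) := Module.Finite.trans B _
  have := tw_fin (QuadraticAlgebra B a b) (ZMod p)
  choose h0 t ht using h
  let T : Bool → (B →+* ZMod p) → ZMod p := fun c ψ => if c then t ψ else ψ b - t ψ
  have hT : ∀ (c) (ψ : B →+* ZMod p), T c ψ * T c ψ = ψ a + ψ b * T c ψ := fun c ψ => by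
    cases c
    · show (ψ b - t ψ) * (ψ b - t ψ) = ψ a + ψ b * (ψ b - t ψ)
      linear_combination ht ψ
    · exact ht ψ
  have hne : ∀ ψ, t ψ ≠ ψ b - t ψ := fun ψ e => h0 ψ (by
    rw [map_add, map_mul, map_mul, map_ofNat]
    linear_combination (-4 : ZMod p) * ht ψ + (2 * t ψ - ψ b) * e)
  have h3 := Nat.card_le_card_of_injective
    (fun x : Bool × (B →+* ZMod p) => twLift x.2 (T x.1 x.2) (hT x.1 x.2)) (by
      rintro ⟨c, ψ⟩ ⟨c', ψ'⟩ h3
      have h4 : ∀ x y : B, ψ x + ψ y * T c ψ = ψ' x + ψ' y * T c' ψ' := fun x y =>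
        RingHom.congr_fun h3 ⟨x, y⟩
      obtain rfl : ψ = ψ' := RingHom.ext fun x => by simpa using h4 x 0
      have h5 : T c ψ = T c' ψ := by simpa using h4 0 1
      refine Prod.ext ?_ rfl
      cases c <;> cases c' <;>
        first | rfl | exact absurd h5 (hne ψ) | exact absurd h5.symm (hne ψ))
  rwa [Nat.card_prod, Nat.card_eq_fintype_card (α := Bool), Fintype.card_bool] at h3

theorem p_QD :
    S_QD := by
  intro K k _ _ _ _ F0 q β hF hq hq2 hβ hno M hM
  have hι : (algebraMap K k).comp (algebraMap (𝓞 K) K) = algebraMap (𝓞 K) k := rfl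
  rw [hι] at hβ hno
  have hi : Function.Injective (algebraMap (𝓞 K) k) :=
    (algebraMap K k).injective.comp (RingOfIntegers.coe_injective (K := K))
  have : CharZero k := (algebraMap K k).charZero_iff (algebraMap K k).injective |>.1 inferInstance
  obtain ⟨b, a, hab⟩ := (isMonicOfDegree_two_iff' (f := q)).1 ⟨hq2, hq⟩
  have hev : ∀ {R : Type} [CommRing R] (f : 𝓞 K →+* R) (t : R),
      q.eval₂ f t = t * t - (f (-a) + f b * t) := fun f t => by
    rw [hab]
    simp only [eval₂_add, eval₂_sub, eval₂_mul, eval₂_C, eval₂_X, eval₂_X_pow, map_neg]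
    ring
  let B := Algebra.adjoin (𝓞 K) ({β} : Set k)
  have hB0 : Module.Finite (𝓞 K) B :=
    Algebra.finite_adjoin_of_finite_of_isIntegral (Set.finite_singleton β) fun x hx => by
      rw [Set.mem_singleton_iff.1 hx]
      exact ⟨F0, hF, hβ⟩
  have hB : Module.Finite ℤ B := Module.Finite.trans (𝓞 K) B
  have hm : ∀ x ∈ B, x ∈ K⟮β⟯ := fun x hx => by
    induction hx using Algebra.adjoin_induction with
    | mem x hx =>
      rw [Set.mem_singleton_iff.1 hx]
      exact IntermediateField.mem_adjoin_simple_self K _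
    | algebraMap n => exact IntermediateField.algebraMap_mem _ (n : K)
    | add x y _ _ h1 h2 => exact add_mem h1 h2
    | mul x y _ _ h1 h2 => exact mul_mem h1 h2
  obtain ⟨l, hl⟩ := qd_dom B.val.toRingHom Subtype.val_injective (algebraMap _ B (-a))
    (algebraMap _ B b) fun x y e => hno _ (div_mem (hm _ x.2) (hm _ y.2))
      ((hev _ _).trans (sub_eq_zero.2 e))
  have hd : b * b + 4 * -a ≠ 0 := fun e => hno (algebraMap _ k b / 2)
    (div_mem (IntermediateField.algebraMap_mem _ (b : K)) (ofNat_mem _ 2)) (by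
      have := congrArg (algebraMap (𝓞 K) k) e
      rw [map_add, map_mul, map_mul, map_ofNat, map_zero] at this
      rw [hev]
      linear_combination (-1 / 4 : k) * this)
  have hN : Ideal.absNorm (Ideal.span {b * b + 4 * -a}) ≠ 0 := by
    rwa [Ne, Ideal.absNorm_eq_zero_iff, Ideal.span_singleton_eq_bot]
  obtain ⟨c, hc⟩ := Ideal.mem_span_singleton.1 (Ideal.absNorm_mem (Ideal.span {b * b + 4 * -a}))
  generalize Ideal.absNorm (Ideal.span {b * b + 4 * -a}) = N at hN hc
  have := hl.isDomain l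
  have := l.charZero
  have hf : Module.Finite ℤ (QuadraticAlgebra B (algebraMap _ B (-a)) (algebraMap _ B b)) :=
    Module.Finite.trans B _
  refine qd_mono (fun p hp => ⟨hp.1, fun e => hp.2.1 (e.mul_right _), hp.2.2.2⟩)
    (dns_of_pair B (QuadraticAlgebra B (algebraMap _ B (-a)) (algebraMap _ B b))
      (mul_ne_zero hM hN) _ fun p hp hpM hQ => ?_)
  have : Fact p.Prime := ⟨hp⟩
  refine qd_card _ _ p fun ψ => ⟨fun e => hpM (Dvd.dvd.mul_left ?_ _), ?_⟩
  · have h1 := congrArg (ψ.comp (algebraMap (𝓞 K) B)) hc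
    rw [map_natCast, map_mul, RingHom.comp_apply, map_add, map_mul, map_mul, map_ofNat, e,
      zero_mul] at h1
    exact (ZMod.natCast_eq_zero_iff _ _).1 h1
  · by_contra h
    refine hQ ⟨⟨⟨p, hp⟩, ψ.comp (algebraMap (𝓞 K) B)⟩, rfl,
      ⟨ψ ⟨β, Algebra.subset_adjoin (Set.mem_singleton _)⟩, ?_⟩, fun t e => h ⟨t, ?_⟩⟩
    · rw [← hom_eval₂, show F0.eval₂ (algebraMap (𝓞 K) B)
        ⟨β, Algebra.subset_adjoin (Set.mem_singleton _)⟩ = 0 from Subtype.ext
          ((hom_eval₂ F0 (algebraMap (𝓞 K) B) B.val.toRingHom _).trans hβ), map_zero]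
    · exact sub_eq_zero.1 ((hev _ _).symm.trans e)

end Pool.Agent.P.MP_ab3ecb_nt.Inv
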