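import Pool.Agent.P.MP_ab3ecb_nt.Inv.G.Iface
import Pool.Agent.P.MP_ab3ecb_nt.Inv.J.Iface

/-! Step TRL of the twist project. -/

namespace Pool.Agent.P.MP_ab3ecb_nt.Inv

open WithZero Polynomial Module TensorProduct NumberField
open Pool.Agent.P.MP_6f117a_ag (Place FF Model Reg)
open scoped IntermediateField Classical

section

variable {K F k Fb : Type} [Field K] [Field F] [Algebra K F] [Field k] [Algebra K k] [Field Fb]
  [Algebra k Fb] {j : F →+* Fb} {act : (k ≃ₐ[K] k) →* RingAut Fb} {ι : Type} [Fintype ι]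

/-- Linear disjointness is symmetric. -/
lemma trl_indep (h : CE j act) {α : ι → k} (hα : LinearIndependent K α) {w : ι → F}
    (hw : ∑ i, j (w i) * algebraMap k Fb (α i) = 0) (i : ι) : w i = 0 := by
  let b := Basis.ofVectorSpace K F
  let T := Finset.univ.biUnion fun i => (b.repr (w i)).support
  have h1 : ∀ i, w i = ∑ l ∈ T, b.repr (w i) l • b l := fun i => by
    conv_lhs => rw [← b.linearCombination_repr (w i), Finsupp.linearCombination_apply]
    exact Finsupp.sum_of_support_subset _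
      (Finset.subset_biUnion_of_mem (fun i => (b.repr (w i)).support) (Finset.mem_univ i)) _
      fun _ _ => zero_smul _ _
  have h2 : ∑ l ∈ T, (∑ i, b.repr (w i) l • α i) • (j ∘ b) l = 0 := by
    rw [← hw]
    simp only [Finset.sum_smul]
    rw [Finset.sum_comm]
    refine Finset.sum_congr rfl fun i _ => ?_
    conv_rhs => rw [h1 i, map_sum, Finset.sum_mul]
    refine Finset.sum_congr rfl fun l _ => ?_
    simp only [Algebra.smul_def, map_mul, h.comm, Function.comp_apply]
    ring
  have h3 := linearIndependent_iff'.1 (h.lin _ b b.linearIndependent) T _ h2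
  rw [h1 i]
  refine Finset.sum_eq_zero fun l hl => ?_
  rw [Fintype.linearIndependent_iff.1 hα _ (h3 l hl) i, zero_smul]

/-- The conjugates of an independent family span. -/
lemma trl_span [IsGalois K k] {α : ι → k} (hα : LinearIndependent K α) :
    Submodule.span k (Set.range fun (τ : k ≃ₐ[K] k) i => τ (α i)) = ⊤ := by
  have h1 : LinearIndependent (FixedPoints.subfield (k ≃ₐ[K] k) k) α := by
    refine Fintype.linearIndependent_iff.2 fun g hg i => ?_
    choose c hc using fun i => (InfiniteGalois.mem_range_algebraMap_iff_fixed (k := K) (g i : k)).2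
      fun τ => (g i).2 τ
    have h2 := Fintype.linearIndependent_iff.1 hα c (by
      rw [← hg]
      exact Finset.sum_congr rfl fun i _ => by rw [Algebra.smul_def, hc]; rfl) i
    exact Subtype.ext (by rw [← hc, h2, map_zero]; rfl)
  have h2 := FixedPoints.linearIndependent_smul_of_linearIndependent (k ≃ₐ[K] k) k
    (s := Finset.univ.image α) (by simpa using h1.linearIndepOn_id)
  have h3 := LinearIndependent.comp h2 (fun i => ⟨α i, by simp⟩)
    fun a b e => hα.injective (congrArg Subtype.val e)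
  exact span_flip_eq_top_iff_linearIndependent.2 h3

lemma trl_sp (h : CE j act) {E0 : IntermediateField K k} {α : ι → k}
    (hα : ∀ c ∈ E0, c ∈ Submodule.span K (Set.range α)) {z : Fb} (hz : z ∈ Sp j E0) :
    ∃ w : ι → F, z = ∑ i, j (w i) * algebraMap k Fb (α i) := by
  induction hz using AddSubmonoid.closure_induction with
  | zero => exact ⟨0, by simp⟩
  | add x y _ _ hx hy =>
    obtain ⟨w, rfl⟩ := hx
    obtain ⟨w', rfl⟩ := hy
    exact ⟨w + w', by simp [add_mul, Finset.sum_add_distrib]⟩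
  | mem x hx =>
    obtain ⟨c, hc, w, rfl⟩ := hx
    obtain ⟨e, rfl⟩ := (Submodule.mem_span_range_iff_exists_fun K).1 (hα c hc)
    refine ⟨fun i => algebraMap K F (e i) * w, ?_⟩
    rw [map_sum, Finset.sum_mul]
    refine Finset.sum_congr rfl fun i _ => ?_
    simp only [Algebra.smul_def, map_mul, h.comm]
    ring

/-- The coordinates of an element all of whose conjugates are integral are integral. -/
lemma trl_int [IsGalois K k] (h : CE j act) {α : ι → k} (hα : LinearIndependent K α) (w : ι → F)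
    (P : Place k Fb) (hP : ∀ τ, P.v (act τ (∑ i, j (w i) * algebraMap k Fb (α i))) ≤ 1) (i : ι) :
    P.v (j (w i)) ≤ 1 := by
  have key : ∀ x ∈ Submodule.span k (Set.range fun (τ : k ≃ₐ[K] k) i => τ (α i)),
      ∑ i, x i • j (w i) ∈ P.le 0 := by
    intro x hx
    induction hx using Submodule.span_induction with
    | zero => simp
    | add x y _ _ hx hy => simpa [add_smul, Finset.sum_add_distrib] using add_mem hx hy
    | smul c x _ hx =>
      simpa [mul_smul, Finset.smul_sum] using Submodule.smul_mem _ c hx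
    | mem x hx =>
      obtain ⟨τ, rfl⟩ := hx
      have h1 := hP τ
      simp only [map_sum, map_mul, h.fixF, h.semi] at h1
      change P.v _ ≤ exp 0
      simpa only [Algebra.smul_def, mul_comm, exp_zero] using h1
  have h1 := key (Pi.single i 1) (by rw [trl_span hα]; trivial)
  rw [Finset.sum_eq_single i (fun l _ hl => by simp [hl]) (by simp)] at h1
  have h2 : P.v ((Pi.single i 1 : ι → k) i • j (w i)) ≤ exp 0 := h1
  simpa using h2

end

section

variable {K k A : Type} [Field K] [NumberField K] [Field k] [Algebra K k] [CommRing A]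
  {E0 : IntermediateField K k} {a0 : A →+* k} {i : 𝓞 K →+* A}

lemma trl_basis [Algebra.IsAlgebraic K k] [Module.Finite ℤ A] (h : Ord E0 a0 i) :
    ∃ (ι : Type) (_ : Fintype ι) (a : ι → A), LinearIndependent K (fun l => a0 (a l)) ∧
      ∀ c ∈ E0, c ∈ Submodule.span K (Set.range fun l => a0 (a l)) := by
  obtain ⟨n, g, hg⟩ := Module.Finite.exists_fin (R := ℤ) (M := A)
  obtain ⟨κ, e, he, h1, h2⟩ := exists_linearIndependent' K fun l => a0 (g l)
  have := Finite.of_injective e he
  refine ⟨κ, Fintype.ofFinite κ, fun l => g (e l), h2, fun c hc => ?_⟩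
  have h3 : ∀ a, a0 a ∈ Submodule.span K (Set.range fun l => a0 (g l)) := fun a => by
    obtain ⟨m, rfl⟩ := (Submodule.mem_span_range_iff_exists_fun ℤ).1
      (show a ∈ Submodule.span ℤ (Set.range g) by rw [hg]; trivial)
    rw [map_sum]
    exact sum_mem fun l _ => by
      rw [map_zsmul]
      exact zsmul_mem (Submodule.subset_span (Set.mem_range_self l)) _
  have : CharZero k := charZero_of_injective_algebraMap (algebraMap K k).injective
  have h4 : IsAlgebraic ℚ c :=
    (Algebra.IsAlgebraic.trans ℚ K k).isAlgebraic c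
  obtain ⟨N, hN, h5⟩ := ((IsFractionRing.isAlgebraic_iff ℤ ℚ k).2 h4).exists_integral_multiple
  obtain ⟨a, ha⟩ := (h.rng (N • c)).2 ⟨zsmul_mem hc N, h5⟩
  have h6 : c = (N : K)⁻¹ • a0 a := by
    rw [ha, ← Int.cast_smul_eq_zsmul K, smul_smul, inv_mul_cancel₀ (Int.cast_ne_zero.2 hN), one_smul]
  rw [h6]
  exact h1 ▸ Submodule.smul_mem _ _ (h3 a)

lemma trl_rep {F ι : Type} [Field F] [Algebra K F] [Fintype ι] (h : Ord E0 a0 i) {a : ι → A}
    (ha : ∀ c ∈ E0, c ∈ Submodule.span K (Set.range fun l => a0 (a l))) (z : F ⊗[ℤ] A) :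
    ∃ w : ι → F, z - ∑ l, w l ⊗ₜ a l ∈ dT ((algebraMap K F).comp (algebraMap (𝓞 K) K)) i := by
  set ρ := (algebraMap K F).comp (algebraMap (𝓞 K) K) with hρ
  have key : ∀ (x : F) (c : 𝓞 K) (b : A), Ideal.Quotient.mk (dT ρ i) (x ⊗ₜ (i c * b)) =
      Ideal.Quotient.mk (dT ρ i) ((x * ρ c) ⊗ₜ b) := fun x c b => by
    symm
    rw [Ideal.Quotient.eq]
    have h1 : (ρ c ⊗ₜ[ℤ] (1 : A)) - (1 : F) ⊗ₜ[ℤ] i c ∈ dT ρ i := Ideal.subset_span ⟨c, rfl⟩
    have h2 := Ideal.mul_mem_left _ (x ⊗ₜ[ℤ] b) h1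
    rwa [mul_sub, Algebra.TensorProduct.tmul_mul_tmul, Algebra.TensorProduct.tmul_mul_tmul,
      mul_one, mul_one, mul_comm b] at h2
  simp only [← Ideal.Quotient.eq]
  induction z using TensorProduct.induction_on with
  | zero => exact ⟨0, by simp⟩
  | add x y hx hy =>
    obtain ⟨w, hw⟩ := hx
    obtain ⟨w', hw'⟩ := hy
    exact ⟨w + w', by simp [hw, hw', add_tmul, Finset.sum_add_distrib]⟩
  | tmul x b =>
    obtain ⟨c, hc⟩ := (Submodule.mem_span_range_iff_exists_fun K).1
      (ha _ ((h.rng _).1 ⟨b, rfl⟩).1)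
    obtain ⟨d, hd⟩ := IsLocalization.exist_integer_multiples_of_finite (nonZeroDivisors (𝓞 K)) c
    choose e he using hd
    have h1 : i d * b = ∑ l, i (e l) * a l := h.inj (by
      rw [map_mul, map_sum, h.comp, ← hc, Finset.mul_sum]
      refine Finset.sum_congr rfl fun l _ => ?_
      rw [map_mul, h.comp, he, Algebra.smul_def, Algebra.smul_def, map_mul, mul_assoc])
    have h2 : ρ d ≠ 0 := by
      rw [hρ, RingHom.comp_apply, _root_.map_ne_zero]
      exact IsFractionRing.to_map_ne_zero_of_mem_nonZeroDivisors d.2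
    refine ⟨fun l => x * (ρ d)⁻¹ * ρ (e l), ?_⟩
    rw [show x ⊗ₜ[ℤ] b = (x * (ρ d)⁻¹ * ρ d) ⊗ₜ[ℤ] b by rw [inv_mul_cancel_right₀ h2], ← key, h1,
      tmul_sum, map_sum, map_sum]
    exact Finset.sum_congr rfl fun l _ => key _ _ _

end

theorem p_TRL (hDESC : S_DESC) (hOVER : S_OVER) :
    S_TRL := by
  intro K F k Fb _ _ _ _ _ _ _ _ _ _ _ j act h E0 A _ _ _ a0 i hO
  obtain ⟨ι, _, a, h1, h2⟩ := trl_basis hO
  have h3 : ∀ z ∈ dT ((algebraMap K F).comp (algebraMap (𝓞 K) K)) i, th j a0 z = 0 := by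
    intro z hz
    refine (Ideal.span_le.2 ?_ : _ ≤ RingHom.ker (th j a0)) hz
    rintro _ ⟨c, rfl⟩
    change th j a0 (algebraMap K F (algebraMap (𝓞 K) K c) ⊗ₜ 1 - 1 ⊗ₜ i c) = 0
    rw [map_sub, th_tmul, th_tmul, hO.comp, h.comm]
    simp
  refine ⟨fun z => ⟨fun hz => ?_, h3 z⟩, fun z τ hτ => ?_, fun W hW z hz hv => ?_⟩
  · obtain ⟨w, hw⟩ := trl_rep (F := F) hO h2 z
    have h4 := h3 _ hw
    rw [map_sub, hz, zero_sub, neg_eq_zero, map_sum] at h4
    simp only [th_tmul] at h4
    simpa [trl_indep h.toCE h1 h4] using hw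
  · induction z using TensorProduct.induction_on with
    | zero => simp
    | add x y hx hy => rw [map_add, map_add, hx, hy]
    | tmul x b =>
      rw [th_tmul, map_mul, h.fixF, h.semi,
        (E0.mem_fixingSubgroup_iff τ).1 hτ _ ((hO.rng _).1 ⟨b, rfl⟩).1]
  · have h4 := (hDESC K F k Fb j act h.toCE E0.fixingSubgroup ⊥ bot_le (by simp)).2 z
      (by rw [h.top]; trivial) hz
    rw [InfiniteGalois.fixedField_fixingSubgroup] at h4
    obtain ⟨w, rfl⟩ := trl_sp h.toCE h2 h4
    have h5 : ∀ l, w l ∈ W := fun l => by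
      by_cases e : W = ⊤
      · rw [e]
        trivial
      · obtain ⟨P, hP⟩ := (hOVER K F k Fb j act h W hW).2.1.1 e
        refine (hP _).2 (trl_int h.toCE h1 w P (fun τ => ?_) l)
        exact hv ((h.sa τ).pl.symm P) fun x => by rw [hP, SA.pl_symm_v, CE.sa_s, h.fixF]
    refine ⟨∑ l, (⟨w l, h5 l⟩ : W) ⊗ₜ a l, ?_⟩
    simp only [map_sum, tm_tmul, th_tmul]
    rfl

end Pool.Agent.P.MP_ab3ecb_nt.Inv
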