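import Pool.Agent.P.MP_ab3ecb_nt.Inv.G.Iface
import Pool.Agent.P.MP_ab3ecb_nt.Inv.J.Iface

/-! Step XSEP of the twist project. -/

namespace Pool.Agent.P.MP_ab3ecb_nt.Inv

open WithZero Polynomial Module TensorProduct NumberField
open Pool.Agent.P.MP_6f117a_ag (Place FF Model Reg)
open scoped IntermediateField Classical

section

variable {K F k Fb : Type} [Field K] [Field F] [Algebra K F] [Field k] [Algebra K k] [Field Fb]
  [Algebra k Fb] {j : F →+* Fb} {act : (k ≃ₐ[K] k) →* RingAut Fb}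

/-- The functions of `F` that lie in a subspace of `Fb`. -/
def xsep_pull (h : CE j act) (B : Submodule k Fb) : Submodule K F where
  carrier := {x | j x ∈ B}
  add_mem' h1 h2 := by simpa using B.add_mem h1 h2
  zero_mem' := by simp
  smul_mem' c x hx := by
    have := B.smul_mem (algebraMap K k c) hx
    rwa [Algebra.smul_def, ← h.comm, ← map_mul, ← Algebra.smul_def] at this

lemma xsep_avoid [Infinite K] (h : CE j act) {ι : Type} [Finite ι] (V : Submodule k Fb)
    (hV : V ≤ Submodule.span k {z | z ∈ V ∧ z ∈ Set.range j}) (B : ι → Submodule k Fb)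
    (hB : ∀ i, ¬ V ≤ B i) : ∃ x, j x ∈ V ∧ ∀ i, j x ∉ B i := by
  by_contra hc
  push Not at hc
  obtain ⟨i, hi⟩ := Subspace.exists_eq_top_of_iUnion_eq_univ
    (p := fun i => (xsep_pull h (B i)).comap (xsep_pull h V).subtype)
    (Set.eq_univ_of_forall fun x => Set.mem_iUnion.2 (hc x.1 x.2))
  refine hB i (hV.trans (Submodule.span_le.2 ?_))
  rintro _ ⟨hz, x, rfl⟩
  have : (⟨x, hz⟩ : xsep_pull h V) ∈ (xsep_pull h (B i)).comap (xsep_pull h V).subtype := by
    rw [hi]
    trivial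
  exact this

lemma xsep_range [IsGalois K k] (h : CE j act) {z : Fb}
    (hz : z ∈ Sp j (IntermediateField.fixedField (⊤ : Subgroup (k ≃ₐ[K] k)))) :
    z ∈ Set.range j := by
  rw [InfiniteGalois.fixedField_bot] at hz
  induction hz using AddSubmonoid.closure_induction with
  | mem z hz =>
    obtain ⟨c, hc, w, rfl⟩ := hz
    obtain ⟨c, rfl⟩ := IntermediateField.mem_bot.1 hc
    exact ⟨algebraMap K F c * w, by rw [map_mul, h.comm]⟩
  | zero => exact ⟨0, map_zero _⟩
  | add a b _ _ ha hb =>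
    obtain ⟨a, rfl⟩ := ha
    obtain ⟨b, rfl⟩ := hb
    exact ⟨a + b, map_add _ _ _⟩

lemma xsep_mem (A : Submodule k Fb) (z : Fb) :
    z ∈ A ⊔ Submodule.span k {1} ↔ ∃ c, z - algebraMap k Fb c ∈ A := by
  rw [Submodule.mem_sup]
  constructor
  · rintro ⟨y, hy, w, hw, rfl⟩
    obtain ⟨c, rfl⟩ := Submodule.mem_span_singleton.1 hw
    exact ⟨c, by simpa [Algebra.smul_def] using hy⟩
  · rintro ⟨c, hc⟩
    exact ⟨_, hc, algebraMap k Fb c,
      Submodule.mem_span_singleton.2 ⟨c, by simp [Algebra.smul_def]⟩, by simp⟩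

lemma xsep_lt {P : Place k Fb} {z : Fb} : P.v z ≤ exp (-1) ↔ P.v z < 1 := by
  rcases eq_or_ne z 0 with rfl | hz
  · simp
  · rw [le_exp_iff hz, lt_one_iff hz]
    omega

end

theorem p_XSEP (hDESC : S_DESC) (hWA : S_WA) :
    S_XSEP := by
  intro K F k Fb _ _ _ _ _ _ _ _ _ _ _ j act h S hS
  have : Infinite K := Infinite.of_injective _ Nat.cast_injective
  obtain ⟨t, ht⟩ := h.tr
  have wa := (hWA k Fb ⟨_, ht⟩).2 S
  let V : Submodule k Fb := ⨅ P ∈ S, Place.le P 0
  have mV : ∀ z, z ∈ V ↔ ∀ P ∈ S, P.v z ≤ 1 := fun z => by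
    simp only [V, Submodule.mem_iInf]
    rfl
  have hV := (hDESC K F k Fb j act h.toCE ⊤ V (by rw [h.top]; exact le_top) fun τ _ z hz => by
    rw [mV] at hz ⊢
    intro P hP
    have e := (h.sa τ⁻¹).pl_v P (act τ z)
    rw [CE.sa_s, ← RingAut.mul_apply, ← map_mul, inv_mul_cancel, map_one, RingAut.one_apply] at e
    rw [← e]
    exact hz _ (hS _ _ hP)).1
  obtain ⟨x, hx, hB⟩ := xsep_avoid h.toCE V
    (hV.trans (Submodule.span_mono fun z hz => ⟨hz.1, xsep_range h.toCE hz.2⟩))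
    (fun i : S × S => (if i.1 = i.2 then Place.le i.1.1 (-2)
      else Place.le i.1.1 (-1) ⊓ Place.le i.2.1 (-1)) ⊔ Submodule.span k {1}) (by
      rintro ⟨P, Q⟩ hle
      obtain ⟨z, z0, hz⟩ := wa fun R => if R = P.1 then 1 else 0
      have zP : ord P.1 z = 1 := by simpa using hz _ P.2
      obtain ⟨c, hc⟩ := (xsep_mem _ z).1 (hle ((mV z).2 fun R hR => by
        rw [le_one_iff z0, hz R hR]
        split_ifs <;> omega))
      have z1 : P.1.v z < 1 := by rw [lt_one_iff z0]; omega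
      have c0 : P.1.v (z - algebraMap k Fb c) < 1 → c = 0 := fun h1 => by
        rw [← ev_eq h1, ev_of_lt z1]
      dsimp only at hc
      split_ifs at hc with e
      · have h2 : P.1.v (z - algebraMap k Fb c) ≤ exp (-2) := hc
        obtain rfl := c0 (xsep_lt.1 (h2.trans (exp_le_exp.2 (by omega))))
        rw [map_zero, sub_zero, le_exp_iff z0] at h2
        omega
      · have h2 : P.1.v (z - algebraMap k Fb c) ≤ exp (-1) := hc.1
        have h3 : Q.1.v (z - algebraMap k Fb c) ≤ exp (-1) := hc.2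
        obtain rfl := c0 (xsep_lt.1 h2)
        rw [map_zero, sub_zero, le_exp_iff z0, hz _ Q.2,
          if_neg fun e' => e (Subtype.ext e'.symm)] at h3
        omega)
  rw [mV] at hx
  refine ⟨x, hx, fun c hc => ?_, fun c hc c' hc' e => by_contra fun ne => ?_⟩
  · have h1 := hB (⟨c, hc⟩, ⟨c, hc⟩)
    rw [xsep_mem, if_pos rfl, not_exists] at h1
    have h2 : ¬ c.v (j x - algebraMap k Fb (ev c (j x))) ≤ exp (-2) := h1 _
    have h3 := ev_spec (hx c hc)
    have z0 : j x - algebraMap k Fb (ev c (j x)) ≠ 0 := fun e => h2 (by simp [e])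
    rw [le_exp_iff z0] at h2
    rw [lt_one_iff z0] at h3
    omega
  · refine hB (⟨c, hc⟩, ⟨c', hc'⟩) ?_
    rw [xsep_mem, if_neg fun e' => ne (congrArg Subtype.val e')]
    exact ⟨ev c (j x), xsep_lt.2 (ev_spec (hx c hc)), xsep_lt.2 (e ▸ ev_spec (hx c' hc'))⟩

end Pool.Agent.P.MP_ab3ecb_nt.Inv
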