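import Pool.Agent.P.MP_ab3ecb_nt.Inv.BaseJ

/-!
Statements: the geometry of the branch points and the test functions.
-/

namespace Pool.Agent.P.MP_ab3ecb_nt.Inv

open WithZero Polynomial Module TensorProduct NumberField
open Pool.Agent.P.MP_6f117a_ag (Place FF Model Reg)
open scoped IntermediateField Classical

-- deps: DESC WA
def S_INVAPP : Prop := ∀ (K F k Fb : Type) [Field K] [CharZero K] [Field F] [Algebra K F]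
  [Field k] [IsAlgClosed k] [Algebra K k] [IsGalois K k] [Field Fb] [Algebra k Fb] [FF k Fb]
  (j : F →+* Fb) (act : (k ≃ₐ[K] k) →* RingAut Fb) (h : GS j act) (E0 : IntermediateField K k)
  (S : Finset (Place k Fb)) (n : Place k Fb → ℤ),
  (∀ τ ∈ E0.fixingSubgroup, ∀ P ∈ S, (h.sa τ).pl P ∈ S ∧ n ((h.sa τ).pl P) = n P) →
    ∃ t, t ≠ 0 ∧ Fx act E0 t ∧ ∀ P ∈ S, ord P t = n P

-- deps: WA FIXE
def S_OVER : Prop := ∀ (K F k Fb : Type) [Field K] [CharZero K] [Field F] [Algebra K F]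
  [Field k] [IsAlgClosed k] [Algebra K k] [IsGalois K k] [Field Fb] [Algebra k Fb] [FF k Fb]
  (j : F →+* Fb) (act : (k ≃ₐ[K] k) →* RingAut Fb) (h : GS j act) (W : ValuationSubring F),
  (∀ c, algebraMap K F c ∈ W) → {P : Place k Fb | Over j P W}.Finite ∧
    (W ≠ ⊤ ↔ ∃ P : Place k Fb, Over j P W) ∧
    ∀ P P' : Place k Fb, Over j P W → (Over j P' W ↔ ∃ τ, (h.sa τ).pl P = P')

-- deps: DESC OVER
def S_TRL : Prop := ∀ (K F k Fb : Type) [Field K] [NumberField K] [Field F] [Algebra K F]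
  [Field k] [IsAlgClosed k] [Algebra K k] [IsGalois K k] [Field Fb] [Algebra k Fb] [FF k Fb]
  (j : F →+* Fb) (act : (k ≃ₐ[K] k) →* RingAut Fb), GS j act →
  ∀ (E0 : IntermediateField K k) (A : Type) [CommRing A] [Module.Free ℤ A] [Module.Finite ℤ A]
    (a0 : A →+* k) (i : 𝓞 K →+* A), Ord E0 a0 i →
    (∀ z, th j a0 z = 0 ↔ z ∈ dT ((algebraMap K F).comp (algebraMap (𝓞 K) K)) i) ∧
    (∀ z, Fx act E0 (th j a0 z)) ∧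
    ∀ W : ValuationSubring F, (∀ c, algebraMap K F c ∈ W) → ∀ z, Fx act E0 z →
      (∀ P : Place k Fb, Over j P W → P.v z ≤ 1) →
        ∃ u : W ⊗[ℤ] A, th j a0 (tm A W.subtype u) = z

-- deps: DESC WA
def S_XSEP : Prop := ∀ (K F k Fb : Type) [Field K] [CharZero K] [Field F] [Algebra K F]
  [Field k] [IsAlgClosed k] [Algebra K k] [IsGalois K k] [Field Fb] [Algebra k Fb] [FF k Fb]
  (j : F →+* Fb) (act : (k ≃ₐ[K] k) →* RingAut Fb) (h : GS j act) (S : Finset (Place k Fb)),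
  (∀ τ, ∀ P ∈ S, (h.sa τ).pl P ∈ S) → ∃ x : F, (∀ c ∈ S, c.v (j x) ≤ 1) ∧
    (∀ c ∈ S, ord c (j x - algebraMap k Fb (ev c (j x))) = 1) ∧
    ∀ c ∈ S, ∀ c' ∈ S, ev c (j x) = ev c' (j x) → c = c'

-- deps:
def S_POLY : Prop := ∀ (K : Type) [Field K] [NumberField K] (P0 : K[X]), P0.Monic →
  P0.Separable → Even P0.natDegree → ∃ (a c : K) (P : ℤ[X]) (F0 F1 : (𝓞 K)[X]) (M : ℕ),
    a ≠ 0 ∧ Pol P F0 F1 M ∧ F0.map (algebraMap (𝓞 K) K) = (P0.scaleRoots a).comp (X - C c)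

-- deps: XSEP POLY
def S_BD : Prop := ∀ (K F k Fb : Type) [Field K] [NumberField K] [Field F] [Algebra K F]
  [Field k] [IsAlgClosed k] [Algebra K k] [IsGalois K k] [Field Fb] [Algebra k Fb] [FF k Fb]
  (j : F →+* Fb) (act : (k ≃ₐ[K] k) →* RingAut Fb), GS j act → ∀ f : F, f ≠ 0 →
  ∃ (x : F) (Ω : Finset (Place k Fb)) (P : ℤ[X]) (F0 F1 : (𝓞 K)[X]) (M : ℕ),
    BD j f x Ω (F0.map (algebraMap (𝓞 K) K)) ∧ Pol P F0 F1 M ∧ Even Ω.card ∧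
      (Ω.Nonempty → aeval x P ≠ 0)

-- deps: OVER INVAPP FIXE
def S_KPT : Prop := ∀ (K F k Fb : Type) [Field K] [CharZero K] [Field F] [Algebra K F]
  [Field k] [IsAlgClosed k] [Algebra K k] [IsGalois K k] [Field Fb] [Algebra k Fb] [FF k Fb]
  (j : F →+* Fb) (act : (k ≃ₐ[K] k) →* RingAut Fb), GS j act →
  ∀ (f x : F) (Ω : Finset (Place k Fb)) (P0 : K[X]), BD j f x Ω P0 →
    {P : KPt (algebraMap K F) (algebraMap K k) | Branch f P.O}.ncard ≤ Ω.card ∧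
    (∀ c ∈ Ω, ∃ P : KPt (algebraMap K F) (algebraMap K k), Branch f P.O ∧
      Set.range P.φ = K⟮ev c (j x)⟯) ∧
    (∀ P : KPt (algebraMap K F) (algebraMap K k), Branch f P.O →
      ∃ c ∈ Ω, Set.range P.φ = K⟮ev c (j x)⟯) ∧ BRP (algebraMap K F) f P0

-- deps:
def S_SPR : Prop := ∀ (F : Type) [Field F] [CharZero F] (Q : ValuationSubring F → Prop),
  (∀ W : ValuationSubring F, (∀ q : ℚ, (q : F) ∈ W) → ∃ T : Set F, T.Finite ∧ T ⊆ W ∧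
    ∀ W' : ValuationSubring F, T ⊆ W' → Q W') →
  ∃ M : ℕ, M ≠ 0 ∧ ∀ W : ValuationSubring F, IsUnit ((M : ℤ) : W) → Q W

-- deps:
def S_FC : Prop := ∀ (F A : Type) [Field F] [CommRing A] [Module.Free ℤ A] [Module.Finite ℤ A]
  (W : ValuationSubring F), Function.Injective (tm A W.subtype) ∧ ∀ u : W ⊗[ℤ] A,
    ∃ T : Set F, T.Finite ∧ T ⊆ W ∧ ∀ W' : ValuationSubring F, T ⊆ W' →
      ∃ u' : W' ⊗[ℤ] A, tm A W'.subtype u' = tm A W.subtype u ∧ (IsUnit u → IsUnit u')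

/-- The data of a certificate at a valuation ring `W` that contains the constants, in the
function field over the algebraic closure. -/
def LocC {K F k Fb A : Type} [Field K] [NumberField K] [Field F] [Algebra K F] [Field k]
    [Algebra K k] [Field Fb] [Algebra k Fb] [CommRing A] (j : F →+* Fb)
    (act : (k ≃ₐ[K] k) →* RingAut Fb) (E0 : IntermediateField K k) (a0 : A →+* k) (f x : F)
    (F0 F1 : (𝓞 K)[X]) (G : A[X]) (γ : Fb) (V : Set (A × A)) (W : ValuationSubring F) : Prop :=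
  ∃ (w : W) (u s : Fb), IsUnit w ∧ Fx act E0 u ∧ Fx act E0 s ∧ u ≠ 0 ∧
    (∀ P : Place k Fb, Over j P W → P.v u = 1) ∧
    ((IsSquare (f * w) ∧ γ * u = s * s) ∨
    (x ∈ W ∧ W.valuation (F1.eval₂ ((algebraMap K F).comp (algebraMap (𝓞 K) K)) x) = 1 ∧
      IsSquare (f * w * F0.eval₂ ((algebraMap K F).comp (algebraMap (𝓞 K) K)) x) ∧
      γ * (u * G.eval₂ ((algebraMap k Fb).comp a0) (j x)) = s * s ∧
      ∀ z ∈ V, ∃ c ∈ E0, ∃ y, Fx act E0 y ∧ (∀ P : Place k Fb, Over j P W → P.v y ≤ 1) ∧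
        u * G.eval₂ ((algebraMap k Fb).comp a0) (j x) * algebraMap k Fb (a0 z.2) =
          algebraMap k Fb (c * c) + (j x - algebraMap k Fb (a0 z.1)) * y))

-- deps: OVER INVAPP FIXE
def S_LOCC : Prop := ∀ (K F k Fb : Type) [Field K] [NumberField K] [Field F] [Algebra K F]
  [Field k] [IsAlgClosed k] [Algebra K k] [IsGalois K k] [Field Fb] [Algebra k Fb] [FF k Fb]
  (j : F →+* Fb) (act : (k ≃ₐ[K] k) →* RingAut Fb), GS j act →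
  ∀ (f x : F) (Ω I : Finset (Place k Fb)) (P : ℤ[X]) (F0 F1 : (𝓞 K)[X]) (M : ℕ),
  BD j f x Ω (F0.map (algebraMap (𝓞 K) K)) → Pol P F0 F1 M → I ⊆ Ω →
  ∀ (E0 : IntermediateField K k) (A : Type) [CommRing A] (a0 : A →+* k) (G : A[X]) (γ : Fb)
    (V : Set (A × A)), (∀ a, a0 a ∈ E0) → G.map a0 = ∏ c ∈ I, (X - C (ev c (j x))) →
    Fx act E0 γ → OddAt k γ I → (∀ z ∈ V, ∃ c ∈ Ω, c ∉ I ∧ a0 z.1 = ev c (j x) ∧ c.v γ = 1 ∧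
      ∃ t ∈ E0, a0 z.2 = t * t * ev c γ) →
    ∀ W : ValuationSubring F, (∀ c, algebraMap K F c ∈ W) → LocC j act E0 a0 f x F0 F1 G γ V W

-- deps: TRL SPR FC
def S_CERT : Prop := ∀ (K F k Fb : Type) [Field K] [NumberField K] [Field F] [Algebra K F]
  [Field k] [IsAlgClosed k] [Algebra K k] [IsGalois K k] [Field Fb] [Algebra k Fb] [FF k Fb]
  (j : F →+* Fb) (act : (k ≃ₐ[K] k) →* RingAut Fb), GS j act →
  ∀ (f x : F) (F0 F1 : (𝓞 K)[X]) (E0 : IntermediateField K k) (A : Type) [CommRing A]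
    [Module.Free ℤ A] [Module.Finite ℤ A] (a0 : A →+* k) (i : 𝓞 K →+* A) (G : A[X]) (γ : Fb)
    (V : Set (A × A)), Ord E0 a0 i → Fx act E0 γ → γ ≠ 0 → V.Finite → (∀ z ∈ V, z.2 ≠ 0) →
    (∀ W : ValuationSubring F, (∀ c, algebraMap K F c ∈ W) →
      LocC j act E0 a0 f x F0 F1 G γ V W) →
    ∃ (M : ℕ) (γ0 : F ⊗[ℤ] A), M ≠ 0 ∧
      Cert ((algebraMap K F).comp (algebraMap (𝓞 K) K)) f x F0 F1 M i G γ0 V

-- deps:
def S_LZ : Prop := ∀ (K F k Fb : Type) [Field K] [Field F] [Algebra K F] [Field k] [Algebra K k]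
  [IsGalois K k] [Field Fb] [Algebra k Fb] (j : F →+* Fb) (act : (k ≃ₐ[K] k) →* RingAut Fb),
  GS j act → ∀ (Y : Set k) (Z : Set Fb), Y.Finite → Z.Finite →
    ∃ L0 : IntermediateField K k, FiniteDimensional K L0 ∧ IsGalois K L0 ∧ (∀ y ∈ Y, y ∈ L0) ∧
      ∀ z ∈ Z, Fx act L0 z

-- deps: PAIR LA KEY HN INVAPP
def S_DICH : Prop := ∀ (K F k Fb : Type) [Field K] [CharZero K] [Field F] [Algebra K F]
  [Field k] [IsAlgClosed k] [Algebra K k] [IsGalois K k] [Field Fb] [Algebra k Fb] [FF k Fb]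
  (j : F →+* Fb) (act : (k ≃ₐ[K] k) →* RingAut Fb) (h : GS j act) (L0 E0 : IntermediateField K k)
  (s : k ≃ₐ[K] k) (R : Finset Fb) (S : Finset (Place k Fb)) (a b : Place k Fb) (γ π : Fb),
  (∀ r ∈ R, Ev2 k r ∧ Fx act L0 r) → (∀ z, Ev2 k z → ∃ r ∈ R, IsSquare (z * r)) →
  E0 ≤ L0 → s ∈ E0.fixingSubgroup →
  (∀ τ ∈ E0.fixingSubgroup, ∃ n : ℕ, (s ^ n)⁻¹ * τ ∈ L0.fixingSubgroup) →
  (∀ τ, ∀ P ∈ S, (h.sa τ).pl P ∈ S) → a ∈ S → b ∈ S → a ≠ b →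
  (∀ τ ∈ E0.fixingSubgroup, (h.sa τ).pl a = a ∧ (h.sa τ).pl b = b) →
  OddAt k γ {a, b} → Fx act L0 γ → ord a π = 1 → Fx act E0 π →
    (∃ γ', Fx act E0 γ' ∧ OddAt k γ' {a, b}) ∨
    ∃ g r, Fx act E0 g ∧ Ev2 k g ∧ (∀ c ∈ S, c.v g = 1) ∧ r ∈ L0 ∧ r * r = ev a g * ev b g ∧
      s r = -r

/-- A reduction `r` over the place `z`, with Frobenius `σ`. -/
def Frob {K L κ : Type} [Field K] [NumberField K] [Field L] [NumberField L] [Algebra K L]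
    [Field κ] (z : GP K) (r : 𝓞 L →+* κ) (ι : ZMod z.1.1 →+* κ) (σ : L ≃ₐ[K] L) : Prop :=
  r.comp (algebraMap (𝓞 K) (𝓞 L)) = ι.comp z.2 ∧
    ∀ x y : 𝓞 L, (y : L) = σ x → r y = r x ^ z.1.1

-- deps:
def S_FROB : Prop := ∀ (K L : Type) [Field K] [NumberField K] [Field L] [NumberField L]
  [Algebra K L] [IsGalois K L], (∀ z : GP K, ∃ (κ : Type) (_ : Field κ) (r : 𝓞 L →+* κ)
    (ι : ZMod z.1.1 →+* κ) (σ : L ≃ₐ[K] L), Frob z r ι σ) ∧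
  ∃ N : ℕ, N ≠ 0 ∧ ∀ z : GP K, ¬ z.1.1 ∣ N → (∃ ψ : 𝓞 L →+* ZMod z.1.1,
    ψ.comp (algebraMap (𝓞 K) (𝓞 L)) = z.2) → ∀ (κ : Type) [Field κ] (r : 𝓞 L →+* κ)
      (ι : ZMod z.1.1 →+* κ) (σ : L ≃ₐ[K] L), Frob z r ι σ → σ = 1

-- deps:
-- imports: Pool.Agent.P.MP_ab3ecb_nt.Dense Pool.Agent.P.MP_ab3ecb_nt.Tower
def S_QD : Prop := ∀ (K k : Type) [Field K] [NumberField K] [Field k] [Algebra K k]
  (F0 q : (𝓞 K)[X]) (β : k), F0.Monic → q.Monic → q.natDegree = 2 →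
  F0.eval₂ ((algebraMap K k).comp (algebraMap (𝓞 K) K)) β = 0 →
  (∀ α ∈ K⟮β⟯, q.eval₂ ((algebraMap K k).comp (algebraMap (𝓞 K) K)) α ≠ 0) →
  ∀ M : ℕ, M ≠ 0 → Dns fun p => p.Prime ∧ ¬ p ∣ M ∧ ∃ z : GP K, z.1.1 = p ∧
    (∃ t, F0.eval₂ z.2 t = 0) ∧ ∀ t, q.eval₂ z.2 t ≠ 0

/-- The arithmetic tower inside the finite Galois extension `L0`. -/
structure Ari {K k Ω Γ : Type} [Field K] [NumberField K] [Field k] [Algebra K k] [Fintype Ω]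
    (L0 : IntermediateField K k) (θ0 : Ω → k) (A : Γ → Type) [∀ σ, CommRing (A σ)]
    (E : Γ → IntermediateField K k) (s : Γ → k ≃ₐ[K] k) (a0 : ∀ σ, A σ →+* k)
    (i : ∀ σ, 𝓞 K →+* A σ) (θ : ∀ σ, Ω → A σ) (fix : Γ → Finset Ω) (fr : GP K → Γ)
    (lb : ∀ z : GP K, A (fr z) →+* ZMod z.1.1) : Prop where
  ord : ∀ σ, Ord (E σ) (a0 σ) (i σ)
  le : ∀ σ, E σ ≤ L0
  mem : ∀ σ, s σ ∈ (E σ).fixingSubgroup
  gen : ∀ σ, ∀ τ ∈ (E σ).fixingSubgroup, ∃ n : ℕ, (s σ ^ n)⁻¹ * τ ∈ L0.fixingSubgroup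
  fix_iff : ∀ σ c, c ∈ fix σ ↔ θ0 c ∈ E σ
  val : ∀ σ, ∀ c ∈ fix σ, a0 σ (θ σ c) = θ0 c
  sign : ∀ z : GP K, z.1.1 ≠ 2 → ∀ (n : A (fr z)) (r : k), r ∈ L0 → a0 _ n = r * r →
    s (fr z) r = -r → chi z.1.1 (lb z n) ≠ 1
  split : ∀ M : ℕ, M ≠ 0 → Dns fun p => p.Prime ∧ ¬ p ∣ M ∧ ∃ z : GP K, z.1.1 = p ∧ E (fr z) = L0

-- deps: FROB QD
-- imports: Pool.Agent.P.MP_ab3ecb_nt.Dense
def S_ARITH : Prop := ∀ (K k Ω : Type) [Field K] [NumberField K] [Field k] [Algebra K k]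
  [IsGalois K k] [Fintype Ω] [Nonempty Ω] (L0 : IntermediateField K k) [FiniteDimensional K L0]
  [IsGalois K L0] (θ0 : Ω → k) (P : ℤ[X]) (F0 F1 : (𝓞 K)[X]) (M0 : ℕ), Pol P F0 F1 M0 →
  (∀ c, θ0 c ∈ L0) → F0.map ((algebraMap K k).comp (algebraMap (𝓞 K) K)) = ∏ c, (X - C (θ0 c)) →
  (∀ a, finrank K K⟮θ0 a⟯ ≤ 2 → ∃ b, θ0 a ∉ K⟮θ0 b⟯) →
  ∃ (Γ : Type) (_ : Fintype Γ) (_ : Nonempty Γ) (A : Γ → Type) (_ : ∀ σ, CommRing (A σ))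
    (_ : ∀ σ, IsDomain (A σ)) (_ : ∀ σ, Module.Free ℤ (A σ))
    (_ : ∀ σ, Module.Finite ℤ (A σ)) (E : Γ → IntermediateField K k) (s : Γ → k ≃ₐ[K] k) (a0 : ∀ σ, A σ →+* k)
    (i : ∀ σ, 𝓞 K →+* A σ) (θ : ∀ σ, Ω → A σ) (fix : Γ → Finset Ω) (fr : GP K → Γ)
    (lb : ∀ z : GP K, A (fr z) →+* ZMod z.1.1) (G : Set (Equiv.Perm Ω)),
    Ari L0 θ0 A E s a0 i θ fix fr lb ∧
      ∀ M : ℕ, M ≠ 0 → M0 ∣ M → TwK F0 M A i θ fix fr lb G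

-- deps: JDIV JFIN LZ ARITH DICH INVAPP LOCC CERT
def S_GEO : Prop := ∀ (K F k Fb : Type) [Field K] [NumberField K] [Field F] [Algebra K F]
  [Field k] [IsAlgClosed k] [Algebra K k] [IsGalois K k] [Field Fb] [Algebra k Fb] [FF k Fb]
  (j : F →+* Fb) (act : (k ≃ₐ[K] k) →* RingAut Fb), GS j act →
  ∀ (f x : F) (Ω : Finset (Place k Fb)) (P : ℤ[X]) (F0 F1 : (𝓞 K)[X]) (M0 : ℕ),
  BD j f x Ω (F0.map (algebraMap (𝓞 K) K)) → Pol P F0 F1 M0 → Ω.Nonempty →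
  (∀ a ∈ Ω, finrank K K⟮ev a (j x)⟯ ≤ 2 → ∃ b ∈ Ω, ev a (j x) ∉ K⟮ev b (j x)⟯) →
  ∃ (Γ S : Type) (_ : Fintype Γ) (_ : Fintype S) (A : Γ → Type) (_ : ∀ σ, CommRing (A σ))
    (_ : ∀ σ, IsDomain (A σ)) (_ : ∀ σ, Module.Free ℤ (A σ)) (_ : ∀ σ, Module.Finite ℤ (A σ))
    (i : ∀ σ, 𝓞 K →+* A σ) (θ : ∀ σ, Ω → A σ) (fix : Γ → Finset Ω) (fr : GP K → Γ)
    (lb : ∀ z : GP K, A (fr z) →+* ZMod z.1.1) (G : Set (Equiv.Perm Ω))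
    (γ : ∀ σ, S → F ⊗[ℤ] A σ) (n : ∀ σ, S → Ω → A σ) (M1 : ℕ), M1 ≠ 0 ∧
    ∀ M : ℕ, M ≠ 0 → M1 ∣ M → TwK F0 M A i θ fix fr lb G ∧
      TsK ((algebraMap K F).comp (algebraMap (𝓞 K) K)) f x F0 F1 M A i θ fix fr lb γ n ∧
      Cert0 ((algebraMap K F).comp (algebraMap (𝓞 K) K)) f x F0 M

end Pool.Agent.P.MP_ab3ecb_nt.Inv
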