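import Pool.Agent.P.MP_ab3ecb_nt.Inv.G.Iface

/-! Step SPR of the twist project. -/

namespace Pool.Agent.P.MP_ab3ecb_nt.Inv

open WithZero Polynomial Module TensorProduct NumberField
open Pool.Agent.P.MP_6f117a_ag (Place FF Model Reg)
open scoped IntermediateField Classical

theorem p_SPR :
    S_SPR := by
  intro F _ _ Q h
  by_contra h0
  push Not at h0
  choose W hW hQ using fun n : ℕ => h0 n.factorial n.factorial_ne_zero
  let V : ValuationSubring F :=
    { carrier := {z | ∀ᶠ n in Filter.hyperfilter ℕ, z ∈ W n}
      one_mem' := .of_forall fun n => (W n).one_mem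
      zero_mem' := .of_forall fun n => (W n).zero_mem
      mul_mem' := fun ha hb => (Filter.Eventually.and ha hb).mono fun n e => mul_mem e.1 e.2
      add_mem' := fun ha hb => (Filter.Eventually.and ha hb).mono fun n e => add_mem e.1 e.2
      neg_mem' := fun ha => Filter.Eventually.mono ha fun n e => neg_mem e
      mem_or_inv_mem' := fun z =>
        Ultrafilter.eventually_or.1 (.of_forall fun n => (W n).mem_or_inv_mem z) }
  obtain ⟨T, h1, h2, h3⟩ := h V fun q => by
    refine Filter.Eventually.filter_mono Nat.hyperfilter_le_atTop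
      ((Filter.eventually_ge_atTop q.den).mono fun n hn => ?_)
    obtain ⟨u, hu⟩ := (isUnit_of_dvd_unit (Int.cast_dvd_cast _ _
      (Int.natCast_dvd_natCast.2 (Nat.dvd_factorial q.den_pos hn))) (hW n)).exists_right_inv
    have h4 : (q.den : F) * u = 1 := by simpa using congrArg Subtype.val hu
    rw [Rat.cast_def, div_eq_mul_inv, ← eq_inv_of_mul_eq_one_right h4]
    exact mul_mem (intCast_mem _ _) u.2
  obtain ⟨n, hn⟩ := ((Filter.eventually_all_finite h1).2 fun z hz => h2 hz).exists
  exact hQ n (h3 _ hn)

end Pool.Agent.P.MP_ab3ecb_nt.Inv
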